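import Mathlib

/-!
# Hyperbolic rational maps

The definitions used by the hand-in `MP_8f2e1c_an.HyperbolicBoundary`.
-/

set_option autoImplicit false

open Filter Topology Polynomial OnePoint

namespace Pool.Agent.H91.Fatou

/-- homogeneous coordinates `[num z : den z]` of a point of the Riemann sphere: `[z : 1]` for
`z ≠ ∞` and `[1 : 0]` for `∞` -/
noncomputable def num (z : OnePoint ℂ) : ℂ := z.elim 1 id

/-- see `num` -/
noncomputable def den (z : OnePoint ℂ) : ℂ := z.elim 0 (fun _ => 1)

/-- the chordal distance on the Riemann sphere (normalized to have diameter `1`) -/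
noncomputable def chord (z w : OnePoint ℂ) : ℝ :=
  ‖num z * den w - num w * den z‖ /
    (√(‖num z‖ ^ 2 + ‖den z‖ ^ 2) * √(‖num w‖ ^ 2 + ‖den w‖ ^ 2))

/-- The fixed point `z` of `f^n` is attracting: near `z`, the map `f^n` contracts the chordal
distance to `z` by a factor `q < 1`.  For a rational map `f` this says that the multiplier of `f^n`
at `z` has modulus less than `1`. -/
def Attracting (f : OnePoint ℂ → OnePoint ℂ) (n : ℕ) (z : OnePoint ℂ) : Prop :=
  ∃ q : ℝ, q < 1 ∧ ∃ U ∈ 𝓝 z, ∀ w ∈ U, chord (f^[n] w) z ≤ q * chord w z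

/-- The orbit of `w` converges to an attracting periodic cycle of `f`. -/
def Captured (f : OnePoint ℂ → OnePoint ℂ) (w : OnePoint ℂ) : Prop :=
  ∃ (z : OnePoint ℂ) (n : ℕ), 0 < n ∧ f^[n] z = z ∧ Attracting f n z ∧
    ∃ m : ℕ, Tendsto (fun k : ℕ => f^[n * k + m] w) atTop (𝓝 z)

/-- The rational map `P/Q` is hyperbolic: `P/Q` (defined off the zeros of `Q`) extends to a
continuous self-map `f` of the Riemann sphere such that the orbit of every critical point of `f`
(point near which `f` is not injective) converges to an attracting periodic cycle. -/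
def IsHyperbolic (P Q : Polynomial ℂ) : Prop :=
  ∃ f : OnePoint ℂ → OnePoint ℂ, Continuous f ∧
    (∀ z : ℂ, Q.eval z ≠ 0 → f (OnePoint.some z) = OnePoint.some (P.eval z / Q.eval z)) ∧
    ∀ c : OnePoint ℂ, (¬ ∃ U ∈ nhds c, Set.InjOn f U) → Captured f c

end Pool.Agent.H91.Fatou
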