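import Mathlib
import Pool.Agent.H44.Fatou.Gen2

/-!
# Homogeneous coordinates, limits of rational maps off the holes
-/

set_option autoImplicit false

open Filter Topology Polynomial OnePoint Metric

namespace Pool.Agent.H91.Fatou

open Pool.Agent.H44.Fatou

/-- homogeneous evaluation -/
noncomputable def hom (d : ℕ) (P : Polynomial ℂ) (x y : ℂ) : ℂ :=
  ∑ i ∈ Finset.range (d + 1), P.coeff i * x ^ i * y ^ (d - i)

theorem hom_one {d : ℕ} {P : Polynomial ℂ} (h : P.natDegree ≤ d) (z : ℂ) :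
    hom d P z 1 = P.eval z := by
  unfold hom
  rw [eval_eq_sum_range' (lt_of_le_of_lt h (Nat.lt_succ_self d))]
  simp

theorem hom_smul (d : ℕ) (P : Polynomial ℂ) (t x y : ℂ) :
    hom d P (t * x) (t * y) = t ^ d * hom d P x y := by
  unfold hom
  rw [Finset.mul_sum]
  apply Finset.sum_congr rfl
  intro i hi
  rw [Finset.mem_range] at hi
  have : t ^ d = t ^ i * t ^ (d - i) := by rw [← pow_add]; congr 1; omega
  rw [this, mul_pow, mul_pow]
  ring

theorem hom_zero_right (d : ℕ) (P : Polynomial ℂ) (x : ℂ) :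
    hom d P x 0 = P.coeff d * x ^ d := by
  unfold hom
  rw [Finset.sum_range_succ, Finset.sum_eq_zero]
  · simp
  · intro i hi
    rw [Finset.mem_range] at hi
    rw [zero_pow (by omega), mul_zero]

theorem hom_of_ne {d : ℕ} {P : Polynomial ℂ} (h : P.natDegree ≤ d) {x y : ℂ} (hy : y ≠ 0) :
    hom d P x y = y ^ d * P.eval (x / y) := by
  rw [← hom_one h, ← hom_smul]
  congr 1
  · field_simp
  · ring

theorem hom_mul {e k : ℕ} {P H : Polynomial ℂ} (hP : P.natDegree ≤ e) (hH : H.natDegree ≤ k)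
    (x y : ℂ) : hom (e + k) (P * H) x y = hom e P x y * hom k H x y := by
  by_cases hy : y = 0
  · subst hy
    rw [hom_zero_right, hom_zero_right, hom_zero_right, coeff_mul_add_eq_of_natDegree_le hP hH,
      pow_add]
    ring
  · rw [hom_of_ne (natDegree_mul_le.trans (add_le_add hP hH)) hy, hom_of_ne hP hy,
      hom_of_ne hH hy, eval_mul, pow_add]
    ring

theorem le_dgP (P Q : Polynomial ℂ) : P.natDegree ≤ dg P Q := le_max_left _ _

theorem le_dgQ (P Q : Polynomial ℂ) : Q.natDegree ≤ dg P Q := le_max_right _ _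

/-- action on homogeneous coordinates -/
theorem rat_pt {P Q : Polynomial ℂ} {x y : ℂ} (h : x ≠ 0 ∨ y ≠ 0) :
    rat P Q (pt x y) = pt (hom (dg P Q) P x y) (hom (dg P Q) Q x y) := by
  by_cases hy : y = 0
  · subst hy
    have hx : x ≠ 0 := by
      rcases h with h | h
      · exact h
      · exact absurd rfl h
    have : pt x 0 = ∞ := by unfold pt; rw [if_pos rfl]
    rw [this, rat_infty, hom_zero_right, hom_zero_right, pt_smul (pow_ne_zero _ hx)]
  · have : pt x y = ((x / y : ℂ) : OnePoint ℂ) := by unfold pt; rw [if_neg hy]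
    rw [this, rat_coe, hom_of_ne (le_dgP P Q) hy, hom_of_ne (le_dgQ P Q) hy,
      mul_comm _ (P.eval _), mul_comm _ (Q.eval _), pt_smul (pow_ne_zero _ hy)]

theorem hom_ne {P Q : Polynomial ℂ} (hc : IsCoprime P Q) {x y : ℂ} (h : x ≠ 0 ∨ y ≠ 0) :
    hom (dg P Q) P x y ≠ 0 ∨ hom (dg P Q) Q x y ≠ 0 := by
  by_cases hy : y = 0
  · subst hy
    have hx : x ≠ 0 := by
      rcases h with h | h
      · exact h
      · exact absurd rfl h
    rw [hom_zero_right, hom_zero_right]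
    rcases coeff_dg hc with h | h
    · left; exact mul_ne_zero h (pow_ne_zero _ hx)
    · right; exact mul_ne_zero h (pow_ne_zero _ hx)
  · rw [hom_of_ne (le_dgP P Q) hy, hom_of_ne (le_dgQ P Q) hy]
    rcases coprime_eval hc (x / y) with h | h
    · left; exact mul_ne_zero (pow_ne_zero _ hy) h
    · right; exact mul_ne_zero (pow_ne_zero _ hy) h

theorem tendsto_hom {α : Type*} {l : Filter α} {d : ℕ} {P : α → Polynomial ℂ}
    {P0 : Polynomial ℂ} (hP : ∀ i, Tendsto (fun a => (P a).coeff i) l (𝓝 (P0.coeff i)))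
    {x y : α → ℂ} {x0 y0 : ℂ} (hx : Tendsto x l (𝓝 x0)) (hy : Tendsto y l (𝓝 y0)) :
    Tendsto (fun a => hom d (P a) (x a) (y a)) l (𝓝 (hom d P0 x0 y0)) := by
  unfold hom
  apply tendsto_finsetSum
  intro i _
  exact ((hP i).mul (hx.pow i)).mul (hy.pow (d - i))

/-- unit representatives -/
theorem exists_rep (z : OnePoint ℂ) : ∃ p : ℂ × ℂ, p ∈ sphere (0 : ℂ × ℂ) 1 ∧ pt p.1 p.2 = z := by
  have key : ∀ x y : ℂ, (x ≠ 0 ∨ y ≠ 0) → ∃ p : ℂ × ℂ, p ∈ sphere (0 : ℂ × ℂ) 1 ∧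
      pt p.1 p.2 = pt x y := by
    intro x y h
    set n : ℝ := ‖((x, y) : ℂ × ℂ)‖ with hn
    have hn0 : n ≠ 0 := by
      rw [hn, norm_ne_zero_iff]
      intro h0
      rw [Prod.mk_eq_zero] at h0
      tauto
    have hnc : ((n : ℂ))⁻¹ ≠ 0 := inv_ne_zero (by exact_mod_cast hn0)
    have hnn : 0 ≤ n := norm_nonneg _
    refine ⟨(x * (n : ℂ)⁻¹, y * (n : ℂ)⁻¹), ?_, ?_⟩
    · rw [mem_sphere_zero_iff_norm]
      have : ((x * (n : ℂ)⁻¹, y * (n : ℂ)⁻¹) : ℂ × ℂ) = ((n : ℂ)⁻¹) • ((x, y) : ℂ × ℂ) := by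
        ext
        · simp [mul_comm]
        · simp [mul_comm]
      rw [this, norm_smul, norm_inv, Complex.norm_real, Real.norm_eq_abs, abs_of_nonneg hnn, ← hn,
        inv_mul_cancel₀ hn0]
    · exact pt_smul hnc
  induction z using OnePoint.rec with
  | infty =>
    obtain ⟨p, hp, h⟩ := key 1 0 (Or.inl one_ne_zero)
    refine ⟨p, hp, h.trans ?_⟩
    unfold pt; rw [if_pos rfl]
  | coe z =>
    obtain ⟨p, hp, h⟩ := key z 1 (Or.inr one_ne_zero)
    refine ⟨p, hp, h.trans ?_⟩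
    unfold pt; rw [if_neg one_ne_zero, div_one]

theorem ne_of_sphere {p : ℂ × ℂ} (hp : p ∈ sphere (0 : ℂ × ℂ) 1) : p.1 ≠ 0 ∨ p.2 ≠ 0 := by
  by_contra hcon
  push Not at hcon
  have : p = 0 := Prod.ext hcon.1 hcon.2
  rw [this] at hp
  simp at hp

theorem isCompact_sph : IsCompact (sphere (0 : ℂ × ℂ) 1) := isCompact_sphere _ _

/-- along an ultrafilter, unit representatives converge -/
theorem rep_tendsto {α : Type*} (U : Ultrafilter α) {z : α → OnePoint ℂ} {z0 : OnePoint ℂ}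
    (h : Tendsto z U (𝓝 z0)) : ∃ (p : α → ℂ × ℂ) (p0 : ℂ × ℂ), (∀ a, p a ∈ sphere (0 : ℂ × ℂ) 1) ∧
      (∀ a, pt (p a).1 (p a).2 = z a) ∧ p0 ∈ sphere (0 : ℂ × ℂ) 1 ∧ pt p0.1 p0.2 = z0 ∧
      Tendsto p U (𝓝 p0) := by
  choose p hp hz using fun a => exists_rep (z a)
  obtain ⟨p0, hp0, hlim⟩ := isCompact_sph.ultrafilter_le_nhds (U.map p)
    (by rw [le_principal_iff]; exact Filter.mem_map.2 (Filter.Eventually.of_forall hp))
  have hlim' : Tendsto p U (𝓝 p0) := hlim
  refine ⟨p, p0, hp, hz, hp0, ?_, hlim'⟩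
  have h1 : Tendsto (fun a => pt (p a).1 (p a).2) U (𝓝 (pt p0.1 p0.2)) :=
    tendsto_pt ((continuous_fst.tendsto _).comp hlim') ((continuous_snd.tendsto _).comp hlim')
      (ne_of_sphere hp0)
  simp only [hz] at h1
  exact tendsto_nhds_unique h1 h

/-- the point is not a zero of `H` -/
def Good (H : Polynomial ℂ) (z : OnePoint ℂ) : Prop := ∀ w : ℂ, z = (w : OnePoint ℂ) → H.eval w ≠ 0

theorem Good.hom_ne {H : Polynomial ℂ} (hH : H ≠ 0) {x y : ℂ} (h : x ≠ 0 ∨ y ≠ 0)
    (hg : Good H (pt x y)) : hom H.natDegree H x y ≠ 0 := by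
  by_cases hy : y = 0
  · subst hy
    have hx : x ≠ 0 := by
      rcases h with h | h
      · exact h
      · exact absurd rfl h
    rw [hom_zero_right]
    exact mul_ne_zero (leadingCoeff_ne_zero.2 hH) (pow_ne_zero _ hx)
  · rw [hom_of_ne le_rfl hy]
    apply mul_ne_zero (pow_ne_zero _ hy)
    apply hg
    unfold pt; rw [if_neg hy]

/-- data: coprime pairs converging to a degenerate pair -/
structure Lim {α : Type*} (U : Ultrafilter α) (P Q H : Polynomial ℂ) (A B : α → Polynomial ℂ) :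
    Prop where
  cop : IsCoprime P Q
  H0 : H ≠ 0
  copA : ∀ a, IsCoprime (A a) (B a)
  dgA : ∀ a, dg (A a) (B a) = dg P Q + H.natDegree
  limA : ∀ i, Tendsto (fun a => (A a).coeff i) U (𝓝 ((P * H).coeff i))
  limB : ∀ i, Tendsto (fun a => (B a).coeff i) U (𝓝 ((Q * H).coeff i))

/-- convergence off the holes -/
theorem Lim.tendsto {α : Type*} {U : Ultrafilter α} {P Q H : Polynomial ℂ}
    {A B : α → Polynomial ℂ} (L : Lim U P Q H A B) {z : α → OnePoint ℂ} {z0 : OnePoint ℂ}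
    (h : Tendsto z U (𝓝 z0)) (hg : Good H z0) :
    Tendsto (fun a => rat (A a) (B a) (z a)) U (𝓝 (rat P Q z0)) := by
  obtain ⟨p, p0, hp, hz, hp0, hz0, hlim⟩ := rep_tendsto U h
  have h1 : Tendsto (fun a => (p a).1) U (𝓝 p0.1) := (continuous_fst.tendsto _).comp hlim
  have h2 : Tendsto (fun a => (p a).2) U (𝓝 p0.2) := (continuous_snd.tendsto _).comp hlim
  have hne := ne_of_sphere hp0
  subst hz0
  have h3 := hg.hom_ne L.H0 hne
  have e1 := tendsto_hom (d := dg P Q + H.natDegree) L.limA h1 h2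
  have e2 := tendsto_hom (d := dg P Q + H.natDegree) L.limB h1 h2
  rw [hom_mul (le_dgP P Q) le_rfl] at e1
  rw [hom_mul (le_dgQ P Q) le_rfl] at e2
  have e3 := tendsto_pt e1 e2 (by
    rcases Fatou.hom_ne L.cop hne with h | h
    · left; exact mul_ne_zero h h3
    · right; exact mul_ne_zero h h3)
  rw [pt_smul h3] at e3
  rw [rat_pt hne]
  apply e3.congr
  intro a
  rw [← hz a, rat_pt (ne_of_sphere (hp a)), L.dgA a]

/-- convergence of iterates off the holes -/
theorem Lim.iterate {α : Type*} {U : Ultrafilter α} {P Q H : Polynomial ℂ}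
    {A B : α → Polynomial ℂ} (L : Lim U P Q H A B) {z : α → OnePoint ℂ} {z0 : OnePoint ℂ}
    (h : Tendsto z U (𝓝 z0)) (m : ℕ) (hg : ∀ i < m, Good H ((rat P Q)^[i] z0)) :
    Tendsto (fun a => (rat (A a) (B a))^[m] (z a)) U (𝓝 ((rat P Q)^[m] z0)) := by
  induction m with
  | zero => simpa using h
  | succ m ih =>
    have h1 := ih (fun i hi => hg i (by omega))
    have h2 := L.tendsto h1 (hg m (Nat.lt_succ_self m))
    simp only [Function.iterate_succ_apply']
    exact h2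

end Pool.Agent.H91.Fatou
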