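import Mathlib
import Pool.Agent.H91.Fatou.Hom
import Pool.Agent.H91.Fatou.Defs

/-!
# Chordal metric, attracting cycles, basins, charts
-/

set_option autoImplicit false

open Filter Topology Polynomial OnePoint Metric

namespace Pool.Agent.H91.Fatou

open Pool.Agent.H44.Fatou

/-- euclidean norm of homogeneous coordinates -/
noncomputable def nn (x y : ℂ) : ℝ := √(‖x‖ ^ 2 + ‖y‖ ^ 2)

theorem nn_pos {x y : ℂ} (h : x ≠ 0 ∨ y ≠ 0) : 0 < nn x y := by
  unfold nn
  apply Real.sqrt_pos.2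
  rcases h with h | h
  · have := norm_pos_iff.2 h
    positivity
  · have := norm_pos_iff.2 h
    positivity

theorem nn_mul (t x y : ℂ) : nn (t * x) (t * y) = ‖t‖ * nn x y := by
  unfold nn
  rw [norm_mul, norm_mul, mul_pow, mul_pow, ← mul_add, Real.sqrt_mul (by positivity),
    Real.sqrt_sq (norm_nonneg _)]

theorem nn_continuous : Continuous (fun p : ℂ × ℂ => nn p.1 p.2) := by
  unfold nn
  fun_prop

theorem exists_scale {x y : ℂ} (h : x ≠ 0 ∨ y ≠ 0) :
    ∃ t : ℂ, t ≠ 0 ∧ x = t * num (pt x y) ∧ y = t * den (pt x y) := by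
  by_cases hy : y = 0
  · subst hy
    have hx : x ≠ 0 := by
      rcases h with h | h
      · exact h
      · exact absurd rfl h
    have : pt x 0 = ∞ := by unfold pt; rw [if_pos rfl]
    rw [this]
    refine ⟨x, hx, ?_, ?_⟩
    · show x = x * 1; ring
    · show (0 : ℂ) = x * 0; ring
  · have : pt x y = ((x / y : ℂ) : OnePoint ℂ) := by unfold pt; rw [if_neg hy]
    rw [this]
    refine ⟨y, hy, ?_, ?_⟩
    · show x = y * (x / y); field_simp
    · show y = y * 1; ring

theorem chord_pt {x y x' y' : ℂ} (h : x ≠ 0 ∨ y ≠ 0) (h' : x' ≠ 0 ∨ y' ≠ 0) :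
    chord (pt x y) (pt x' y') = ‖x * y' - x' * y‖ / (nn x y * nn x' y') := by
  obtain ⟨t, ht, h1, h2⟩ := exists_scale h
  obtain ⟨s, hs, h3, h4⟩ := exists_scale h'
  set a := num (pt x y)
  set b := den (pt x y)
  set a' := num (pt x' y')
  set b' := den (pt x' y')
  have e1 : ‖x * y' - x' * y‖ = ‖t‖ * ‖s‖ * ‖a * b' - a' * b‖ := by
    rw [h1, h2, h3, h4, ← norm_mul, ← norm_mul]
    congr 1
    ring
  have e2 : nn x y = ‖t‖ * nn a b := by rw [h1, h2, nn_mul]
  have e3 : nn x' y' = ‖s‖ * nn a' b' := by rw [h3, h4, nn_mul]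
  rw [e1, e2, e3]
  have ht' := norm_pos_iff.2 ht
  have hs' := norm_pos_iff.2 hs
  show ‖a * b' - a' * b‖ / (nn a b * nn a' b') = _
  have e4 : ‖t‖ * nn a b * (‖s‖ * nn a' b') = (‖t‖ * ‖s‖) * (nn a b * nn a' b') := by ring
  rw [e4, mul_div_mul_left _ _ (mul_pos ht' hs').ne']

theorem chord_nonneg (z w : OnePoint ℂ) : 0 ≤ chord z w := by
  unfold chord; positivity

theorem chord_eq_zero {z w : OnePoint ℂ} (h : chord z w = 0) : z = w := by
  obtain ⟨p, hp, rfl⟩ := exists_rep z
  obtain ⟨r, hr, rfl⟩ := exists_rep w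
  rw [chord_pt (ne_of_sphere hp) (ne_of_sphere hr)] at h
  have h1 := nn_pos (ne_of_sphere hp)
  have h2 := nn_pos (ne_of_sphere hr)
  rw [div_eq_zero_iff] at h
  rcases h with h | h
  · rw [norm_eq_zero, sub_eq_zero] at h
    unfold pt
    by_cases h3 : p.2 = 0
    · rw [if_pos h3]
      have h4 : r.2 = 0 := by
        rw [h3, mul_zero] at h
        rcases mul_eq_zero.1 h with h5 | h5
        · rcases ne_of_sphere hp with h6 | h6
          · exact absurd h5 h6
          · exact absurd h3 h6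
        · exact h5
      rw [if_pos h4]
    · rw [if_neg h3]
      have h4 : r.2 ≠ 0 := by
        intro h4
        rw [h4, mul_zero] at h
        rcases mul_eq_zero.1 h.symm with h5 | h5
        · rcases ne_of_sphere hr with h6 | h6
          · exact h6 h5
          · exact h6 h4
        · exact h3 h5
      rw [if_neg h4, coe_eq_coe, div_eq_div_iff h3 h4]
      exact h
  · exact absurd h (mul_pos h1 h2).ne'

theorem chord_self (z : OnePoint ℂ) : chord z z = 0 := by
  unfold chord
  rw [sub_self, norm_zero, zero_div]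

theorem tendsto_chord {α : Type*} (U : Ultrafilter α) {z w : α → OnePoint ℂ}
    {z0 w0 : OnePoint ℂ} (h : Tendsto z U (𝓝 z0)) (h' : Tendsto w U (𝓝 w0)) :
    Tendsto (fun a => chord (z a) (w a)) U (𝓝 (chord z0 w0)) := by
  obtain ⟨p, p0, hp, hz, hp0, hz0, hlim⟩ := rep_tendsto U h
  obtain ⟨r, r0, hr, hw, hr0, hw0, hlim'⟩ := rep_tendsto U h'
  have h1 : Tendsto (fun a => (p a).1) U (𝓝 p0.1) := (continuous_fst.tendsto _).comp hlim
  have h2 : Tendsto (fun a => (p a).2) U (𝓝 p0.2) := (continuous_snd.tendsto _).comp hlim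
  have h3 : Tendsto (fun a => (r a).1) U (𝓝 r0.1) := (continuous_fst.tendsto _).comp hlim'
  have h4 : Tendsto (fun a => (r a).2) U (𝓝 r0.2) := (continuous_snd.tendsto _).comp hlim'
  have h5 : Tendsto (fun a => nn (p a).1 (p a).2) U (𝓝 (nn p0.1 p0.2)) :=
    (nn_continuous.tendsto p0).comp hlim
  have h6 : Tendsto (fun a => nn (r a).1 (r a).2) U (𝓝 (nn r0.1 r0.2)) :=
    (nn_continuous.tendsto r0).comp hlim'
  have h7 := (((h1.mul h4).sub (h3.mul h2)).norm).div (h5.mul h6)
    (mul_pos (nn_pos (ne_of_sphere hp0)) (nn_pos (ne_of_sphere hr0))).ne'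
  rw [← hz0, ← hw0, chord_pt (ne_of_sphere hp0) (ne_of_sphere hr0)]
  apply h7.congr
  intro a
  rw [← hz a, ← hw a, chord_pt (ne_of_sphere (hp a)) (ne_of_sphere (hr a))]
  rfl

theorem chord_continuous (z0 : OnePoint ℂ) : Continuous (fun w => chord w z0) := by
  rw [continuous_iff_continuousAt]
  intro w
  rw [continuousAt_iff_ultrafilter]
  intro g hg
  exact tendsto_chord g (z := id) (w := fun _ => z0) hg tendsto_const_nhds

/-- chordal balls are open -/
theorem isOpen_cball (z : OnePoint ℂ) (ε : ℝ) : IsOpen {w | chord w z < ε} :=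
  isOpen_lt (chord_continuous z) continuous_const

/-- chordal balls form a neighbourhood basis -/
theorem exists_cball {z : OnePoint ℂ} {O : Set (OnePoint ℂ)} (hO : O ∈ 𝓝 z) :
    ∃ ε : ℝ, 0 < ε ∧ ∀ w, chord w z < ε → w ∈ O := by
  by_contra hcon
  push Not at hcon
  have h1 : ∀ n : ℕ, ∃ w, chord w z < 1 / ((n : ℝ) + 1) ∧ w ∉ O := by
    intro n
    exact hcon _ (by positivity)
  choose w hw1 hw2 using h1
  set U : Ultrafilter ℕ := hyperfilter ℕ with hU
  have hlim : Tendsto w U (𝓝 ((U.map w).lim)) := (U.map w).le_nhds_lim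
  set w0 := (U.map w).lim
  have h2 := tendsto_chord U hlim (w := fun _ => z) tendsto_const_nhds
  have hat : (U : Filter ℕ) ≤ atTop := by
    rw [hU, ← Nat.cofinite_eq_atTop]
    exact hyperfilter_le_cofinite
  have h3 : Tendsto (fun n : ℕ => 1 / ((n : ℝ) + 1)) U (𝓝 0) :=
    tendsto_one_div_add_atTop_nhds_zero_nat.mono_left hat
  have h4 : chord w0 z ≤ 0 := le_of_tendsto_of_tendsto' h2 h3 (fun n => (hw1 n).le)
  have h5 : w0 = z := chord_eq_zero (le_antisymm h4 (chord_nonneg _ _))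
  rw [h5] at hlim
  have h6 := hlim hO
  have h7 : ∀ᶠ n in (U : Filter ℕ), w n ∈ O := h6
  obtain ⟨n, hn⟩ := h7.exists
  exact hw2 n hn

/-- an attracting periodic point has arbitrarily small trapping chordal balls -/
theorem Attracting.trap {f : OnePoint ℂ → OnePoint ℂ} {n : ℕ} {z : OnePoint ℂ}
    (h : Attracting f n z) {O : Set (OnePoint ℂ)} (hO : O ∈ 𝓝 z) :
    ∃ ε q : ℝ, 0 < ε ∧ 0 ≤ q ∧ q < 1 ∧ (∀ w, chord w z < ε → w ∈ O) ∧
      ∀ w, chord w z < ε → ∀ k : ℕ, chord (f^[n * k] w) z ≤ q ^ k * chord w z ∧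
        chord (f^[n * k] w) z < ε := by
  obtain ⟨q, hq, V, hV, hVq⟩ := h
  obtain ⟨ε, hε, hεO⟩ := exists_cball (inter_mem hO hV)
  refine ⟨ε, max q 0, hε, le_max_right _ _, max_lt hq one_pos, fun w hw => (hεO w hw).1, ?_⟩
  intro w hw k
  have key : chord (f^[n * k] w) z ≤ (max q 0) ^ k * chord w z := by
    induction k with
    | zero => simp
    | succ k ih =>
      have h1 : (max q 0) ^ k * chord w z ≤ chord w z := by
        have : (max q 0) ^ k ≤ 1 := pow_le_one₀ (le_max_right _ _) (max_lt hq one_pos).le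
        have := mul_le_mul_of_nonneg_right this (chord_nonneg w z)
        linarith
      have h2 : chord (f^[n * k] w) z < ε := by linarith
      have h3 := hVq _ (hεO _ h2).2
      have h4 : f^[n * (k + 1)] w = f^[n] (f^[n * k] w) := by
        rw [← Function.iterate_add_apply]; congr 1; ring
      rw [h4]
      calc _ ≤ q * chord (f^[n * k] w) z := h3
        _ ≤ max q 0 * chord (f^[n * k] w) z :=
            mul_le_mul_of_nonneg_right (le_max_left _ _) (chord_nonneg _ _)
        _ ≤ max q 0 * ((max q 0) ^ k * chord w z) :=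
            mul_le_mul_of_nonneg_left ih (le_max_right _ _)
        _ = (max q 0) ^ (k + 1) * chord w z := by ring
  refine ⟨key, ?_⟩
  have : (max q 0) ^ k ≤ 1 := pow_le_one₀ (le_max_right _ _) (max_lt hq one_pos).le
  have := mul_le_mul_of_nonneg_right this (chord_nonneg w z)
  linarith

/-- convergence from chordal convergence -/
theorem tendsto_of_chord {α : Type*} {l : Filter α} {z : α → OnePoint ℂ} {z0 : OnePoint ℂ}
    (h : Tendsto (fun a => chord (z a) z0) l (𝓝 0)) : Tendsto z l (𝓝 z0) := by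
  rw [tendsto_iff_forall_eventually_mem]
  intro O hO
  obtain ⟨ε, hε, hεO⟩ := exists_cball hO
  filter_upwards [h.eventually (gt_mem_nhds hε)] with a ha
  exact hεO _ ha

theorem Attracting.tendsto {f : OnePoint ℂ → OnePoint ℂ} {n : ℕ} {z : OnePoint ℂ}
    (h : Attracting f n z) : ∀ᶠ w in 𝓝 z, Tendsto (fun k : ℕ => f^[n * k] w) atTop (𝓝 z) := by
  obtain ⟨ε, q, hε, hq0, hq1, -, h2⟩ := h.trap univ_mem
  have h3 : {w | chord w z < ε} ∈ 𝓝 z := (isOpen_cball z ε).mem_nhds (by
    show chord z z < ε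
    rw [chord_self]; exact hε)
  filter_upwards [h3] with w hw
  apply tendsto_of_chord
  apply squeeze_zero (fun k => chord_nonneg _ _) (fun k => (h2 w hw k).1)
  have := (tendsto_pow_atTop_nhds_zero_of_lt_one hq0 hq1).mul_const (chord w z)
  rwa [zero_mul] at this

/-- the basin is open -/
theorem isOpen_captured {f : OnePoint ℂ → OnePoint ℂ} (hf : Continuous f) :
    IsOpen {w | Captured f w} := by
  rw [isOpen_iff_mem_nhds]
  rintro w ⟨z, n, hn, hz, ha, m, hm⟩
  have h1 := ha.tendsto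
  have h2 := eventually_eventually_nhds.2 h1
  obtain ⟨k0, hk0⟩ := (hm.eventually h2).exists
  have h3 := ((hf.iterate (n * k0 + m)).tendsto w).eventually hk0
  filter_upwards [h3] with x hx
  refine ⟨z, n, hn, hz, ha, n * k0 + m, ?_⟩
  apply hx.congr
  intro k
  rw [← Function.iterate_add_apply]

theorem Captured.of_apply {f : OnePoint ℂ → OnePoint ℂ} {w : OnePoint ℂ} {j : ℕ}
    (h : Captured f (f^[j] w)) : Captured f w := by
  obtain ⟨z, n, hn, hz, ha, m, hm⟩ := h
  refine ⟨z, n, hn, hz, ha, m + j, ?_⟩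
  apply hm.congr
  intro k
  rw [← Function.iterate_add_apply, add_assoc]

theorem Captured.apply {f : OnePoint ℂ → OnePoint ℂ} {w : OnePoint ℂ} (j : ℕ)
    (h : Captured f w) : Captured f (f^[j] w) := by
  obtain ⟨z, n, hn, hz, ha, m, hm⟩ := h
  refine ⟨z, n, hn, hz, ha, m + (n * j - j), ?_⟩
  have h1 := hm.comp (tendsto_add_atTop_nat j)
  apply h1.congr
  intro k
  simp only [Function.comp_apply]
  rw [← Function.iterate_add_apply]
  congr 1
  have : j ≤ n * j := Nat.le_mul_of_pos_left j hn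
  rw [mul_add]
  omega

end Pool.Agent.H91.Fatou
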