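import Mathlib
import Pool.Agent.H91.Fatou.Chord

/-!
# Charts of the sphere, composition with charts, critical points
-/

set_option autoImplicit false

open Filter Topology Polynomial OnePoint Metric

namespace Pool.Agent.H91.Fatou

open Pool.Agent.H44.Fatou

/-- the chart `t ↦ [α t + β : γ t + δ]` -/
noncomputable def ch (α β γ δ t : ℂ) : OnePoint ℂ := pt (α * t + β) (γ * t + δ)

theorem ch_ne {α β γ δ : ℂ} (h : α * δ - β * γ ≠ 0) (t : ℂ) :
    α * t + β ≠ 0 ∨ γ * t + δ ≠ 0 := by
  by_contra hcon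
  push Not at hcon
  apply h
  have : α * δ - β * γ = α * (γ * t + δ) - γ * (α * t + β) := by ring
  rw [this, hcon.1, hcon.2]; ring

/-- the inversion -/
noncomputable def swap : OnePoint ℂ → OnePoint ℂ := rat 1 X

theorem swap_pt {x y : ℂ} (h : x ≠ 0 ∨ y ≠ 0) : swap (pt x y) = pt y x := by
  unfold swap
  rw [rat_pt h]
  have hd : dg (1 : Polynomial ℂ) X = 1 := by unfold dg; simp
  rw [hd]
  congr 1
  · unfold hom
    simp [coeff_one]
  · unfold hom
    simp [coeff_X]

theorem swap_continuous : Continuous swap := rat_continuous isCoprime_one_left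

theorem swap_swap (z : OnePoint ℂ) : swap (swap z) = z := by
  obtain ⟨p, hp, rfl⟩ := exists_rep z
  rw [swap_pt (ne_of_sphere hp), swap_pt (ne_of_sphere hp).symm]

/-- the inversion as a homeomorphism -/
noncomputable def swapH : OnePoint ℂ ≃ₜ OnePoint ℂ where
  toFun := swap
  invFun := swap
  left_inv := swap_swap
  right_inv := swap_swap
  continuous_toFun := swap_continuous
  continuous_invFun := swap_continuous

theorem exists_chart (z : OnePoint ℂ) : ∃ α β γ δ : ℂ, α * δ - β * γ ≠ 0 ∧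
    IsOpenEmbedding (ch α β γ δ) ∧ ch α β γ δ 0 = z := by
  induction z using OnePoint.rec with
  | infty =>
    refine ⟨0, 1, 1, 0, by simp, ?_, ?_⟩
    · have : ch 0 1 1 0 = swapH ∘ ((↑) : ℂ → OnePoint ℂ) := by
        funext t
        show pt (0 * t + 1) (1 * t + 0) = swap (t : OnePoint ℂ)
        have h1 : (t : OnePoint ℂ) = pt t 1 := by
          unfold pt; rw [if_neg one_ne_zero, div_one]
        rw [h1, swap_pt (Or.inr one_ne_zero)]
        congr 1 <;> ring
      rw [this]
      exact swapH.isOpenEmbedding.comp isOpenEmbedding_coe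
    · unfold ch pt
      simp
  | coe c =>
    refine ⟨1, c, 0, 1, by simp, ?_, ?_⟩
    · have : ch 1 c 0 1 = ((↑) : ℂ → OnePoint ℂ) ∘ (Homeomorph.addRight c) := by
        funext t
        unfold ch pt
        simp
      rw [this]
      exact isOpenEmbedding_coe.comp (Homeomorph.addRight c).isOpenEmbedding
    · unfold ch pt
      simp

/-- composition of the homogenized polynomial with a chart -/
noncomputable def lin (α β γ δ : ℂ) (d : ℕ) (P : Polynomial ℂ) : Polynomial ℂ :=
  ∑ i ∈ Finset.range (d + 1),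
    C (P.coeff i) * ((C α * X + C β) ^ i * (C γ * X + C δ) ^ (d - i))

theorem lin_eval (α β γ δ : ℂ) (d : ℕ) (P : Polynomial ℂ) (t : ℂ) :
    (lin α β γ δ d P).eval t = hom d P (α * t + β) (γ * t + δ) := by
  unfold lin hom
  rw [eval_finsetSum]
  apply Finset.sum_congr rfl
  intro i _
  simp only [eval_mul, eval_C, eval_pow, eval_add, eval_X]
  ring

theorem tendsto_lin {A : Type*} {l : Filter A} (α β γ δ : ℂ) (d : ℕ) {P : A → Polynomial ℂ}
    {P0 : Polynomial ℂ} (hP : ∀ i, Tendsto (fun a => (P a).coeff i) l (𝓝 (P0.coeff i)))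
    {t : A → ℂ} {t0 : ℂ} (ht : Tendsto t l (𝓝 t0)) :
    Tendsto (fun a => (lin α β γ δ d (P a)).eval (t a)) l
      (𝓝 ((lin α β γ δ d P0).eval t0)) := by
  simp only [lin, eval_finsetSum, eval_mul, eval_C]
  apply tendsto_finsetSum
  intro i _
  apply (hP i).mul
  apply Tendsto.mul
  · exact ((((C α * X + C β) ^ i : Polynomial ℂ).continuous).tendsto t0).comp ht
  · exact ((((C γ * X + C δ) ^ (d - i) : Polynomial ℂ).continuous).tendsto t0).comp ht

theorem tendsto_lin_deriv {A : Type*} {l : Filter A} (α β γ δ : ℂ) (d : ℕ)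
    {P : A → Polynomial ℂ}
    {P0 : Polynomial ℂ} (hP : ∀ i, Tendsto (fun a => (P a).coeff i) l (𝓝 (P0.coeff i)))
    {t : A → ℂ} {t0 : ℂ} (ht : Tendsto t l (𝓝 t0)) :
    Tendsto (fun a => (derivative (lin α β γ δ d (P a))).eval (t a)) l
      (𝓝 ((derivative (lin α β γ δ d P0)).eval t0)) := by
  simp only [lin, derivative_sum, derivative_C_mul, eval_finsetSum]
  apply tendsto_finsetSum
  intro i _
  simp only [eval_mul, eval_C]
  apply (hP i).mul
  exact (((derivative ((C α * X + C β) ^ i * (C γ * X + C δ) ^ (d - i)) :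
    Polynomial ℂ).continuous).tendsto t0).comp ht

/-- local injectivity from the Wronskian in a chart -/
theorem injOn_of_wr {α β γ δ : ℂ} (hd : α * δ - β * γ ≠ 0) (ho : IsOpenEmbedding (ch α β γ δ))
    {P Q : Polynomial ℂ} {t : ℂ}
    (hW : (Wr (lin α β γ δ (dg P Q) P) (lin α β γ δ (dg P Q) Q)).eval t ≠ 0) :
    ∃ U ∈ 𝓝 (ch α β γ δ t), Set.InjOn (rat P Q) U := by
  obtain ⟨V, hV, h⟩ := exists_inj_of_wr hW
  refine ⟨ch α β γ δ '' V, ho.isOpenMap.image_mem_nhds hV, ?_⟩
  rintro _ ⟨x, hx, rfl⟩ _ ⟨y, hy, rfl⟩ hxy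
  unfold ch at hxy
  rw [rat_pt (ch_ne hd x), rat_pt (ch_ne hd y)] at hxy
  have h1 := pt_eq hxy
  rw [← lin_eval, ← lin_eval, ← lin_eval, ← lin_eval] at h1
  rw [h x hx y hy h1]

end Pool.Agent.H91.Fatou
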