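import Mathlib
import Pool.Agent.H91.Fatou.Chart

/-!
# Limits of critical points
-/

set_option autoImplicit false

open Filter Topology Polynomial OnePoint Metric

namespace Pool.Agent.H91.Fatou

open Pool.Agent.H44.Fatou

/-- an analytic function with vanishing derivative is not locally injective -/
theorem not_injOn_of_deriv {f : ℂ → ℂ} {z0 : ℂ} (hf : AnalyticAt ℂ f z0) (h0 : deriv f z0 = 0)
    {V : Set ℂ} (hV : V ∈ 𝓝 z0) : ¬ Set.InjOn f V := by
  intro hinj
  have hF : AnalyticAt ℂ (fun z => f z - f z0) z0 := hf.sub analyticAt_const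
  by_cases hz : ∀ᶠ z in 𝓝 z0, f z - f z0 = 0
  · obtain ⟨r, hr, hb⟩ := Metric.eventually_nhds_iff_ball.1 (hz.and hV)
    have h1 : z0 + ((r / 2 : ℝ) : ℂ) ∈ ball z0 r := by
      rw [mem_ball, dist_eq_norm, add_sub_cancel_left, Complex.norm_real, Real.norm_eq_abs,
        abs_of_pos (by positivity)]
      linarith
    have h2 := hb _ h1
    have h3 := hb z0 (mem_ball_self hr)
    have h4 := hinj h2.2 h3.2 (by linear_combination h2.1)
    have h5 : ((r / 2 : ℝ) : ℂ) = 0 := by linear_combination h4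
    have h6 : (r / 2 : ℝ) = 0 := by exact_mod_cast h5
    linarith
  · obtain ⟨n, g, hg, hg0, hfg⟩ := hF.exists_eventuallyEq_pow_smul_nonzero_iff.2 hz
    have hn0 : n ≠ 0 := by
      rintro rfl
      have h1 := hfg.self_of_nhds
      simp only [sub_self, pow_zero, one_smul] at h1
      exact hg0 h1.symm
    have hn1 : n ≠ 1 := by
      rintro rfl
      have h1 : HasDerivAt (fun z => (z - z0) ^ 1 • g z) (g z0) z0 := by
        have h2 := ((hasDerivAt_id z0).sub_const z0).mul hg.differentiableAt.hasDerivAt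
        have h3 : (1 * g z0 + (id z0 - z0) * deriv g z0) = g z0 := by simp
        rw [h3] at h2
        apply h2.congr_of_eventuallyEq
        filter_upwards with z
        simp
      have h2 : HasDerivAt (fun z => f z - f z0) (g z0) z0 := h1.congr_of_eventuallyEq hfg
      have h3 := h2.deriv
      rw [deriv_sub_const] at h3
      rw [h0] at h3
      exact hg0 h3.symm
    set h : ℂ → ℂ := fun z => (g z / g z0) ^ ((n : ℂ)⁻¹) with hh
    have hgd : AnalyticAt ℂ (fun z => g z / g z0) z0 := hg.div_const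
    have hslit : g z0 / g z0 ∈ Complex.slitPlane := by
      rw [div_self hg0]; exact Complex.one_mem_slitPlane
    have hha : AnalyticAt ℂ h z0 := hgd.cpow analyticAt_const hslit
    have hh0 : h z0 = 1 := by
      rw [hh]; simp only; rw [div_self hg0, Complex.one_cpow]
    have hhn : ∀ z, h z ^ n = g z / g z0 := fun z => Complex.cpow_nat_inv_pow _ hn0
    set φ : ℂ → ℂ := fun z => (z - z0) * h z with hφ
    have hφa : AnalyticAt ℂ φ z0 := (analyticAt_id.sub analyticAt_const).mul hha
    have hφd : deriv φ z0 = 1 := by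
      have h2 := ((hasDerivAt_id z0).sub_const z0).mul hha.differentiableAt.hasDerivAt
      have h3 : (1 * h z0 + (id z0 - z0) * deriv h z0) = 1 := by simp [hh0]
      rw [h3] at h2
      exact h2.deriv
    have hφs : HasStrictDerivAt φ 1 z0 := by
      have := hφa.hasStrictDerivAt
      rwa [hφd] at this
    have hmap := hφs.map_nhds_eq one_ne_zero
    have hφ0 : φ z0 = 0 := by rw [hφ]; simp
    rw [hφ0] at hmap
    have hgood : {z | f z - f z0 = (z - z0) ^ n • g z} ∩ V ∈ 𝓝 z0 := inter_mem hfg hV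
    have himg : φ '' ({z | f z - f z0 = (z - z0) ^ n • g z} ∩ V) ∈ 𝓝 (0 : ℂ) := by
      rw [← hmap]; exact image_mem_map hgood
    obtain ⟨r, hr, hb⟩ := Metric.mem_nhds_iff.1 himg
    have hζ := Complex.isPrimitiveRoot_exp n hn0
    set ζ := Complex.exp (2 * Real.pi * Complex.I / n)
    have hζ1 : ζ ≠ 1 := hζ.ne_one (by omega)
    have hζn : ζ ^ n = 1 := hζ.pow_eq_one
    have hζnorm : ‖ζ‖ = 1 := hζ.norm'_eq_one hn0
    have hu : ‖((r / 2 : ℝ) : ℂ)‖ = r / 2 := by
      rw [Complex.norm_real, Real.norm_eq_abs, abs_of_pos (by positivity)]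
    have hu1 : ((r / 2 : ℝ) : ℂ) ∈ ball (0 : ℂ) r := by
      rw [mem_ball_zero_iff, hu]; linarith
    have hu2 : ζ * ((r / 2 : ℝ) : ℂ) ∈ ball (0 : ℂ) r := by
      rw [mem_ball_zero_iff, norm_mul, hζnorm, hu]; linarith
    obtain ⟨z1, ⟨h1, h1V⟩, h1φ⟩ := hb hu1
    obtain ⟨z2, ⟨h2, h2V⟩, h2φ⟩ := hb hu2
    have key : ∀ z, f z - f z0 = (z - z0) ^ n • g z → f z - f z0 = g z0 * (φ z) ^ n := by
      intro z hz
      rw [hz, hφ]
      simp only
      rw [mul_pow, hhn, smul_eq_mul]
      field_simp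
    have e1 := key z1 h1
    have e2 := key z2 h2
    rw [h1φ] at e1
    rw [h2φ, mul_pow, hζn, one_mul, ← e1] at e2
    have h3 := hinj h2V h1V (by linear_combination e2)
    rw [h3, h1φ] at h2φ
    have h4 : ((r / 2 : ℝ) : ℂ) ≠ 0 := by
      have : (r / 2 : ℝ) ≠ 0 := by positivity
      exact_mod_cast this
    apply hζ1
    have h5 : (ζ - 1) * ((r / 2 : ℝ) : ℂ) = 0 := by linear_combination -h2φ
    rcases mul_eq_zero.1 h5 with h6 | h6
    · linear_combination h6
    · exact absurd h6 h4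

theorem pt_eq_pt {x y x' y' : ℂ} (h : x ≠ 0 ∨ y ≠ 0) (h' : x' ≠ 0 ∨ y' ≠ 0)
    (he : x * y' = x' * y) : pt x y = pt x' y' := by
  apply chord_eq_zero
  rw [chord_pt h h', he, sub_self, norm_zero, zero_div]

theorem not_inj_aux {R S : Polynomial ℂ} {t : ℂ} (hW : (Wr R S).eval t = 0)
    (hS : S.eval t ≠ 0) {V : Set ℂ} (hV : V ∈ 𝓝 t)
    (h : ∀ x ∈ V, ∀ y ∈ V, R.eval x * S.eval y = R.eval y * S.eval x → x = y) : False := by
  have hR : AnalyticAt ℂ (fun z => R.eval z) t := by
    have := AnalyticOnNhd.eval_polynomial (𝕜 := ℂ) (A := ℂ) R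
    exact this t (Set.mem_univ _)
  have hSa : AnalyticAt ℂ (fun z => S.eval z) t := by
    have := AnalyticOnNhd.eval_polynomial (𝕜 := ℂ) (A := ℂ) S
    exact this t (Set.mem_univ _)
  have hf : AnalyticAt ℂ (fun z => R.eval z / S.eval z) t := hR.div hSa hS
  have hd : deriv (fun z => R.eval z / S.eval z) t = 0 := by
    have h1 := (R.hasDerivAt t).div (S.hasDerivAt t) hS
    have h2 := h1.deriv
    have h3 : deriv (fun z => R.eval z / S.eval z) t =
        (eval t (derivative R) * eval t S - eval t R * eval t (derivative S)) / eval t S ^ 2 := h2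
    rw [h3]
    have h4 : eval t (derivative R) * eval t S - eval t R * eval t (derivative S) = 0 := by
      have : (Wr R S).eval t = eval t (derivative R) * eval t S
        - eval t R * eval t (derivative S) := by
        unfold Wr; rw [eval_sub, eval_mul, eval_mul]
      rw [← this]; exact hW
    rw [h4, zero_div]
  have hV2 : V ∩ {z | S.eval z ≠ 0} ∈ 𝓝 t :=
    inter_mem hV ((S.continuous.tendsto t).eventually_ne hS)
  apply not_injOn_of_deriv hf hd hV2
  intro x hx y hy hxy
  have hx2 : S.eval x ≠ 0 := hx.2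
  have hy2 : S.eval y ≠ 0 := hy.2
  simp only at hxy
  rw [div_eq_div_iff hx2 hy2] at hxy
  exact h x hx.1 y hy.1 hxy

theorem not_inj_of_wr {R S : Polynomial ℂ} {t : ℂ} (hW : (Wr R S).eval t = 0)
    (hRS : R.eval t ≠ 0 ∨ S.eval t ≠ 0) {V : Set ℂ} (hV : V ∈ 𝓝 t)
    (h : ∀ x ∈ V, ∀ y ∈ V, R.eval x * S.eval y = R.eval y * S.eval x → x = y) : False := by
  rcases hRS with h1 | h1
  · have hW' : (Wr S R).eval t = 0 := by
      have : Wr S R = - Wr R S := by unfold Wr; ring
      rw [this, eval_neg, hW, neg_zero]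
    exact not_inj_aux hW' h1 hV (fun x hx y hy hxy => h x hx y hy (by linear_combination -hxy))
  · exact not_inj_aux hW h1 hV h

theorem crit_of_wr {α β γ δ : ℂ} (hd : α * δ - β * γ ≠ 0) (ho : IsOpenEmbedding (ch α β γ δ))
    {P Q : Polynomial ℂ} (hc : IsCoprime P Q) {t : ℂ}
    (hW : (Wr (lin α β γ δ (dg P Q) P) (lin α β γ δ (dg P Q) Q)).eval t = 0) :
    ¬ ∃ U ∈ 𝓝 (ch α β γ δ t), Set.InjOn (rat P Q) U := by
  rintro ⟨U, hU, hinj⟩
  have hV : ch α β γ δ ⁻¹' U ∈ 𝓝 t := ho.continuous.continuousAt hU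
  refine not_inj_of_wr hW ?_ hV ?_
  · rw [lin_eval, lin_eval]
    exact hom_ne hc (ch_ne hd t)
  · intro x hx y hy hxy
    apply ho.injective
    apply hinj hx hy
    unfold ch
    rw [rat_pt (ch_ne hd x), rat_pt (ch_ne hd y)]
    apply pt_eq_pt (hom_ne hc (ch_ne hd x)) (hom_ne hc (ch_ne hd y))
    rw [← lin_eval, ← lin_eval, ← lin_eval, ← lin_eval]
    exact hxy

theorem lin_mul {e k : ℕ} {P H : Polynomial ℂ} (hP : P.natDegree ≤ e) (hH : H.natDegree ≤ k)
    (α β γ δ : ℂ) : lin α β γ δ (e + k) (P * H) = lin α β γ δ e P * lin α β γ δ k H := by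
  apply Polynomial.funext
  intro t
  rw [eval_mul, lin_eval, lin_eval, lin_eval, hom_mul hP hH]

theorem wr_mul (p q η : Polynomial ℂ) : Wr (p * η) (q * η) = Wr p q * η ^ 2 := by
  unfold Wr
  rw [derivative_mul, derivative_mul]
  ring

/-- limits of critical points off the holes are critical points of the limit -/
theorem Lim.crit {A' : Type*} {U : Ultrafilter A'} {P Q H : Polynomial ℂ}
    {A B : A' → Polynomial ℂ} (L : Lim U P Q H A B) {c : A' → OnePoint ℂ} {c0 : OnePoint ℂ}
    (h : Tendsto c U (𝓝 c0)) (hg : Good H c0)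
    (hc : ∀ a, ¬ ∃ V ∈ 𝓝 (c a), Set.InjOn (rat (A a) (B a)) V) :
    ¬ ∃ V ∈ 𝓝 c0, Set.InjOn (rat P Q) V := by
  obtain ⟨α, β, γ, δ, hd, ho, h0⟩ := exists_chart c0
  have hne : ∀ᶠ a in (U : Filter A'), c a ∈ Set.range (ch α β γ δ) := by
    apply h
    apply ho.isOpen_range.mem_nhds
    rw [← h0]
    exact Set.mem_range_self 0
  have hex : ∀ a, ∃ t : ℂ, c a ∈ Set.range (ch α β γ δ) → ch α β γ δ t = c a := by
    intro a
    by_cases h1 : c a ∈ Set.range (ch α β γ δ)
    · obtain ⟨t, ht⟩ := h1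
      exact ⟨t, fun _ => ht⟩
    · exact ⟨0, fun h2 => absurd h2 h1⟩
  choose t ht using hex
  have ht' : ∀ᶠ a in (U : Filter A'), ch α β γ δ (t a) = c a := by
    filter_upwards [hne] with a ha
    exact ht a ha
  have hlim : Tendsto t U (𝓝 0) := by
    rw [ho.isEmbedding.tendsto_nhds_iff, h0]
    exact h.congr' (by
      filter_upwards [ht'] with a ha
      exact ha.symm)
  have e1 := tendsto_lin α β γ δ (dg P Q + H.natDegree) L.limA hlim
  have e2 := tendsto_lin α β γ δ (dg P Q + H.natDegree) L.limB hlim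
  have e3 := tendsto_lin_deriv α β γ δ (dg P Q + H.natDegree) L.limA hlim
  have e4 := tendsto_lin_deriv α β γ δ (dg P Q + H.natDegree) L.limB hlim
  have e5 := (e3.mul e2).sub (e1.mul e4)
  have e6 : (Wr (lin α β γ δ (dg P Q + H.natDegree) (P * H))
      (lin α β γ δ (dg P Q + H.natDegree) (Q * H))).eval 0 = 0 := by
    unfold Wr
    rw [eval_sub, eval_mul, eval_mul]
    apply tendsto_nhds_unique e5
    apply tendsto_const_nhds.congr'
    filter_upwards [ht'] with a ha
    have h1 : (Wr (lin α β γ δ (dg (A a) (B a)) (A a)) (lin α β γ δ (dg (A a) (B a)) (B a))).eval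
        (t a) = 0 := by
      by_contra hcon
      have := injOn_of_wr hd ho hcon
      rw [ha] at this
      exact hc a this
    rw [L.dgA a] at h1
    unfold Wr at h1
    rw [eval_sub, eval_mul, eval_mul] at h1
    exact h1.symm
  rw [lin_mul (le_dgP P Q) le_rfl, lin_mul (le_dgQ P Q) le_rfl, wr_mul, eval_mul, eval_pow] at e6
  have h2 : (lin α β γ δ H.natDegree H).eval 0 ≠ 0 := by
    rw [lin_eval]
    apply Good.hom_ne L.H0 (ch_ne hd 0)
    have : pt (α * 0 + β) (γ * 0 + δ) = c0 := h0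
    rw [this]
    exact hg
  have h3 : (Wr (lin α β γ δ (dg P Q) P) (lin α β γ δ (dg P Q) Q)).eval 0 = 0 := by
    rcases mul_eq_zero.1 e6 with h4 | h4
    · exact h4
    · exact absurd h4 (pow_ne_zero _ h2)
  have h4 := crit_of_wr hd ho L.cop h3
  rwa [h0] at h4

theorem lin_id {d : ℕ} {P : Polynomial ℂ} (h : P.natDegree ≤ d) : lin 1 0 0 1 d P = P := by
  apply Polynomial.funext
  intro t
  rw [lin_eval]
  have : hom d P (1 * t + 0) (0 * t + 1) = hom d P t 1 := by congr 1 <;> ring
  rw [this, hom_one h]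

/-- critical values at a simple hole -/
theorem Lim.crit_hole {A' : Type*} {U : Ultrafilter A'} {P Q H : Polynomial ℂ}
    {A B : A' → Polynomial ℂ} (L : Lim U P Q H A B) {c : A' → OnePoint ℂ} {h : ℂ}
    (hlim : Tendsto c U (𝓝 (h : OnePoint ℂ))) (hH : H.eval h = 0)
    (hH' : (derivative H).eval h ≠ 0)
    (hc : ∀ a, ¬ ∃ V ∈ 𝓝 (c a), Set.InjOn (rat (A a) (B a)) V) :
    Tendsto (fun a => rat (A a) (B a) (c a)) U (𝓝 (rat P Q h)) := by
  have ho : IsOpenEmbedding ((↑) : ℂ → OnePoint ℂ) := isOpenEmbedding_coe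
  have hne : ∀ᶠ a in (U : Filter A'), c a ∈ Set.range ((↑) : ℂ → OnePoint ℂ) :=
    hlim (ho.isOpen_range.mem_nhds (Set.mem_range_self h))
  have hex : ∀ a, ∃ t : ℂ, c a ∈ Set.range ((↑) : ℂ → OnePoint ℂ) → (t : OnePoint ℂ) = c a := by
    intro a
    by_cases h1 : c a ∈ Set.range ((↑) : ℂ → OnePoint ℂ)
    · obtain ⟨t, ht⟩ := h1
      exact ⟨t, fun _ => ht⟩
    · exact ⟨0, fun h2 => absurd h2 h1⟩
  choose w hw using hex
  have hw' : ∀ᶠ a in (U : Filter A'), (w a : OnePoint ℂ) = c a := by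
    filter_upwards [hne] with a ha
    exact hw a ha
  have hwlim : Tendsto w U (𝓝 h) := by
    rw [ho.isEmbedding.tendsto_nhds_iff]
    exact hlim.congr' (by
      filter_upwards [hw'] with a ha
      exact ha.symm)
  -- representatives of the critical values
  obtain ⟨z0, hz0⟩ : ∃ z0, Tendsto (fun a => rat (A a) (B a) (c a)) U (𝓝 z0) :=
    ⟨_, (U.map (fun a => rat (A a) (B a) (c a))).le_nhds_lim⟩
  obtain ⟨p, p0, hp, hz, hp0, hpz, hplim⟩ := rep_tendsto U hz0
  have h1 : Tendsto (fun a => (p a).1) U (𝓝 p0.1) := (continuous_fst.tendsto _).comp hplim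
  have h2 : Tendsto (fun a => (p a).2) U (𝓝 p0.2) := (continuous_snd.tendsto _).comp hplim
  have e3 := tendsto_lin_deriv 1 0 0 1 (dg P Q + H.natDegree) L.limA hwlim
  have e4 := tendsto_lin_deriv 1 0 0 1 (dg P Q + H.natDegree) L.limB hwlim
  have e5 := (h2.mul e3).sub (h1.mul e4)
  have e6 : p0.2 * (derivative (P * H)).eval h - p0.1 * (derivative (Q * H)).eval h = 0 := by
    rw [lin_id (natDegree_mul_le.trans (add_le_add (le_dgP P Q) le_rfl)),
      lin_id (natDegree_mul_le.trans (add_le_add (le_dgQ P Q) le_rfl))] at e5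
    apply tendsto_nhds_unique e5
    apply tendsto_const_nhds.congr'
    filter_upwards [hw'] with a ha
    have hdA : (A a).natDegree ≤ dg P Q + H.natDegree := by
      rw [← L.dgA a]; exact le_dgP _ _
    have hdB : (B a).natDegree ≤ dg P Q + H.natDegree := by
      rw [← L.dgA a]; exact le_dgQ _ _
    rw [lin_id hdA, lin_id hdB]
    have hca := hc a
    rw [← ha] at hca
    have hW := crit_coe hca
    unfold Wr at hW
    rw [eval_sub, eval_mul, eval_mul] at hW
    have hcr : (p a).1 * (B a).eval (w a) = (A a).eval (w a) * (p a).2 := by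
      apply pt_eq
      rw [hz a, ← ha, rat_coe]
    rcases coprime_eval (L.copA a) (w a) with h3 | h3
    · have h4 : (A a).eval (w a) * ((p a).2 * (derivative (A a)).eval (w a) -
          (p a).1 * (derivative (B a)).eval (w a)) = 0 := by
        linear_combination (p a).1 * hW - (derivative (A a)).eval (w a) * hcr
      rcases mul_eq_zero.1 h4 with h5 | h5
      · exact absurd h5 h3
      · exact h5.symm
    · have h4 : (B a).eval (w a) * ((p a).2 * (derivative (A a)).eval (w a) -
          (p a).1 * (derivative (B a)).eval (w a)) = 0 := by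
        linear_combination (p a).2 * hW - (derivative (B a)).eval (w a) * hcr
      rcases mul_eq_zero.1 h4 with h5 | h5
      · exact absurd h5 h3
      · exact h5.symm
  rw [derivative_mul, derivative_mul, eval_add, eval_mul, eval_mul, eval_add, eval_mul,
    eval_mul, hH] at e6
  have e7 : (derivative H).eval h * (p0.2 * P.eval h - p0.1 * Q.eval h) = 0 := by
    linear_combination e6
  have e8 : p0.2 * P.eval h - p0.1 * Q.eval h = 0 := by
    rcases mul_eq_zero.1 e7 with h5 | h5
    · exact absurd h5 hH'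
    · exact h5
  have e9 : z0 = rat P Q h := by
    rw [← hpz, rat_coe]
    apply pt_eq_pt (ne_of_sphere hp0) (coprime_eval L.cop h)
    linear_combination -e8
  rw [← e9]
  exact hz0

end Pool.Agent.H91.Fatou
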