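import Mathlib
import Pool.Agent.H91.Fatou.Crit

/-!
# Robust traps
-/

set_option autoImplicit false

open Filter Topology Polynomial OnePoint Metric

namespace Pool.Agent.H91.Fatou

open Pool.Agent.H44.Fatou

/-- homogeneous lift -/
noncomputable def lift (P Q : Polynomial ℂ) (p : ℂ × ℂ) : ℂ × ℂ :=
  (hom (dg P Q) P p.1 p.2, hom (dg P Q) Q p.1 p.2)

theorem lift_diff (P Q : Polynomial ℂ) : Differentiable ℂ (lift P Q) := by
  unfold lift hom
  fun_prop

theorem lift_iterate {P Q : Polynomial ℂ} (hc : IsCoprime P Q) (m : ℕ) {p : ℂ × ℂ}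
    (h : p.1 ≠ 0 ∨ p.2 ≠ 0) :
    (((lift P Q)^[m] p).1 ≠ 0 ∨ ((lift P Q)^[m] p).2 ≠ 0) ∧
      (rat P Q)^[m] (pt p.1 p.2) = pt ((lift P Q)^[m] p).1 ((lift P Q)^[m] p).2 := by
  induction m with
  | zero => exact ⟨h, rfl⟩
  | succ m ih =>
    rw [Function.iterate_succ_apply', Function.iterate_succ_apply', ih.2, rat_pt ih.1]
    exact ⟨hom_ne hc ih.1, rfl⟩

theorem chord_ch {α β γ δ : ℂ} (hd : α * δ - β * γ ≠ 0) (s y : ℂ) :
    chord (ch α β γ δ s) (ch α β γ δ y) = ‖α * δ - β * γ‖ * ‖s - y‖ /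
      (nn (α * s + β) (γ * s + δ) * nn (α * y + β) (γ * y + δ)) := by
  unfold ch
  rw [chord_pt (ch_ne hd s) (ch_ne hd y), ← norm_mul]
  congr 2
  ring

/-- a contraction in a chart gives an attracting periodic point -/
theorem trap_chart {α β γ δ : ℂ} (hd : α * δ - β * γ ≠ 0) (ho : IsOpenEmbedding (ch α β γ δ))
    {A B : Polynomial ℂ} (hc : IsCoprime A B) {N : ℕ} {r : ℝ} (hr : 0 < r)
    (h : ∀ t ∈ closedBall (0 : ℂ) r, (rat A B)^[N] (ch α β γ δ t) ∈
      ch α β γ δ '' ball (0 : ℂ) (r / 4)) :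
    ∃ z' : OnePoint ℂ, (rat A B)^[N] z' = z' ∧ Attracting (rat A B) N z' ∧
      ∀ t ∈ closedBall (0 : ℂ) (r / 2),
        Tendsto (fun k : ℕ => (rat A B)^[N * k] (ch α β γ δ t)) atTop (𝓝 z') := by
  set u : ℂ → ℂ := fun t => ((lift A B)^[N] (α * t + β, γ * t + δ)).1 with hu
  set v : ℂ → ℂ := fun t => ((lift A B)^[N] (α * t + β, γ * t + δ)).2 with hv
  have hdiff : Differentiable ℂ (fun t : ℂ => (lift A B)^[N] (α * t + β, γ * t + δ)) := by
    apply ((lift_diff A B).iterate N).comp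
    fun_prop
  have hud : Differentiable ℂ u := differentiable_fst.comp hdiff
  have hvd : Differentiable ℂ v := differentiable_snd.comp hdiff
  set G : ℂ → ℂ := fun t => (δ * u t - β * v t) / (α * v t - γ * u t) with hG
  have key : ∀ t ∈ closedBall (0 : ℂ) r, α * v t - γ * u t ≠ 0 ∧ G t ∈ ball (0 : ℂ) (r / 4) ∧
      (rat A B)^[N] (ch α β γ δ t) = ch α β γ δ (G t) := by
    intro t ht
    obtain ⟨s, hs, hse⟩ := h t ht
    have h1 := lift_iterate hc N (p := (α * t + β, γ * t + δ)) (ch_ne hd t)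
    have h2 : (rat A B)^[N] (ch α β γ δ t) = pt (u t) (v t) := h1.2
    have h3 : u t ≠ 0 ∨ v t ≠ 0 := h1.1
    rw [h2] at hse
    have h4 : (α * s + β) * v t = u t * (γ * s + δ) := pt_eq hse
    have h5 : α * v t - γ * u t ≠ 0 := by
      intro h6
      have h7 : δ * u t - β * v t = 0 := by linear_combination s * h6 - h4
      have h8 : (α * δ - β * γ) * u t = 0 := by linear_combination α * h7 + β * h6
      have h9 : (α * δ - β * γ) * v t = 0 := by linear_combination γ * h7 + δ * h6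
      rcases h3 with h3 | h3
      · exact (mul_ne_zero hd h3) h8
      · exact (mul_ne_zero hd h3) h9
    have h6 : G t = s := by
      rw [hG]
      simp only
      rw [div_eq_iff h5]
      linear_combination -h4
    refine ⟨h5, ?_, ?_⟩
    · rw [h6]; exact hs
    · rw [h6, h2]; exact hse.symm
  have hGd : ∀ t ∈ closedBall (0 : ℂ) r, DifferentiableAt ℂ G t := by
    intro t ht
    have h1 := (key t ht).1
    exact (((hud t).const_mul δ).sub ((hvd t).const_mul β)).div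
      (((hvd t).const_mul α).sub ((hud t).const_mul γ)) h1
  have hGn : ∀ t ∈ closedBall (0 : ℂ) r, ‖G t‖ ≤ r / 4 := by
    intro t ht
    have := (key t ht).2.1
    rw [mem_ball_zero_iff] at this
    exact this.le
  have hderiv : ∀ t ∈ closedBall (0 : ℂ) (r / 2), ‖deriv G t‖ ≤ 1 / 2 := by
    intro t ht
    have hsub : closedBall t (r / 2) ⊆ closedBall (0 : ℂ) r := by
      intro s hs
      rw [mem_closedBall_zero_iff] at ht ⊢
      rw [mem_closedBall, dist_eq_norm] at hs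
      calc ‖s‖ = ‖(s - t) + t‖ := by ring_nf
        _ ≤ ‖s - t‖ + ‖t‖ := norm_add_le _ _
        _ ≤ r := by linarith
    have h1 : DiffContOnCl ℂ G (ball t (r / 2)) := by
      apply DifferentiableOn.diffContOnCl
      rw [closure_ball _ (by positivity)]
      intro s hs
      exact (hGd s (hsub hs)).differentiableWithinAt
    have h2 := Complex.norm_deriv_le_of_forall_mem_sphere_norm_le (half_pos hr) h1
      (C := r / 4) (fun s hs => hGn s (hsub (sphere_subset_closedBall hs)))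
    have h3 : r / 4 / (r / 2) = 1 / 2 := by field_simp; norm_num
    rwa [h3] at h2
  have hsub2 : closedBall (0 : ℂ) (r / 2) ⊆ closedBall (0 : ℂ) r :=
    closedBall_subset_closedBall (by linarith)
  have hlip : ∀ s ∈ closedBall (0 : ℂ) (r / 2), ∀ t ∈ closedBall (0 : ℂ) (r / 2),
      ‖G s - G t‖ ≤ 1 / 2 * ‖s - t‖ := by
    intro s hs t ht
    exact (convex_closedBall (0 : ℂ) (r / 2)).norm_image_sub_le_of_norm_deriv_le
      (fun x hx => hGd x (hsub2 hx)) hderiv ht hs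
  have hmaps : Set.MapsTo G (closedBall (0 : ℂ) (r / 2)) (closedBall (0 : ℂ) (r / 2)) := by
    intro t ht
    have h1 := hGn t (hsub2 ht)
    rw [mem_closedBall_zero_iff]
    linarith
  have hcontr : ContractingWith ⟨1 / 2, by norm_num⟩ (hmaps.restrict G _ _) := by
    have hhalf : (1 / 2 : ℝ) < 1 := by norm_num
    refine ⟨by exact_mod_cast hhalf, ?_⟩
    apply LipschitzWith.of_dist_le_mul
    intro x y
    rw [Subtype.dist_eq, Subtype.dist_eq, dist_eq_norm, dist_eq_norm]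
    exact hlip x x.2 y y.2
  obtain ⟨y, hy, hfix, -, -⟩ := hcontr.exists_fixedPoint' isClosed_closedBall.isComplete hmaps
    (mem_closedBall_self (half_pos hr).le) (edist_ne_top _ _)
  have hGy : G y = y := hfix
  have hyb : y ∈ ball (0 : ℂ) (r / 4) := by
    have := (key y (hsub2 hy)).2.1
    rwa [hGy] at this
  have hiter : ∀ k : ℕ, ∀ t ∈ closedBall (0 : ℂ) (r / 2),
      (rat A B)^[N * k] (ch α β γ δ t) = ch α β γ δ (G^[k] t) ∧
        G^[k] t ∈ closedBall (0 : ℂ) (r / 2) ∧ ‖G^[k] t - y‖ ≤ (1 / 2) ^ k * ‖t - y‖ := by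
    intro k
    induction k with
    | zero => intro t ht; exact ⟨rfl, ht, by simp⟩
    | succ k ih =>
      intro t ht
      obtain ⟨h1, h2, h3⟩ := ih t ht
      have e1 : (rat A B)^[N * (k + 1)] (ch α β γ δ t)
          = (rat A B)^[N] ((rat A B)^[N * k] (ch α β γ δ t)) := by
        rw [← Function.iterate_add_apply]; congr 1; ring
      refine ⟨?_, ?_, ?_⟩
      · rw [e1, h1, (key _ (hsub2 h2)).2.2, Function.iterate_succ_apply']
      · rw [Function.iterate_succ_apply']; exact hmaps h2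
      · rw [Function.iterate_succ_apply']
        calc ‖G (G^[k] t) - y‖ = ‖G (G^[k] t) - G y‖ := by rw [hGy]
          _ ≤ 1 / 2 * ‖G^[k] t - y‖ := hlip _ h2 _ hy
          _ ≤ 1 / 2 * ((1 / 2) ^ k * ‖t - y‖) := by gcongr
          _ = (1 / 2) ^ (k + 1) * ‖t - y‖ := by ring
  refine ⟨ch α β γ δ y, ?_, ?_, ?_⟩
  · rw [(key y (hsub2 hy)).2.2, hGy]
  · -- attracting
    set n : ℂ → ℝ := fun t => nn (α * t + β) (γ * t + δ) with hn
    have hncont : Continuous n := by
      have : n = (fun p : ℂ × ℂ => nn p.1 p.2) ∘ (fun t : ℂ => (α * t + β, γ * t + δ)) := rfl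
      rw [this]
      apply nn_continuous.comp
      fun_prop
    have hnpos : ∀ t, 0 < n t := fun t => nn_pos (ch_ne hd t)
    have hGc : ContinuousAt G y := (hGd y (hsub2 hy)).continuousAt
    have h1 : Tendsto (fun t => n t - 3 / 2 * n (G t)) (𝓝 y) (𝓝 (n y - 3 / 2 * n y)) := by
      apply (hncont.tendsto y).sub
      apply Tendsto.const_mul
      have : Tendsto (fun t => n (G t)) (𝓝 y) (𝓝 (n (G y))) :=
        (hncont.tendsto (G y)).comp hGc
      rwa [hGy] at this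
    have h2 : ∀ᶠ t in 𝓝 y, n t - 3 / 2 * n (G t) < 0 := by
      apply h1.eventually (gt_mem_nhds _)
      have := hnpos y
      linarith
    have h3 : ∀ᶠ t in 𝓝 y, t ∈ closedBall (0 : ℂ) (r / 2) := by
      have : ball (0 : ℂ) (r / 4) ∈ 𝓝 y := isOpen_ball.mem_nhds hyb
      filter_upwards [this] with t ht
      rw [mem_ball_zero_iff] at ht
      rw [mem_closedBall_zero_iff]
      linarith
    refine ⟨3 / 4, by norm_num, ch α β γ δ '' {t | n t - 3 / 2 * n (G t) < 0 ∧
      t ∈ closedBall (0 : ℂ) (r / 2)}, ho.isOpenMap.image_mem_nhds (h2.and h3), ?_⟩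
    rintro _ ⟨t, ⟨ht1, ht2⟩, rfl⟩
    rw [(key t (hsub2 ht2)).2.2, chord_ch hd, chord_ch hd]
    have h4 := hlip t ht2 y hy
    rw [hGy] at h4
    have p1 := hnpos (G t)
    have p2 := hnpos y
    have p3 := hnpos t
    have h5 : n t < 3 / 2 * n (G t) := by
      have : n t - 3 / 2 * n (G t) < 0 := ht1
      linarith
    show ‖α * δ - β * γ‖ * ‖G t - y‖ / (n (G t) * n y) ≤
      3 / 4 * (‖α * δ - β * γ‖ * ‖t - y‖ / (n t * n y))
    have h6 : 0 ≤ ‖α * δ - β * γ‖ := norm_nonneg _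
    have h7 : 0 ≤ ‖t - y‖ := norm_nonneg _
    rw [← mul_div_assoc, div_le_div_iff₀ (mul_pos p1 p2) (mul_pos p3 p2)]
    calc ‖α * δ - β * γ‖ * ‖G t - y‖ * (n t * n y)
        ≤ ‖α * δ - β * γ‖ * (1 / 2 * ‖t - y‖) * (3 / 2 * n (G t) * n y) := by gcongr
      _ = 3 / 4 * (‖α * δ - β * γ‖ * ‖t - y‖) * (n (G t) * n y) := by ring
  · intro t ht
    have h1 : Tendsto (fun k : ℕ => G^[k] t) atTop (𝓝 y) := by
      rw [tendsto_iff_norm_sub_tendsto_zero]
      apply squeeze_zero (fun k => norm_nonneg _) (fun k => (hiter k t ht).2.2)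
      have := (tendsto_pow_atTop_nhds_zero_of_lt_one (r := (1 / 2 : ℝ)) (by norm_num)
        (by norm_num)).mul_const ‖t - y‖
      rwa [zero_mul] at this
    have h2 := (ho.continuous.tendsto y).comp h1
    apply h2.congr
    intro k
    exact (hiter k t ht).1.symm

theorem isOpen_good {H : Polynomial ℂ} (hH : H ≠ 0) : IsOpen {w | Good H w} := by
  have h1 : {w | Good H w}ᶜ = ((↑) : ℂ → OnePoint ℂ) '' {x | H.eval x = 0} := by
    ext w
    simp only [Set.mem_compl_iff, Set.mem_ofPred_eq, Good, Set.mem_image]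
    push Not
    constructor
    · rintro ⟨x, hx, hx0⟩
      exact ⟨x, hx0, hx.symm⟩
    · rintro ⟨x, hx0, hx⟩
      exact ⟨x, hx.symm, hx0⟩
  have h2 : {x : ℂ | H.eval x = 0}.Finite := by
    have := H.rootSet_finite ℂ
    apply this.subset
    intro x hx
    rw [mem_rootSet]
    exact ⟨hH, by simpa using hx⟩
  rw [← isClosed_compl_iff, h1]
  exact (h2.image _).isClosed

/-- robust traps -/
theorem Lim.trap {A' : Type*} {U : Ultrafilter A'} {P Q H : Polynomial ℂ}
    {A B : A' → Polynomial ℂ} (L : Lim U P Q H A B) {z : OnePoint ℂ} {n : ℕ} (hn : 0 < n)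
    (ha : Attracting (rat P Q) n z)
    (hg : ∀ i, Good H ((rat P Q)^[i] z)) :
    ∃ T : ℕ, 0 < T ∧ ∃ O ∈ 𝓝 z, ∀ᶠ a in (U : Filter A'), ∃ z' : OnePoint ℂ,
      (rat (A a) (B a))^[n * T] z' = z' ∧ Attracting (rat (A a) (B a)) (n * T) z' ∧
      ∀ w ∈ O, Tendsto (fun k : ℕ => (rat (A a) (B a))^[n * T * k] w) atTop (𝓝 z') := by
  set f := rat P Q with hf
  have hfc : Continuous f := rat_continuous L.cop
  obtain ⟨α, β, γ, δ, hd, ho, h0⟩ := exists_chart z
  -- neighbourhood on which the first iterates avoid the holes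
  have hO1 : {w | ∀ i < n, Good H (f^[i] w)} ∈ 𝓝 z := by
    have h1 : ∀ i : Fin n, ∀ᶠ w in 𝓝 z, Good H (f^[(i : ℕ)] w) := by
      intro i
      exact ((hfc.iterate i).tendsto z).eventually ((isOpen_good L.H0).mem_nhds (hg i))
    have h2 := eventually_all.2 h1
    filter_upwards [h2] with w hw i hi
    exact hw ⟨i, hi⟩
  obtain ⟨ε, q, hε, hq0, hq1, hb1, hb2⟩ := ha.trap hO1
  -- radius of the chart disc
  have h1 : ∀ᶠ t in 𝓝 (0 : ℂ), chord (ch α β γ δ t) z < ε := by
    have h2 := (ho.continuous.tendsto 0)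
    rw [h0] at h2
    exact h2.eventually ((isOpen_cball z ε).mem_nhds (by
      show chord z z < ε
      rw [chord_self]; exact hε))
  obtain ⟨r0, hr0, hb⟩ := Metric.eventually_nhds_iff_ball.1 h1
  set r := r0 / 2 with hr
  have hrpos : 0 < r := by positivity
  have hr1 : ∀ t ∈ closedBall (0 : ℂ) r, chord (ch α β γ δ t) z < ε := by
    intro t ht
    apply hb
    rw [mem_closedBall_zero_iff] at ht
    rw [mem_ball_zero_iff]
    linarith
  -- number of steps
  have h3 : ch α β γ δ '' ball (0 : ℂ) (r / 4) ∈ 𝓝 z := by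
    rw [← h0]
    exact ho.isOpenMap.image_mem_nhds (ball_mem_nhds _ (by positivity))
  obtain ⟨ε1, hε1, hb3⟩ := exists_cball h3
  obtain ⟨T0, hT0⟩ := exists_pow_lt_of_lt_one (show 0 < ε1 / ε by positivity) hq1
  set T := T0 + 1 with hT
  have hTq : q ^ T * ε < ε1 := by
    have h4 : q ^ T ≤ q ^ T0 := pow_le_pow_of_le_one hq0 hq1.le (Nat.le_succ T0)
    have h5 : q ^ T < ε1 / ε := lt_of_le_of_lt h4 hT0
    rwa [lt_div_iff₀ hε] at h5
  have hmain : ∀ t ∈ closedBall (0 : ℂ) r, f^[n * T] (ch α β γ δ t) ∈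
      ch α β γ δ '' ball (0 : ℂ) (r / 4) := by
    intro t ht
    apply hb3
    have h4 := (hb2 _ (hr1 t ht) T).1
    have h5 : q ^ T * chord (ch α β γ δ t) z ≤ q ^ T * ε :=
      mul_le_mul_of_nonneg_left (hr1 t ht).le (pow_nonneg hq0 _)
    linarith
  have hgood : ∀ t ∈ closedBall (0 : ℂ) r, ∀ i, Good H (f^[i] (ch α β γ δ t)) := by
    intro t ht i
    have h4 := hb1 _ (hb2 _ (hr1 t ht) (i / n)).2 (i % n) (Nat.mod_lt _ hn)
    rw [← Function.iterate_add_apply, Nat.mod_add_div] at h4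
    exact h4
  refine ⟨T, Nat.succ_pos _, ch α β γ δ '' ball (0 : ℂ) (r / 2), ?_, ?_⟩
  · rw [← h0]
    exact ho.isOpenMap.image_mem_nhds (ball_mem_nhds _ (by positivity))
  have hev : ∀ᶠ a in (U : Filter A'), ∀ t ∈ closedBall (0 : ℂ) r,
      (rat (A a) (B a))^[n * T] (ch α β γ δ t) ∈ ch α β γ δ '' ball (0 : ℂ) (r / 4) := by
    by_contra hcon
    rw [← Ultrafilter.eventually_not] at hcon
    have hex : ∀ a, ∃ t ∈ closedBall (0 : ℂ) r, (¬ ∀ t ∈ closedBall (0 : ℂ) r,
        (rat (A a) (B a))^[n * T] (ch α β γ δ t) ∈ ch α β γ δ '' ball (0 : ℂ) (r / 4)) →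
        (rat (A a) (B a))^[n * T] (ch α β γ δ t) ∉ ch α β γ δ '' ball (0 : ℂ) (r / 4) := by
      intro a
      by_cases h4 : ∀ t ∈ closedBall (0 : ℂ) r,
        (rat (A a) (B a))^[n * T] (ch α β γ δ t) ∈ ch α β γ δ '' ball (0 : ℂ) (r / 4)
      · exact ⟨0, mem_closedBall_self hrpos.le, fun h5 => absurd h4 h5⟩
      · push Not at h4
        obtain ⟨t, ht, h5⟩ := h4
        exact ⟨t, ht, fun _ => h5⟩
    choose t ht1 ht2 using hex
    obtain ⟨t0, ht0, hlim⟩ := (isCompact_closedBall (0 : ℂ) r).ultrafilter_le_nhds (U.map t)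
      (by rw [le_principal_iff]; exact Filter.mem_map.2 (Filter.Eventually.of_forall ht1))
    have hlim' : Tendsto t U (𝓝 t0) := hlim
    have h5 := (ho.continuous.tendsto t0).comp hlim'
    have h6 := L.iterate h5 (n * T) (fun i _ => hgood t0 ht0 i)
    have h7 : ch α β γ δ '' ball (0 : ℂ) (r / 4) ∈ 𝓝 (f^[n * T] (ch α β γ δ t0)) :=
      (ho.isOpenMap _ isOpen_ball).mem_nhds (hmain t0 ht0)
    have h8 := h6.eventually h7
    obtain ⟨a, ha1, ha2⟩ := (h8.and hcon).exists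
    exact ht2 a ha2 ha1
  filter_upwards [hev] with a ha
  obtain ⟨z', hz1, hz2, hz3⟩ := trap_chart hd ho (L.copA a) hrpos ha
  refine ⟨z', hz1, hz2, ?_⟩
  rintro _ ⟨t, ht, rfl⟩
  exact hz3 t (ball_subset_closedBall ht)

end Pool.Agent.H91.Fatou
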