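import Mathlib
import Pool.Agent.H91.Fatou.Robust

/-!
# Neighbourhoods of generic degenerate maps consist of hyperbolic maps
-/

set_option autoImplicit false

open Filter Topology Polynomial OnePoint Metric

namespace Pool.Agent.H91.Fatou

open Pool.Agent.H44.Fatou

/-- `c` is a critical point of `f`: `f` is not injective on any neighbourhood of `c` -/
def Crit (f : OnePoint ℂ → OnePoint ℂ) (c : OnePoint ℂ) : Prop :=
  ¬ ∃ U ∈ 𝓝 c, Set.InjOn f U

/-- the orbit of `c` is captured by an attracting cycle, and the orbit of `f c` and the cycle avoid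
the zeros of `H` -/
def CapGood (f : OnePoint ℂ → OnePoint ℂ) (H : Polynomial ℂ) (c : OnePoint ℂ) : Prop :=
  (∃ (z : OnePoint ℂ) (n : ℕ), 0 < n ∧ Attracting f n z ∧ (∀ i, Good H (f^[i] z)) ∧
    ∃ m : ℕ, Tendsto (fun k : ℕ => f^[n * k + m] c) atTop (𝓝 z)) ∧
  ∀ i, Good H (f^[i + 1] c)

theorem Lim.captured {A' : Type*} {U : Ultrafilter A'} {P Q H : Polynomial ℂ}
    {A B : A' → Polynomial ℂ} (L : Lim U P Q H A B)
    (hsimple : ∀ h : ℂ, H.eval h = 0 → (derivative H).eval h ≠ 0)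
    (hcrit : ∀ c, Crit (rat P Q) c → Good H c → CapGood (rat P Q) H c)
    (hhole : ∀ h : ℂ, H.eval h = 0 → CapGood (rat P Q) H h)
    {c : A' → OnePoint ℂ} (hc : ∀ a, Crit (rat (A a) (B a)) (c a)) :
    ∀ᶠ a in (U : Filter A'), Captured (rat (A a) (B a)) (c a) := by
  obtain ⟨c0, hc0⟩ : ∃ c0, Tendsto c U (𝓝 c0) := ⟨_, (U.map c).le_nhds_lim⟩
  have key : CapGood (rat P Q) H c0 ∧
      Tendsto (fun a => rat (A a) (B a) (c a)) U (𝓝 (rat P Q c0)) := by
    by_cases hg : Good H c0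
    · exact ⟨hcrit c0 (L.crit hc0 hg hc) hg, L.tendsto hc0 hg⟩
    · unfold Good at hg
      push Not at hg
      obtain ⟨h, rfl, hh⟩ := hg
      exact ⟨hhole h hh, L.crit_hole hc0 hh (hsimple h hh) hc⟩
  obtain ⟨⟨⟨z, n, hn, ha, hgz, m, hm⟩, hgc⟩, hlim⟩ := key
  obtain ⟨T, hT, O, hO, hev⟩ := L.trap hn ha hgz
  have hO' := mem_interior_iff_mem_nhds.2 hO
  have h1 := hm.eventually (isOpen_interior.mem_nhds hO')
  obtain ⟨k, hk1, hk2⟩ := (h1.and (eventually_ge_atTop 1)).exists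
  obtain ⟨j, hj⟩ : ∃ j, n * k + m = j + 1 := by
    have : 1 ≤ n * k := Nat.one_le_iff_ne_zero.2 (by
      have := Nat.mul_pos hn hk2
      omega)
    exact ⟨n * k + m - 1, by omega⟩
  have h2 : Tendsto (fun a => (rat (A a) (B a))^[j + 1] (c a)) U
      (𝓝 ((rat P Q)^[j + 1] c0)) := by
    have h3 := L.iterate hlim j (fun i _ => by
      have := hgc i
      rwa [Function.iterate_succ_apply] at this)
    simp only [Function.iterate_succ_apply]
    exact h3
  rw [hj] at hk1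
  have h3 := h2.eventually (isOpen_interior.mem_nhds hk1)
  filter_upwards [h3, hev] with a ha1 ha2
  obtain ⟨z', hz1, hz2, hz3⟩ := ha2
  refine ⟨z', n * T, Nat.mul_pos hn hT, hz1, hz2, j + 1, ?_⟩
  have h4 := hz3 _ (interior_subset ha1)
  apply h4.congr
  intro i
  rw [← Function.iterate_add_apply]

/-- all maps near a generic degenerate map have their critical points captured -/
theorem exists_nbhd {P Q H : Polynomial ℂ} (cop : IsCoprime P Q) (H0 : H ≠ 0)
    (hsimple : ∀ h : ℂ, H.eval h = 0 → (derivative H).eval h ≠ 0)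
    (hcrit : ∀ c, Crit (rat P Q) c → Good H c → CapGood (rat P Q) H c)
    (hhole : ∀ h : ℂ, H.eval h = 0 → CapGood (rat P Q) H h) :
    ∃ ρ : ℝ, 0 < ρ ∧ ∀ P' Q' : Polynomial ℂ, IsCoprime P' Q' →
      dg P' Q' = dg P Q + H.natDegree →
      (∀ i, ‖P'.coeff i - (P * H).coeff i‖ < ρ) → (∀ i, ‖Q'.coeff i - (Q * H).coeff i‖ < ρ) →
      ∀ c, Crit (rat P' Q') c → Captured (rat P' Q') c := by
  by_contra hcon
  push Not at hcon
  have h1 : ∀ j : ℕ, ∃ P' Q' : Polynomial ℂ, IsCoprime P' Q' ∧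
      dg P' Q' = dg P Q + H.natDegree ∧
      (∀ i, ‖P'.coeff i - (P * H).coeff i‖ < 1 / ((j : ℝ) + 1)) ∧
      (∀ i, ‖Q'.coeff i - (Q * H).coeff i‖ < 1 / ((j : ℝ) + 1)) ∧
      ∃ c, Crit (rat P' Q') c ∧ ¬ Captured (rat P' Q') c := by
    intro j
    exact hcon _ (by positivity)
  choose A B h2 h3 h4 h5 c h6 h7 using h1
  set U : Ultrafilter ℕ := hyperfilter ℕ with hU
  have hat : (U : Filter ℕ) ≤ atTop := by
    rw [hU, ← Nat.cofinite_eq_atTop]
    exact hyperfilter_le_cofinite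
  have h8 : Tendsto (fun n : ℕ => 1 / ((n : ℝ) + 1)) U (𝓝 0) :=
    tendsto_one_div_add_atTop_nhds_zero_nat.mono_left hat
  have L : Lim U P Q H A B := by
    refine ⟨cop, H0, h2, h3, ?_, ?_⟩
    · intro i
      rw [tendsto_iff_norm_sub_tendsto_zero]
      exact squeeze_zero (fun _ => norm_nonneg _) (fun j => (h4 j i).le) h8
    · intro i
      rw [tendsto_iff_norm_sub_tendsto_zero]
      exact squeeze_zero (fun _ => norm_nonneg _) (fun j => (h5 j i).le) h8
  obtain ⟨j, hj⟩ := (L.captured hsimple hcrit hhole h6).exists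
  exact h7 j hj

end Pool.Agent.H91.Fatou
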