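import Mathlib
import Pool.Agent.H91.Fatou.Nbhd
import Pool.Agent.H44.Fatou.Gen3

/-!
# Generic zeros of the common factor
-/

set_option autoImplicit false

open Filter Topology Polynomial OnePoint Metric

namespace Pool.Agent.H91.Fatou

open Pool.Agent.H44.Fatou

theorem countable_of_coe {S : Set (OnePoint ℂ)} (h : {x : ℂ | (x : OnePoint ℂ) ∈ S}.Countable) :
    S.Countable := by
  have : S ⊆ {∞} ∪ ((↑) : ℂ → OnePoint ℂ) '' {x : ℂ | (x : OnePoint ℂ) ∈ S} := by
    intro w hw
    induction w using OnePoint.rec with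
    | infty => left; rfl
    | coe x => right; exact ⟨x, hw, rfl⟩
  exact ((Set.countable_singleton _).union (h.image _)).mono this

theorem countable_attr (f : OnePoint ℂ → OnePoint ℂ) :
    {z | ∃ n, 0 < n ∧ f^[n] z = z ∧ Attracting f n z}.Countable := by
  have h1 : ∀ n : ℕ, {z | f^[n] z = z ∧ Attracting f n z}.Countable := by
    intro n
    apply countable_of_coe
    set S := {x : ℂ | (x : OnePoint ℂ) ∈ {z | f^[n] z = z ∧ Attracting f n z}} with hS
    have hdisc : DiscreteTopology S := by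
      rw [discreteTopology_subtype_iff']
      intro x hx
      have hxS := hx
      obtain ⟨hx1, q, hq, V, hV, hVq⟩ : f^[n] (x : OnePoint ℂ) = x ∧ Attracting f n x := hx
      rw [nhds_coe_eq, mem_map] at hV
      obtain ⟨W, hW1, hW2, hW3⟩ := _root_.mem_nhds_iff.1 hV
      refine ⟨W, hW2, ?_⟩
      ext y
      constructor
      · rintro ⟨hy1, hy2⟩
        have hy3 : f^[n] (y : OnePoint ℂ) = y := (show _ ∧ _ from hy2).1
        have h2 := hVq _ (hW1 hy1)
        rw [hy3] at h2
        have h3 := chord_nonneg (y : OnePoint ℂ) x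
        have h4 : chord (y : OnePoint ℂ) x = 0 := by nlinarith
        have h5 := chord_eq_zero h4
        rw [coe_eq_coe] at h5
        exact h5
      · rintro rfl
        exact ⟨hW3, hxS⟩
    have : Countable S := by
      rw [← TopologicalSpace.separableSpace_iff_countable]
      infer_instance
    exact Set.countable_coe_iff.1 this
  have h2 : {z | ∃ n, 0 < n ∧ f^[n] z = z ∧ Attracting f n z} ⊆
      ⋃ n : ℕ, {z | f^[n] z = z ∧ Attracting f n z} := by
    rintro z ⟨n, -, hz⟩
    exact Set.mem_iUnion.2 ⟨n, hz⟩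
  exact (Set.countable_iUnion h1).mono h2

theorem finite_roots {W : Polynomial ℂ} (hW : W ≠ 0) : {x : ℂ | W.eval x = 0}.Finite := by
  have := W.rootSet_finite ℂ
  apply this.subset
  intro x hx
  rw [mem_rootSet]
  exact ⟨hW, by simpa using hx⟩

theorem deriv_zero_of_wr {P Q : Polynomial ℂ} (hc : IsCoprime P Q) (hW : Wr P Q = 0) :
    P.natDegree = 0 := by
  by_contra h0
  have hP : P ≠ 0 := by
    rintro rfl
    simp at h0
  have h1 : P ∣ derivative P * Q := by
    unfold Wr at hW
    rw [sub_eq_zero.1 hW]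
    exact dvd_mul_right _ _
  have h2 : P ∣ derivative P := hc.dvd_of_dvd_mul_right h1
  have h3 : derivative P ≠ 0 := by
    intro h3
    exact h0 (derivative_eq_zero.1 h3)
  have h4 := natDegree_le_of_dvd h2 h3
  have h5 := natDegree_derivative_lt h0
  omega

theorem wr_ne_zero {P Q : Polynomial ℂ} (hc : IsCoprime P Q) (he : 0 < dg P Q) : Wr P Q ≠ 0 := by
  intro hW
  have h1 := deriv_zero_of_wr hc hW
  have h2 : Wr Q P = 0 := by
    have : Wr Q P = - Wr P Q := by unfold Wr; ring
    rw [this, hW, neg_zero]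
  have h3 := deriv_zero_of_wr hc.symm h2
  unfold dg at he
  rw [h1, h3] at he
  simp at he

theorem countable_crit {P Q : Polynomial ℂ} (hc : IsCoprime P Q) (he : 0 < dg P Q) :
    {c | Crit (rat P Q) c}.Countable := by
  apply countable_of_coe
  apply ((finite_roots (wr_ne_zero hc he)).subset _).countable
  intro x hx
  exact crit_coe hx

theorem unit_of_prop {P Q : Polynomial ℂ} (hc : IsCoprime P Q) {x y : ℂ} (hy : y ≠ 0)
    (h : C y * P = C x * Q) : dg P Q = 0 := by
  have h1 : P = C (x / y) * Q := by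
    have h2 : C y⁻¹ * (C y * P) = C y⁻¹ * (C x * Q) := by rw [h]
    rw [← mul_assoc, ← mul_assoc, ← C_mul, ← C_mul, inv_mul_cancel₀ hy, C_1, one_mul] at h2
    rw [h2]
    congr 2
    field_simp
  have h2 : IsUnit Q := by
    apply hc.isUnit_of_dvd' _ dvd_rfl
    rw [h1]
    exact dvd_mul_left _ _
  have h3 : Q.natDegree = 0 := natDegree_eq_zero_of_isUnit h2
  have h4 : P.natDegree = 0 := by
    rw [h1]
    have := natDegree_C_mul_le (x / y) Q
    omega
  unfold dg
  rw [h3, h4]
  rfl

theorem countable_fib1 {P Q : Polynomial ℂ} (hc : IsCoprime P Q) (he : 0 < dg P Q)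
    (z : OnePoint ℂ) : {w | rat P Q w = z}.Countable := by
  apply countable_of_coe
  obtain ⟨p, hp, rfl⟩ := exists_rep z
  have hne : C p.2 * P - C p.1 * Q ≠ 0 := by
    intro h0
    have h1 : C p.2 * P = C p.1 * Q := sub_eq_zero.1 h0
    rcases ne_of_sphere hp with h | h
    · have := unit_of_prop hc.symm h h1.symm
      unfold dg at this he
      rw [max_comm] at this
      omega
    · have := unit_of_prop hc h h1
      omega
  apply ((finite_roots hne).subset _).countable
  intro x hx
  have hx' : pt (P.eval x) (Q.eval x) = pt p.1 p.2 := hx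
  have h1 := pt_eq hx'
  show (C p.2 * P - C p.1 * Q).eval x = 0
  rw [eval_sub, eval_mul, eval_mul, eval_C, eval_C]
  linear_combination h1

theorem countable_fib {P Q : Polynomial ℂ} (hc : IsCoprime P Q) (he : 0 < dg P Q) (i : ℕ) :
    ∀ z : OnePoint ℂ, {w | (rat P Q)^[i] w = z}.Countable := by
  induction i with
  | zero =>
    intro z
    apply (Set.countable_singleton z).mono
    intro w hw
    exact hw
  | succ i ih =>
    intro z
    have h1 : {w | (rat P Q)^[i + 1] w = z} ⊆
        ⋃ u ∈ {u | (rat P Q)^[i] u = z}, {w | rat P Q w = u} := by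
      intro w hw
      simp only [Set.mem_iUnion]
      refine ⟨rat P Q w, ?_, rfl⟩
      have hw' : (rat P Q)^[i + 1] w = z := hw
      rwa [Function.iterate_succ_apply] at hw'
    exact ((ih z).biUnion fun u _ => countable_fib1 hc he u).mono h1

theorem rat_const {P Q : Polynomial ℂ} (he : dg P Q = 0) (z w : OnePoint ℂ) :
    rat P Q z = rat P Q w := by
  have hP : P.natDegree = 0 := by
    have := le_dgP P Q
    omega
  have hQ : Q.natDegree = 0 := by
    have := le_dgQ P Q
    omega
  have key : ∀ z : OnePoint ℂ, rat P Q z = pt (P.coeff 0) (Q.coeff 0) := by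
    intro z
    induction z using OnePoint.rec with
    | infty => rw [rat_infty, he]
    | coe z =>
      rw [rat_coe, eq_C_of_natDegree_eq_zero hP, eq_C_of_natDegree_eq_zero hQ]
      simp
  rw [key z, key w]

theorem crit_const {P Q : Polynomial ℂ} (he : dg P Q = 0) : Crit (rat P Q) ((0 : ℂ) : OnePoint ℂ) := by
  rintro ⟨U, hU, hinj⟩
  rw [nhds_coe_eq, mem_map] at hU
  obtain ⟨r, hr, hb⟩ := Metric.mem_nhds_iff.1 hU
  have h1 : ((r / 2 : ℝ) : ℂ) ∈ ball (0 : ℂ) r := by
    rw [mem_ball_zero_iff, Complex.norm_real, Real.norm_eq_abs, abs_of_pos (by positivity)]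
    linarith
  have h2 := hinj (hb h1) (hb (mem_ball_self hr)) (rat_const he _ _)
  rw [coe_eq_coe] at h2
  have h3 : (r / 2 : ℝ) = 0 := by exact_mod_cast h2
  linarith

/-- choice of generic zeros -/
theorem exists_generic {P Q : Polynomial ℂ} (hc : IsCoprime P Q)
    (hyp : ∀ c, Crit (rat P Q) c → Captured (rat P Q) c) {k : ℕ} (h : Fin k → ℂ)
    (hcl : ∀ i, (h i : OnePoint ℂ) ∈ closure {w | Captured (rat P Q) w}) {l : ℂ} (hl : l ≠ 0)
    {ε : ℝ} (hε : 0 < ε) : ∃ h' : Fin k → ℂ, (∀ i, ‖h' i - h i‖ < ε) ∧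
      (∀ x : ℂ, (C l * ∏ i, (X - C (h' i))).eval x = 0 →
        (derivative (C l * ∏ i, (X - C (h' i)))).eval x ≠ 0) ∧
      (∀ c, Crit (rat P Q) c → CapGood (rat P Q) (C l * ∏ i, (X - C (h' i))) c) ∧
      (∀ x : ℂ, (C l * ∏ i, (X - C (h' i))).eval x = 0 →
        CapGood (rat P Q) (C l * ∏ i, (X - C (h' i))) x) := by
  set f := rat P Q with hf
  have hfc : Continuous f := rat_continuous hc
  -- first move into the basin
  have h1 : ∀ i, ∃ g : ℂ, ‖g - h i‖ < ε / 2 ∧ Captured f g := by
    intro i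
    have h2 : ((↑) : ℂ → OnePoint ℂ) '' ball (h i) (ε / 2) ∈ 𝓝 ((h i : ℂ) : OnePoint ℂ) :=
      isOpenEmbedding_coe.isOpenMap.image_mem_nhds (ball_mem_nhds _ (half_pos hε))
    obtain ⟨_, ⟨g, hg, rfl⟩, hg2⟩ := mem_closure_iff_nhds.1 (hcl i) _ h2
    refine ⟨g, ?_, hg2⟩
    rwa [mem_ball, dist_eq_norm] at hg
  choose g hg1 hg2 using h1
  have hopen : IsOpen {p : Fin k → ℂ | ∀ i, Captured f (p i)} := by
    have : {p : Fin k → ℂ | ∀ i, Captured f (p i)} =
        ⋂ i, (fun p : Fin k → ℂ => ((p i : ℂ) : OnePoint ℂ)) ⁻¹' {w | Captured f w} := by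
      ext p; simp
    rw [this]
    apply isOpen_iInter_of_finite
    intro i
    apply (isOpen_captured hfc).preimage
    exact continuous_coe.comp (continuous_apply i)
  obtain ⟨ε', hε', hball⟩ := Metric.isOpen_iff.1 hopen g hg2
  -- the sets to avoid
  set B1 : Set (OnePoint ℂ) := ⋃ i : ℕ, (f^[i]) '' {z | ∃ n, 0 < n ∧ f^[n] z = z ∧ Attracting f n z}
    with hB1
  set B2 : Set (OnePoint ℂ) := ⋃ i : ℕ, (f^[i + 1]) '' {c | Crit f c} with hB2
  have hB1c : B1.Countable := Set.countable_iUnion fun i => (countable_attr f).image _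
  have hB2c : B2.Countable := by
    rcases Nat.eq_zero_or_pos (dg P Q) with he | he
    · apply (Set.countable_singleton (f ((0 : ℂ) : OnePoint ℂ))).mono
      intro w hw
      obtain ⟨i, hi⟩ := Set.mem_iUnion.1 hw
      obtain ⟨c, -, rfl⟩ := hi
      show f^[i + 1] c = f ((0 : ℂ) : OnePoint ℂ)
      rw [Function.iterate_succ_apply']
      exact rat_const he _ _
    · exact Set.countable_iUnion fun i => (countable_crit hc he).image _
  have hpre : ∀ S : Set (OnePoint ℂ), S.Countable → {x : ℂ | (x : OnePoint ℂ) ∈ S}.Countable :=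
    fun S hS => hS.preimage coe_injective
  set B : Set ℂ := {x : ℂ | (x : OnePoint ℂ) ∈ B1 ∪ B2} with hB
  have hBc : B.Countable := hpre _ (hB1c.union hB2c)
  set R : ℂ → ℂ → Prop := fun z w => z = w ∨ (z ∉ B ∧ w ∉ B ∧
    ((∃ i : ℕ, f^[i + 1] (z : OnePoint ℂ) = w) ∨ (∃ i : ℕ, f^[i + 1] (w : OnePoint ℂ) = z)))
    with hR
  have hRc : ∀ z, {w | R z w}.Countable := by
    intro z
    by_cases hz : z ∈ B
    · apply (Set.countable_singleton z).mono
      rintro w (hw | hw)
      · exact hw.symm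
      · exact absurd hz hw.1
    have h2 : {w | R z w} ⊆ {z} ∪ ({w : ℂ | (w : OnePoint ℂ) ∈ ⋃ i : ℕ, {f^[i + 1] (z : OnePoint ℂ)}} ∪
        {w : ℂ | (w : OnePoint ℂ) ∈ ⋃ i : ℕ, {u | f^[i + 1] u = (z : OnePoint ℂ)}}) := by
      rintro w (hw | ⟨-, -, ⟨i, hi⟩ | ⟨i, hi⟩⟩)
      · left; exact hw.symm
      · right; left
        exact Set.mem_iUnion.2 ⟨i, hi.symm⟩
      · right; right
        exact Set.mem_iUnion.2 ⟨i, hi⟩
    refine Set.Countable.mono h2 ((Set.countable_singleton _).union (Set.Countable.union ?_ ?_))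
    · exact hpre _ (Set.countable_iUnion fun i => Set.countable_singleton _)
    · apply hpre
      apply Set.countable_iUnion
      intro i
      rcases Nat.eq_zero_or_pos (dg P Q) with he | he
      · have : {u | f^[i + 1] u = (z : OnePoint ℂ)} = ∅ := by
          rw [Set.eq_empty_iff_forall_notMem]
          intro u hu
          apply hz
          right
          refine Set.mem_iUnion.2 ⟨0, ((0 : ℂ) : OnePoint ℂ), crit_const he, ?_⟩
          have hu' : f^[i + 1] u = (z : OnePoint ℂ) := hu
          rw [Function.iterate_succ_apply'] at hu'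
          rw [← hu']
          show f ((0 : ℂ) : OnePoint ℂ) = f (f^[i] u)
          exact rat_const he _ _
        rw [this]
        exact Set.countable_empty
      · exact countable_fib hc he (i + 1) z
  have hRs : ∀ z w, R z w → R w z := by
    rintro z w (hw | ⟨h2, h3, h4 | h4⟩)
    · left; exact hw.symm
    · right; exact ⟨h3, h2, Or.inr h4⟩
    · right; exact ⟨h3, h2, Or.inl h4⟩
  obtain ⟨h', hh1, hh2, hh3⟩ := generic_pts B hBc R hRc hRs k g (min (ε / 2) ε')
    (lt_min (half_pos hε) hε')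
  have hcap : ∀ i, Captured f (h' i) := by
    have h2 : h' ∈ ball g ε' := by
      rw [mem_ball, dist_pi_lt_iff hε']
      intro i
      rw [dist_eq_norm]
      exact lt_of_lt_of_le (hh1 i) (min_le_right _ _)
    exact hball h2
  have hinj : Function.Injective h' := by
    intro i j hij
    by_contra hne
    exact hh3 i j hne (Or.inl hij)
  set H := C l * ∏ i, (X - C (h' i)) with hH
  have hroot : ∀ x, H.eval x = 0 → ∃ i, x = h' i := by
    intro x hx
    rw [hH, eval_mul, eval_C, eval_prod] at hx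
    rcases mul_eq_zero.1 hx with h3 | h3
    · exact absurd h3 hl
    · obtain ⟨i, -, hi⟩ := Finset.prod_eq_zero_iff.1 h3
      refine ⟨i, ?_⟩
      simp only [eval_sub, eval_X, eval_C] at hi
      exact sub_eq_zero.1 hi
  have hgood : ∀ w : OnePoint ℂ, (∀ i, w ≠ (h' i : OnePoint ℂ)) → Good H w := by
    intro w hw x hx h0
    obtain ⟨i, rfl⟩ := hroot x h0
    exact hw i hx
  have hcyc : ∀ (z : OnePoint ℂ) (n : ℕ), 0 < n → f^[n] z = z → Attracting f n z →
      ∀ i, Good H (f^[i] z) := by
    intro z n hn hz ha i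
    apply hgood
    intro j hj
    apply hh2 j
    left
    exact Set.mem_iUnion.2 ⟨i, z, ⟨n, hn, hz, ha⟩, hj⟩
  refine ⟨h', ?_, ?_, ?_, ?_⟩
  · intro i
    calc ‖h' i - h i‖ = ‖(h' i - g i) + (g i - h i)‖ := by ring_nf
      _ ≤ ‖h' i - g i‖ + ‖g i - h i‖ := norm_add_le _ _
      _ < ε := by
        have e1 := hh1 i
        have e2 := hg1 i
        have e3 := min_le_left (ε / 2) ε'
        linarith
  · intro z hz
    have hsep : (∏ i, (X - C (h' i))).Separable := separable_prod_X_sub_C_iff.2 hinj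
    have hz2 : (∏ i, (X - C (h' i))).eval z = 0 := by
      rw [eval_mul, eval_C] at hz
      rcases mul_eq_zero.1 hz with h3 | h3
      · exact absurd h3 hl
      · exact h3
    rw [derivative_C_mul, eval_mul, eval_C]
    apply mul_ne_zero hl
    rcases coprime_eval hsep z with h3 | h3
    · exact absurd hz2 h3
    · exact h3
  · intro c hcr
    obtain ⟨z, n, hn, hz, ha, m, hm⟩ := hyp c hcr
    refine ⟨⟨z, n, hn, ha, hcyc z n hn hz ha, m, hm⟩, ?_⟩
    intro i
    apply hgood
    intro j hj
    apply hh2 j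
    right
    exact Set.mem_iUnion.2 ⟨i, c, hcr, hj⟩
  · intro x hx
    obtain ⟨i, rfl⟩ := hroot x hx
    obtain ⟨z, n, hn, hz, ha, m, hm⟩ := hcap i
    refine ⟨⟨z, n, hn, ha, hcyc z n hn hz ha, m, hm⟩, ?_⟩
    intro s
    apply hgood
    intro j hj
    by_cases hij : i = j
    · subst hij
      -- periodic point
      apply hh2 i
      left
      have hper : ∀ a : ℕ, f^[(s + 1) * a] (h' i : OnePoint ℂ) = h' i := by
        intro a
        induction a with
        | zero => simp
        | succ a ih =>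
          rw [mul_add, mul_one, Function.iterate_add_apply, hj, ih]
      have h2 : Tendsto (fun k : ℕ => f^[n * ((s + 1) * k) + m] (h' i : OnePoint ℂ)) atTop
          (𝓝 z) := by
        have h3 : Tendsto (fun k : ℕ => (s + 1) * k) atTop atTop :=
          tendsto_id.const_mul_atTop' (Nat.succ_pos s)
        exact hm.comp h3
      have h3 : ∀ k : ℕ, f^[n * ((s + 1) * k) + m] (h' i : OnePoint ℂ) = f^[m] (h' i) := by
        intro k
        have e1 : n * ((s + 1) * k) + m = m + (s + 1) * (n * k) := by ring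
        rw [e1, Function.iterate_add_apply, hper]
      simp only [h3] at h2
      have h4 : f^[m] (h' i : OnePoint ℂ) = z := tendsto_nhds_unique tendsto_const_nhds h2
      refine Set.mem_iUnion.2 ⟨s * m, z, ⟨n, hn, hz, ha⟩, ?_⟩
      rw [← h4, ← Function.iterate_add_apply]
      have e1 : s * m + m = (s + 1) * m := by ring
      rw [e1]
      exact hper m
    · apply hh3 i j hij
      right
      exact ⟨hh2 i, hh2 j, Or.inl ⟨s, hj⟩⟩

end Pool.Agent.H91.Fatou
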