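import Mathlib
import Pool.Agent.H91.Fatou.Generic

/-!
# General charts are open embeddings; nonconstant rational maps are open
-/

set_option autoImplicit false

open Filter Topology Polynomial OnePoint Metric

namespace Pool.Agent.H91.Fatou

open Pool.Agent.H44.Fatou

/-- Moebius map -/
noncomputable def mob (α β γ δ : ℂ) : OnePoint ℂ → OnePoint ℂ :=
  rat (C α * X + C β) (C γ * X + C δ)

theorem mob_cop {α β γ δ : ℂ} (hd : α * δ - β * γ ≠ 0) :
    IsCoprime (C α * X + C β : Polynomial ℂ) (C γ * X + C δ) := by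
  refine ⟨C (-γ / (α * δ - β * γ)), C (α / (α * δ - β * γ)), ?_⟩
  have h1 : C (-γ / (α * δ - β * γ)) * (C α * X + C β) +
      C (α / (α * δ - β * γ)) * (C γ * X + C δ) =
      C (-γ / (α * δ - β * γ) * α + α / (α * δ - β * γ) * γ) * X +
        C (-γ / (α * δ - β * γ) * β + α / (α * δ - β * γ) * δ) := by
    simp only [C_add, C_mul]; ring
  rw [h1]
  have h2 : -γ / (α * δ - β * γ) * α + α / (α * δ - β * γ) * γ = 0 := by ring
  have h3 : -γ / (α * δ - β * γ) * β + α / (α * δ - β * γ) * δ = 1 := by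
    rw [div_mul_eq_mul_div, div_mul_eq_mul_div, ← add_div, div_eq_one_iff_eq hd]
    ring
  rw [h2, h3]
  simp

theorem mob_dg {α β γ δ : ℂ} (hd : α * δ - β * γ ≠ 0) :
    dg (C α * X + C β : Polynomial ℂ) (C γ * X + C δ) = 1 := by
  unfold dg
  have h1 : (C α * X + C β : Polynomial ℂ).natDegree ≤ 1 := natDegree_linear_le
  have h2 : (C γ * X + C δ : Polynomial ℂ).natDegree ≤ 1 := natDegree_linear_le
  by_cases hα : α = 0
  · have hγ : γ ≠ 0 := by
      rintro rfl
      apply hd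
      rw [hα]; ring
    have h3 : (C γ * X + C δ : Polynomial ℂ).natDegree = 1 := natDegree_linear hγ
    omega
  · have h3 : (C α * X + C β : Polynomial ℂ).natDegree = 1 := natDegree_linear hα
    omega

theorem hom_linear (α β x y : ℂ) : hom 1 (C α * X + C β) x y = α * x + β * y := by
  unfold hom
  rw [Finset.sum_range_succ, Finset.sum_range_one]
  simp [coeff_C]
  ring

theorem mob_pt {α β γ δ : ℂ} (hd : α * δ - β * γ ≠ 0) {x y : ℂ} (h : x ≠ 0 ∨ y ≠ 0) :
    mob α β γ δ (pt x y) = pt (α * x + β * y) (γ * x + δ * y) := by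
  unfold mob
  rw [rat_pt h, mob_dg hd, hom_linear, hom_linear]

theorem mob_ne {α β γ δ : ℂ} (hd : α * δ - β * γ ≠ 0) {x y : ℂ} (h : x ≠ 0 ∨ y ≠ 0) :
    α * x + β * y ≠ 0 ∨ γ * x + δ * y ≠ 0 := by
  by_contra hcon
  push Not at hcon
  have h1 : (α * δ - β * γ) * x = 0 := by linear_combination δ * hcon.1 - β * hcon.2
  have h2 : (α * δ - β * γ) * y = 0 := by linear_combination α * hcon.2 - γ * hcon.1
  rcases h with h | h
  · exact (mul_ne_zero hd h) h1
  · exact (mul_ne_zero hd h) h2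

theorem mob_mob {α β γ δ : ℂ} (hd : α * δ - β * γ ≠ 0) (z : OnePoint ℂ) :
    mob δ (-β) (-γ) α (mob α β γ δ z) = z := by
  obtain ⟨p, hp, rfl⟩ := exists_rep z
  have hd' : δ * α - -β * -γ ≠ 0 := by
    intro h; apply hd; linear_combination h
  have hne := ne_of_sphere hp
  rw [mob_pt hd hne, mob_pt hd' (mob_ne hd hne)]
  have h1 : δ * (α * p.1 + β * p.2) + -β * (γ * p.1 + δ * p.2) = p.1 * (α * δ - β * γ) := by ring
  have h2 : -γ * (α * p.1 + β * p.2) + α * (γ * p.1 + δ * p.2) = p.2 * (α * δ - β * γ) := by ring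
  rw [h1, h2, pt_smul hd]

/-- Moebius homeomorphism -/
noncomputable def mobH {α β γ δ : ℂ} (hd : α * δ - β * γ ≠ 0) : OnePoint ℂ ≃ₜ OnePoint ℂ where
  toFun := mob α β γ δ
  invFun := mob δ (-β) (-γ) α
  left_inv := mob_mob hd
  right_inv := by
    have hd' : δ * α - -β * -γ ≠ 0 := by
      intro h; apply hd; linear_combination h
    intro z
    have := mob_mob hd' z
    simpa using this
  continuous_toFun := rat_continuous (mob_cop hd)
  continuous_invFun := by
    have hd' : δ * α - -β * -γ ≠ 0 := by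
      intro h; apply hd; linear_combination h
    exact rat_continuous (mob_cop hd')

theorem pt_one (t : ℂ) : pt t 1 = (t : OnePoint ℂ) := by
  unfold pt; rw [if_neg one_ne_zero, div_one]

theorem ch_eq {α β γ δ : ℂ} (hd : α * δ - β * γ ≠ 0) :
    ch α β γ δ = mobH hd ∘ ((↑) : ℂ → OnePoint ℂ) := by
  funext t
  show ch α β γ δ t = mob α β γ δ (t : OnePoint ℂ)
  rw [← pt_one t, mob_pt hd (Or.inr one_ne_zero)]
  unfold ch
  rw [mul_one, mul_one]

theorem ch_open {α β γ δ : ℂ} (hd : α * δ - β * γ ≠ 0) : IsOpenEmbedding (ch α β γ δ) := by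
  rw [ch_eq hd]
  exact (mobH hd).isOpenEmbedding.comp isOpenEmbedding_coe

theorem ch_range {α β γ δ : ℂ} (hd : α * δ - β * γ ≠ 0) :
    Set.range (ch α β γ δ) = {pt α γ}ᶜ := by
  have h1 : mobH hd (∞ : OnePoint ℂ) = pt α γ := by
    have h2 : (∞ : OnePoint ℂ) = pt 1 0 := by unfold pt; rw [if_pos rfl]
    show mob α β γ δ ∞ = _
    rw [h2, mob_pt hd (Or.inl one_ne_zero)]
    congr 1 <;> ring
  rw [ch_eq hd, Set.range_comp]
  ext z
  constructor
  · rintro ⟨_, ⟨t, rfl⟩, rfl⟩ h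
    have h3 : mobH hd (t : OnePoint ℂ) = mobH hd ∞ := by
      rw [h1]; exact h
    exact coe_ne_infty t ((mobH hd).injective h3)
  · intro hz
    obtain ⟨w, rfl⟩ := (mobH hd).surjective z
    induction w using OnePoint.rec with
    | infty => exact absurd h1 hz
    | coe t => exact ⟨_, ⟨t, rfl⟩, rfl⟩

/-- a chart covering everything but a given point -/
theorem exists_chart_infty (z : OnePoint ℂ) : ∃ α β γ δ : ℂ, α * δ - β * γ ≠ 0 ∧
    Set.range (ch α β γ δ) = {z}ᶜ := by
  obtain ⟨p, hp, rfl⟩ := exists_rep z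
  by_cases h : p.1 = 0
  · have h2 : p.2 ≠ 0 := by
      rcases ne_of_sphere hp with h' | h'
      · exact absurd h h'
      · exact h'
    have hd : p.1 * 0 - 1 * p.2 ≠ 0 := by
      rw [mul_zero, zero_sub, one_mul]; exact neg_ne_zero.2 h2
    exact ⟨p.1, 1, p.2, 0, hd, ch_range hd⟩
  · have hd : p.1 * 1 - 0 * p.2 ≠ 0 := by
      rw [mul_one, zero_mul, sub_zero]; exact h
    exact ⟨p.1, 0, p.2, 1, hd, ch_range hd⟩

/-- inverse of a chart -/
theorem pt_eq_ch {α β γ δ : ℂ} (hd : α * δ - β * γ ≠ 0) {u v : ℂ} (h : α * v - γ * u ≠ 0) :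
    pt u v = ch α β γ δ ((δ * u - β * v) / (α * v - γ * u)) := by
  have huv : u ≠ 0 ∨ v ≠ 0 := by
    by_contra hcon
    push Not at hcon
    rw [hcon.1, hcon.2] at h
    simp at h
  unfold ch
  apply pt_eq_pt huv (ch_ne hd _)
  have hs := div_mul_cancel₀ (δ * u - β * v) h
  linear_combination -hs

theorem ne_of_pt_eq_ch {α β γ δ : ℂ} (hd : α * δ - β * γ ≠ 0) {u v s : ℂ} (huv : u ≠ 0 ∨ v ≠ 0)
    (h : pt u v = ch α β γ δ s) : α * v - γ * u ≠ 0 ∧
      (δ * u - β * v) / (α * v - γ * u) = s := by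
  have h4 : u * (γ * s + δ) = (α * s + β) * v := pt_eq h
  have h5 : α * v - γ * u ≠ 0 := by
    intro h6
    have h7 : δ * u - β * v = 0 := by linear_combination s * h6 + h4
    have h8 : (α * δ - β * γ) * u = 0 := by linear_combination α * h7 + β * h6
    have h9 : (α * δ - β * γ) * v = 0 := by linear_combination γ * h7 + δ * h6
    rcases huv with h3 | h3
    · exact (mul_ne_zero hd h3) h8
    · exact (mul_ne_zero hd h3) h9
  refine ⟨h5, ?_⟩
  rw [div_eq_iff h5]
  linear_combination h4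

/-- nonconstant rational maps are open -/
theorem rat_isOpenMap {P Q : Polynomial ℂ} (hc : IsCoprime P Q) (he : 0 < dg P Q) :
    IsOpenMap (rat P Q) := by
  rw [isOpenMap_iff_nhds_le]
  intro z
  obtain ⟨α, β, γ, δ, hd, ho, h0⟩ := exists_chart z
  obtain ⟨α', β', γ', δ', hd', ho', h0'⟩ := exists_chart (rat P Q z)
  set p := lin α β γ δ (dg P Q) P with hp
  set q := lin α β γ δ (dg P Q) Q with hq
  have hpq : ∀ s, rat P Q (ch α β γ δ s) = pt (p.eval s) (q.eval s) := by
    intro s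
    unfold ch
    rw [rat_pt (ch_ne hd s), lin_eval, lin_eval]
  have hne : ∀ s, p.eval s ≠ 0 ∨ q.eval s ≠ 0 := by
    intro s
    rw [hp, hq, lin_eval, lin_eval]
    exact hom_ne hc (ch_ne hd s)
  have h1 : pt (p.eval 0) (q.eval 0) = ch α' β' γ' δ' 0 := by
    rw [← hpq, h0, h0']
  obtain ⟨h2, h3⟩ := ne_of_pt_eq_ch hd' (hne 0) h1
  set G : ℂ → ℂ := fun s => (δ' * p.eval s - β' * q.eval s) / (α' * q.eval s - γ' * p.eval s)
    with hG
  have hpa : AnalyticAt ℂ (fun z => p.eval z) 0 := by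
    have := AnalyticOnNhd.eval_polynomial (𝕜 := ℂ) (A := ℂ) p
    exact this 0 (Set.mem_univ _)
  have hqa : AnalyticAt ℂ (fun z => q.eval z) 0 := by
    have := AnalyticOnNhd.eval_polynomial (𝕜 := ℂ) (A := ℂ) q
    exact this 0 (Set.mem_univ _)
  have hGa : AnalyticAt ℂ G 0 :=
    ((analyticAt_const.mul hpa).sub (analyticAt_const.mul hqa)).div
      ((analyticAt_const.mul hqa).sub (analyticAt_const.mul hpa)) h2
  have hev : ∀ᶠ s in 𝓝 (0 : ℂ), rat P Q (ch α β γ δ s) = ch α' β' γ' δ' (G s) := by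
    have hcont : Continuous (fun s => α' * q.eval s - γ' * p.eval s) :=
      (continuous_const.mul q.continuous).sub (continuous_const.mul p.continuous)
    filter_upwards [(hcont.tendsto 0).eventually_ne h2] with s hs
    rw [hpq, pt_eq_ch hd' hs]
  have hnc : ¬ ∀ᶠ s in 𝓝 (0 : ℂ), G s = G 0 := by
    intro hcon
    have h4 := hev.and hcon
    have h5 : {s | rat P Q (ch α β γ δ s) = ch α' β' γ' δ' (G s) ∧ G s = G 0}.Countable := by
      have h6 : {w | rat P Q w = ch α' β' γ' δ' (G 0)}.Countable := countable_fib1 hc he _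
      apply (h6.preimage ho.injective).mono
      rintro s ⟨hs1, hs2⟩
      show rat P Q (ch α β γ δ s) = _
      rw [hs1, hs2]
    have h6 : (𝓝 (0 : ℂ)).NeBot := inferInstance
    obtain ⟨s, hs1, hs2⟩ := (h5.dense_compl ℝ).inter_nhds_nonempty h4
    exact hs1 hs2
  rcases hGa.eventually_constant_or_nhds_le_map_nhds with h4 | h4
  · exact absurd h4 hnc
  · have h5 : G 0 = 0 := h3
    rw [h5] at h4
    calc 𝓝 (rat P Q z) = map (ch α' β' γ' δ') (𝓝 0) := by
          rw [ho'.map_nhds_eq, h0']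
      _ ≤ map (ch α' β' γ' δ') (map G (𝓝 0)) := map_mono h4
      _ = map (rat P Q ∘ ch α β γ δ) (𝓝 0) := by
          rw [Filter.map_map]
          apply Filter.map_congr
          filter_upwards [hev] with s hs
          exact hs.symm
      _ = map (rat P Q) (𝓝 z) := by rw [← Filter.map_map, ho.map_nhds_eq, h0]

end Pool.Agent.H91.Fatou
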