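import Mathlib
import Pool.Agent.H91.Fatou.Mob

/-!
# Inverse branches of iterates
-/

set_option autoImplicit false

open Filter Topology Polynomial OnePoint Metric

namespace Pool.Agent.H91.Fatou

open Pool.Agent.H44.Fatou

/-- points over which the iterate has no critical points -/
def Reg (f : OnePoint ℂ → OnePoint ℂ) (n : ℕ) : Set (OnePoint ℂ) :=
  {z | ∀ w, f^[n] w = z → ∀ i < n, ¬ Crit f (f^[i] w)}

theorem inj_iterate {f : OnePoint ℂ → OnePoint ℂ} (hf : Continuous f) (n : ℕ) {w : OnePoint ℂ}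
    (h : ∀ i < n, ¬ Crit f (f^[i] w)) : ∃ U ∈ 𝓝 w, Set.InjOn f^[n] U := by
  induction n with
  | zero => exact ⟨Set.univ, univ_mem, fun x _ y _ hxy => hxy⟩
  | succ n ih =>
    obtain ⟨U, hU, hinj⟩ := ih (fun i hi => h i (by omega))
    have h1 := h n (Nat.lt_succ_self n)
    unfold Crit at h1
    push Not at h1
    obtain ⟨V, hV, hinj'⟩ := h1
    refine ⟨U ∩ (f^[n]) ⁻¹' V, inter_mem hU ((hf.iterate n).continuousAt hV), ?_⟩
    rintro x ⟨hx1, hx2⟩ y ⟨hy1, hy2⟩ hxy
    rw [Function.iterate_succ_apply', Function.iterate_succ_apply'] at hxy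
    exact hinj hx1 hy1 (hinj' hx2 hy2 hxy)

theorem open_iterate {f : OnePoint ℂ → OnePoint ℂ} (ho : IsOpenMap f) (n : ℕ) :
    IsOpenMap f^[n] := by
  induction n with
  | zero => exact IsOpenMap.id
  | succ n ih =>
    rw [Function.iterate_succ]
    exact ih.comp ho

theorem cover_iterate {f : OnePoint ℂ → OnePoint ℂ} (hf : Continuous f) (ho : IsOpenMap f)
    (n : ℕ) : IsCoveringMapOn f^[n] (Reg f n) := by
  apply IsCoveringMapOn.of_isLocalHomeomorphOn (hf.iterate n)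
  rw [isLocalHomeomorphOn_iff_isOpenEmbedding_restrict]
  intro x hx
  obtain ⟨U, hU, hinj⟩ := inj_iterate hf n (hx x rfl)
  refine ⟨interior U, isOpen_interior.mem_nhds (mem_interior_iff_mem_nhds.2 hU), ?_⟩
  apply IsOpenEmbedding.of_continuous_injective_isOpenMap
  · exact (hf.iterate n).comp continuous_subtype_val
  · rintro ⟨a, ha⟩ ⟨b, hb⟩ hab
    exact Subtype.ext (hinj (interior_subset ha) (interior_subset hb) hab)
  · exact (open_iterate ho n).domRestrict isOpen_interior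

/-- existence of inverse branches on convex sets -/
theorem exists_branch {f : OnePoint ℂ → OnePoint ℂ} (hf : Continuous f) (ho : IsOpenMap f)
    {n : ℕ} {ψ : ℂ → OnePoint ℂ} (hψ : Continuous ψ) {S : Set ℂ} (hS : Convex ℝ S)
    (hSo : IsOpen S) (hreg : ∀ t ∈ S, ψ t ∈ Reg f n) {q : ℂ} (hq : q ∈ S) {x : OnePoint ℂ}
    (hx : f^[n] x = ψ q) :
    ∃ g : ℂ → OnePoint ℂ, ContinuousOn g S ∧ g q = x ∧ ∀ t ∈ S, f^[n] (g t) = ψ t := by
  classical
  have h1 : ContractibleSpace S := hS.contractibleSpace ⟨q, hq⟩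
  have h2 : LocallyPathConnectedSpace S := hSo.locallyPathConnectedSpace
  let ψ' : C(S, OnePoint ℂ) := ⟨fun t => ψ t, hψ.comp continuous_subtype_val⟩
  obtain ⟨F, ⟨hF1, hF2⟩, -⟩ := (cover_iterate hf ho n).existsUnique_continuousMap_lifts ψ'
    (a₀ := ⟨q, hq⟩) (e₀ := x) hx (fun a => hreg a a.2)
  refine ⟨fun t => if h : t ∈ S then F ⟨t, h⟩ else x, ?_, ?_, ?_⟩
  · rw [continuousOn_iff_continuous_domRestrict]
    have : S.domRestrict (fun t => if h : t ∈ S then F ⟨t, h⟩ else x) = F := by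
      funext t
      simp [Set.domRestrict]
    rw [this]
    exact F.continuous
  · simp only [hq, dif_pos]
    exact hF1
  · intro t ht
    simp only [ht, dif_pos]
    exact congrFun hF2 ⟨t, ht⟩

/-- uniqueness of inverse branches on convex sets -/
theorem branch_unique {f : OnePoint ℂ → OnePoint ℂ} (hf : Continuous f) (ho : IsOpenMap f)
    {n : ℕ} {ψ : ℂ → OnePoint ℂ} (hψ : Continuous ψ) {S : Set ℂ} (hS : Convex ℝ S)
    (hSo : IsOpen S) (hreg : ∀ t ∈ S, ψ t ∈ Reg f n) {q : ℂ} (hq : q ∈ S)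
    {g g' : ℂ → OnePoint ℂ} (hg : ContinuousOn g S) (hg' : ContinuousOn g' S)
    (h : ∀ t ∈ S, f^[n] (g t) = ψ t) (h' : ∀ t ∈ S, f^[n] (g' t) = ψ t) (hqq : g q = g' q) :
    ∀ t ∈ S, g t = g' t := by
  have h1 : ContractibleSpace S := hS.contractibleSpace ⟨q, hq⟩
  have h2 : LocallyPathConnectedSpace S := hSo.locallyPathConnectedSpace
  let ψ' : C(S, OnePoint ℂ) := ⟨fun t => ψ t, hψ.comp continuous_subtype_val⟩
  obtain ⟨F, -, hun⟩ := (cover_iterate hf ho n).existsUnique_continuousMap_lifts ψ'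
    (a₀ := ⟨q, hq⟩) (e₀ := g q) (h q hq) (fun a => hreg a a.2)
  have e1 := hun ⟨S.domRestrict g, continuousOn_iff_continuous_domRestrict.1 hg⟩
    ⟨rfl, by funext t; exact h t t.2⟩
  have e2 := hun ⟨S.domRestrict g', continuousOn_iff_continuous_domRestrict.1 hg'⟩
    ⟨hqq.symm, by funext t; exact h' t t.2⟩
  intro t ht
  have e3 := e1.trans e2.symm
  have e4 := congrArg (fun F : C(S, OnePoint ℂ) => F ⟨t, ht⟩) e3
  exact e4

end Pool.Agent.H91.Fatou
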