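import Mathlib
import Pool.Agent.H91.Fatou.Branch

/-!
# Ultrafilter limits of bounded holomorphic functions; inverse branches in a chart
-/

set_option autoImplicit false

open Filter Topology Polynomial OnePoint Metric

namespace Pool.Agent.H91.Fatou

open Pool.Agent.H44.Fatou

theorem deriv_bound {h : ℂ → ℂ} {t : ℂ} {R M : ℝ} (hR : 0 < R)
    (hd : DifferentiableOn ℂ h (closedBall t R)) (hM : ∀ s ∈ closedBall t R, ‖h s‖ ≤ M) :
    ‖deriv h t‖ ≤ M / R := by
  apply Complex.norm_deriv_le_of_forall_mem_sphere_norm_le hR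
  · apply DifferentiableOn.diffContOnCl
    rw [closure_ball _ hR.ne']
    exact hd
  · intro s hs
    exact hM s (sphere_subset_closedBall hs)

theorem sub_ball {y t : ℂ} {a b c : ℝ} (ht : t ∈ closedBall y a) (h : a + b ≤ c) :
    closedBall t b ⊆ closedBall y c := by
  intro s hs
  rw [mem_closedBall] at *
  calc dist s y ≤ dist s t + dist t y := dist_triangle _ _ _
    _ ≤ c := by linarith

theorem lip_of_bound {h : ℂ → ℂ} {y : ℂ} {R M : ℝ} (hR : 0 < R)
    (hd : DifferentiableOn ℂ h (ball y (3 * R))) (hM : ∀ t ∈ ball y (3 * R), ‖h t‖ ≤ M) :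
    ∀ s ∈ closedBall y R, ∀ t ∈ closedBall y R, ‖h s - h t‖ ≤ M / R * ‖s - t‖ := by
  intro s hs t ht
  have hsub : ∀ x ∈ closedBall y R, closedBall x R ⊆ ball y (3 * R) := by
    intro x hx
    exact (sub_ball hx (by linarith : R + R ≤ 2 * R)).trans (closedBall_subset_ball (by linarith))
  apply (convex_closedBall y R).norm_image_sub_le_of_norm_deriv_le (𝕜 := ℂ) _ _ ht hs
  · intro x hx
    exact hd.differentiableAt (isOpen_ball.mem_nhds (hsub x hx (mem_closedBall_self hR.le)))
  · intro x hx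
    exact deriv_bound hR (hd.mono (hsub x hx)) (fun s hs => hM s (hsub x hx hs))

/-- second order Taylor bound -/
theorem taylor2 {h : ℂ → ℂ} {y : ℂ} {R M : ℝ} (hR : 0 < R)
    (hd : DifferentiableOn ℂ h (ball y (4 * R))) (hM : ∀ t ∈ ball y (4 * R), ‖h t‖ ≤ M) :
    ‖deriv h y‖ ≤ M / R ∧
    ∀ t ∈ ball y R, ‖h t - h y - deriv h y * (t - y)‖ ≤ M / R / R * ‖t - y‖ ^ 2 := by
  have hsub : ∀ x ∈ closedBall y (2 * R), closedBall x R ⊆ ball y (4 * R) := by
    intro x hx
    exact (sub_ball hx (by linarith : 2 * R + R ≤ 3 * R)).trans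
      (closedBall_subset_ball (by linarith))
  have h1 : ∀ x ∈ closedBall y (2 * R), ‖deriv h x‖ ≤ M / R := by
    intro x hx
    exact deriv_bound hR (hd.mono (hsub x hx)) (fun s hs => hM s (hsub x hx hs))
  have hdd : DifferentiableOn ℂ (deriv h) (ball y (4 * R)) := hd.deriv isOpen_ball
  have hsub2 : ∀ x ∈ closedBall y R, closedBall x R ⊆ closedBall y (2 * R) := by
    intro x hx
    exact sub_ball hx (by linarith)
  have h2 : ∀ x ∈ closedBall y R, ‖deriv (deriv h) x‖ ≤ M / R / R := by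
    intro x hx
    apply deriv_bound hR
    · exact hdd.mono ((hsub2 x hx).trans (closedBall_subset_ball (by linarith)))
    · intro s hs
      exact h1 s (hsub2 x hx hs)
  have h3 : ∀ x ∈ closedBall y R, ‖deriv h x - deriv h y‖ ≤ M / R / R * ‖x - y‖ := by
    intro x hx
    apply (convex_closedBall y R).norm_image_sub_le_of_norm_deriv_le (𝕜 := ℂ) _ h2
      (mem_closedBall_self hR.le) hx
    intro s hs
    exact hdd.differentiableAt (isOpen_ball.mem_nhds
      (closedBall_subset_ball (by linarith) (hsub2 s hs (mem_closedBall_self hR.le))))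
  refine ⟨h1 y (mem_closedBall_self (by linarith)), ?_⟩
  intro t ht
  rw [mem_ball, dist_eq_norm] at ht
  set ρ := ‖t - y‖ with hρ
  have hM0 : 0 ≤ M / R / R := by
    have := (norm_nonneg _).trans (h2 y (mem_closedBall_self hR.le))
    exact this
  have h4 : ∀ x ∈ closedBall y ρ, HasDerivAt (fun s => h s - deriv h y * s)
      (deriv h x - deriv h y) x := by
    intro x hx
    have hx' : x ∈ ball y (4 * R) := closedBall_subset_ball (by linarith) hx
    have h5 := (hd.differentiableAt (isOpen_ball.mem_nhds hx')).hasDerivAt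
    have h6 := h5.sub ((hasDerivAt_id x).const_mul (deriv h y))
    rw [mul_one] at h6
    exact h6
  have h5 := (convex_closedBall y ρ).norm_image_sub_le_of_norm_deriv_le (𝕜 := ℂ)
    (f := fun s => h s - deriv h y * s) (C := M / R / R * ρ)
    (fun x hx => (h4 x hx).differentiableAt)
    (fun x hx => by
      rw [(h4 x hx).deriv]
      have hx' : x ∈ closedBall y R := closedBall_subset_closedBall ht.le hx
      refine (h3 x hx').trans ?_
      apply mul_le_mul_of_nonneg_left _ hM0
      rw [mem_closedBall, dist_eq_norm] at hx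
      exact hx)
    (mem_closedBall_self (norm_nonneg _)) (show t ∈ closedBall y ρ by
      rw [mem_closedBall, dist_eq_norm])
  have h6 : h t - deriv h y * t - (h y - deriv h y * y) = h t - h y - deriv h y * (t - y) := by
    ring
  rw [h6] at h5
  calc _ ≤ M / R / R * ρ * ‖t - y‖ := h5
    _ = M / R / R * ρ ^ 2 := by rw [← hρ]; ring

/-- ultrafilter limits of bounded holomorphic functions are holomorphic -/
theorem limit_hol {α : Type*} (U : Ultrafilter α) {S : Set ℂ} (hS : IsOpen S)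
    {h : α → ℂ → ℂ} {M : ℝ}
    (hh : ∀ᶠ a in (U : Filter α), DifferentiableOn ℂ (h a) S ∧ ∀ t ∈ S, ‖h a t‖ ≤ M)
    {g : ℂ → ℂ} (hg : ∀ t ∈ S, Tendsto (fun a => h a t) U (𝓝 (g t))) :
    DifferentiableOn ℂ g S := by
  intro y hy
  obtain ⟨R0, hR0, hb⟩ := Metric.isOpen_iff.1 hS y hy
  set R := R0 / 4 with hR
  have hRpos : 0 < R := by positivity
  have hb' : ball y (4 * R) ⊆ S := by
    have : 4 * R = R0 := by rw [hR]; ring
    rw [this]; exact hb
  have h1 : ∀ᶠ a in (U : Filter α), ‖deriv (h a) y‖ ≤ M / R ∧ ∀ t ∈ ball y R,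
      ‖h a t - h a y - deriv (h a) y * (t - y)‖ ≤ M / R / R * ‖t - y‖ ^ 2 := by
    filter_upwards [hh] with a ha
    exact taylor2 hRpos (ha.1.mono hb') (fun t ht => ha.2 t (hb' ht))
  obtain ⟨d, hd, hlim⟩ := (isCompact_closedBall (0 : ℂ) (M / R)).ultrafilter_le_nhds
    (U.map fun a => deriv (h a) y) (by
      rw [le_principal_iff]
      apply Filter.mem_map.2
      filter_upwards [h1] with a ha
      rw [Set.mem_preimage, mem_closedBall_zero_iff]
      exact ha.1)
  have hlim' : Tendsto (fun a => deriv (h a) y) U (𝓝 d) := hlim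
  have h2 : ∀ t ∈ ball y R, ‖g t - g y - d * (t - y)‖ ≤ M / R / R * ‖t - y‖ ^ 2 := by
    intro t ht
    have ht' : t ∈ S := hb' (ball_subset_ball (by linarith) ht)
    have h3 := (((hg t ht').sub (hg y hy)).sub (hlim'.mul_const (t - y))).norm
    apply le_of_tendsto h3
    filter_upwards [h1] with a ha
    exact ha.2 t ht
  have h3 : HasDerivAt g d y := by
    rw [hasDerivAt_iff_isLittleO]
    have h4 : (fun t => g t - g y - (t - y) • d) =O[𝓝 y] (fun t => ‖t - y‖ ^ 2) := by
      apply Asymptotics.IsBigO.of_bound (M / R / R)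
      filter_upwards [ball_mem_nhds y hRpos] with t ht
      have h5 := h2 t ht
      rw [smul_eq_mul, mul_comm (t - y) d]
      rw [norm_pow, norm_norm]
      exact h5
    apply h4.trans_isLittleO
    have h5 : Tendsto (fun t : ℂ => t - y) (𝓝 y) (𝓝 0) := by
      have : Continuous (fun t : ℂ => t - y) := by fun_prop
      have := this.tendsto y
      simpa using this
    have h6 := (Asymptotics.isLittleO_norm_pow_id (E' := ℂ) (by norm_num : 1 < 2)).comp_tendsto h5
    exact h6
  exact h3.differentiableAt.differentiableWithinAt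

/-- the iterate in a chart -/
noncomputable def gn (P Q : Polynomial ℂ) (α β γ δ : ℂ) (n : ℕ) (t : ℂ) : ℂ :=
  (δ * ((lift P Q)^[n] (α * t + β, γ * t + δ)).1 - β * ((lift P Q)^[n] (α * t + β, γ * t + δ)).2) /
    (α * ((lift P Q)^[n] (α * t + β, γ * t + δ)).2 - γ * ((lift P Q)^[n] (α * t + β, γ * t + δ)).1)

theorem gn_spec {P Q : Polynomial ℂ} (hc : IsCoprime P Q) {α β γ δ : ℂ}
    (hd : α * δ - β * γ ≠ 0) (n : ℕ) {t s : ℂ}
    (h : (rat P Q)^[n] (ch α β γ δ t) = ch α β γ δ s) :
    gn P Q α β γ δ n t = s ∧ DifferentiableAt ℂ (gn P Q α β γ δ n) t ∧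
      ∀ᶠ t' in 𝓝 t, (rat P Q)^[n] (ch α β γ δ t') = ch α β γ δ (gn P Q α β γ δ n t') := by
  set w : ℂ → ℂ × ℂ := fun t => (lift P Q)^[n] (α * t + β, γ * t + δ) with hw
  have hdiff : Differentiable ℂ w := by
    apply ((lift_diff P Q).iterate n).comp
    fun_prop
  have hud : Differentiable ℂ (fun t => (w t).1) := differentiable_fst.comp hdiff
  have hvd : Differentiable ℂ (fun t => (w t).2) := differentiable_snd.comp hdiff
  have h1 : ∀ t, ((w t).1 ≠ 0 ∨ (w t).2 ≠ 0) ∧ (rat P Q)^[n] (ch α β γ δ t) = pt (w t).1 (w t).2 :=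
    fun t => lift_iterate hc n (p := (α * t + β, γ * t + δ)) (ch_ne hd t)
  rw [(h1 t).2] at h
  obtain ⟨h2, h3⟩ := ne_of_pt_eq_ch hd (h1 t).1 h
  have hdd : DifferentiableAt ℂ (fun t => α * (w t).2 - γ * (w t).1) t :=
    ((hvd t).const_mul α).sub ((hud t).const_mul γ)
  refine ⟨h3, ?_, ?_⟩
  · exact (((hud t).const_mul δ).sub ((hvd t).const_mul β)).div hdd h2
  · filter_upwards [hdd.continuousAt.eventually_ne h2] with t' ht'
    rw [(h1 t').2]
    exact pt_eq_ch hd ht'

/-- inverse branches are holomorphic -/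
theorem branch_hol {P Q : Polynomial ℂ} (hc : IsCoprime P Q) {α β γ δ : ℂ}
    (hd : α * δ - β * γ ≠ 0) {n : ℕ} {S : Set ℂ} (hS : IsOpen S)
    (hreg : ∀ t ∈ S, ch α β γ δ t ∈ Reg (rat P Q) n) {g : ℂ → ℂ} (hg : ContinuousOn g S)
    (h : ∀ t ∈ S, (rat P Q)^[n] (ch α β γ δ (g t)) = ch α β γ δ t) :
    DifferentiableOn ℂ g S := by
  have ho := ch_open hd
  intro t ht
  obtain ⟨h1, h2, h3⟩ := gn_spec hc hd n (h t ht)
  set G := gn P Q α β γ δ n with hG
  -- local analyticity of G
  have hev : ∀ᶠ t' in 𝓝 (g t), DifferentiableAt ℂ G t' := by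
    filter_upwards [h3] with t' ht'
    exact (gn_spec hc hd n ht').2.1
  have hGa : AnalyticAt ℂ G (g t) := by
    rw [Complex.analyticAt_iff_eventually_differentiableAt]
    exact hev
  obtain ⟨U, hU, hinj⟩ := inj_iterate (rat_continuous hc) n (hreg t ht _ (h t ht))
  have hV : ch α β γ δ ⁻¹' U ∩ {t' | (rat P Q)^[n] (ch α β γ δ t') = ch α β γ δ (G t')} ∈
      𝓝 (g t) := inter_mem (ho.continuous.continuousAt hU) h3
  have hder : deriv G (g t) ≠ 0 := by
    intro h0
    apply not_injOn_of_deriv hGa h0 hV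
    rintro x ⟨hx1, hx2⟩ y ⟨hy1, hy2⟩ hxy
    apply ho.injective
    apply hinj hx1 hy1
    have hx2' : (rat P Q)^[n] (ch α β γ δ x) = ch α β γ δ (G x) := hx2
    have hy2' : (rat P Q)^[n] (ch α β γ δ y) = ch α β γ δ (G y) := hy2
    rw [hx2', hy2', hxy]
  have hstrict : HasStrictDerivAt G (deriv G (g t)) (g t) := hGa.hasStrictDerivAt
  have hgc : ContinuousAt g t := hg.continuousAt (hS.mem_nhds ht)
  have hinv : ∀ᶠ s in 𝓝 t, G (g s) = s := by
    filter_upwards [hS.mem_nhds ht] with s hs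
    exact (gn_spec hc hd n (h s hs)).1
  have hfin := HasStrictDerivAt.of_local_left_inverse hgc hstrict hder hinv
  exact hfin.hasDerivAt.differentiableAt.differentiableWithinAt

end Pool.Agent.H91.Fatou
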