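import Mathlib
import Pool.Agent.H91.Fatou.Limit

/-!
# Density of the basins of a hyperbolic map, preparations
-/

set_option autoImplicit false

open Filter Topology Polynomial OnePoint Metric

namespace Pool.Agent.H91.Fatou

open Pool.Agent.H44.Fatou

/-- a map of degree at least two has a critical point -/
theorem exists_crit {P Q : Polynomial ℂ} (hc : IsCoprime P Q) (he : 2 ≤ dg P Q) :
    ∃ c, Crit (rat P Q) c := by
  by_cases h : ∃ x, (Wr P Q).eval x = 0
  · obtain ⟨x, hx⟩ := h
    have hd : (1 : ℂ) * 1 - 0 * 0 ≠ 0 := by norm_num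
    refine ⟨ch 1 0 0 1 x, crit_of_wr hd (ch_open hd) hc ?_⟩
    rw [lin_id (le_dgP P Q), lin_id (le_dgQ P Q)]
    exact hx
  · have hdeg : (Wr P Q).natDegree = 0 := by
      by_contra h0
      apply h
      have h1 : (Wr P Q).degree ≠ 0 := by
        intro h2
        exact h0 (natDegree_eq_of_degree_eq_some h2)
      obtain ⟨x, hx⟩ := IsAlgClosed.exists_root _ h1
      exact ⟨x, hx⟩
    obtain ⟨w, hw⟩ : ∃ w, Wr P Q = C w := ⟨_, eq_C_of_natDegree_eq_zero hdeg⟩
    have hd : (0 : ℂ) * 0 - 1 * 1 ≠ 0 := by norm_num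
    refine ⟨ch 0 1 1 0 0, crit_of_wr hd (ch_open hd) hc ?_⟩
    set d := dg P Q with hdd
    have key : ∀ R : Polynomial ℂ, R.natDegree ≤ d → ∀ t : ℂ, t ≠ 0 →
        (lin 0 1 1 0 d R).eval t = t ^ d * R.eval t⁻¹ ∧
        (derivative (lin 0 1 1 0 d R)).eval t =
          d * t ^ (d - 1) * R.eval t⁻¹ - t ^ d * ((derivative R).eval t⁻¹ * (t ^ 2)⁻¹) := by
      intro R hR t ht
      have h1 : ∀ s : ℂ, s ≠ 0 → (lin 0 1 1 0 d R).eval s = s ^ d * R.eval s⁻¹ := by
        intro s hs
        rw [lin_eval]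
        have : hom d R (0 * s + 1) (1 * s + 0) = hom d R 1 s := by congr 1 <;> ring
        rw [this, hom_of_ne hR hs, one_div]
      refine ⟨h1 t ht, ?_⟩
      have h2 := (lin 0 1 1 0 d R).hasDerivAt t
      have h3 : HasDerivAt (fun s : ℂ => s ^ d * R.eval s⁻¹)
          (d * t ^ (d - 1) * R.eval t⁻¹ + t ^ d * ((derivative R).eval t⁻¹ * -(t ^ 2)⁻¹)) t := by
        have h4 := (R.hasDerivAt t⁻¹).comp t (hasDerivAt_inv ht)
        exact (hasDerivAt_pow d t).mul h4
      have h4 : HasDerivAt (fun s : ℂ => s ^ d * R.eval s⁻¹)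
          ((derivative (lin 0 1 1 0 d R)).eval t) t := by
        apply h2.congr_of_eventuallyEq
        filter_upwards [isOpen_ne.mem_nhds ht] with s hs
        exact (h1 s hs).symm
      rw [h4.unique h3]
      ring
    have hW : Wr (lin 0 1 1 0 d P) (lin 0 1 1 0 d Q) + C w * X ^ (2 * d - 2) = 0 := by
      apply eq_zero_of_infinite_isRoot
      apply Set.Infinite.mono (s := {0}ᶜ) _ (Set.finite_singleton (0 : ℂ)).infinite_compl
      intro t ht
      have ht' : t ≠ 0 := ht
      obtain ⟨p1, p2⟩ := key P (le_dgP P Q) t ht'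
      obtain ⟨q1, q2⟩ := key Q (le_dgQ P Q) t ht'
      show eval t _ = 0
      have hw1 : (derivative P).eval t⁻¹ * Q.eval t⁻¹ - P.eval t⁻¹ * (derivative Q).eval t⁻¹ = w := by
        have := congrArg (Polynomial.eval t⁻¹) hw
        unfold Wr at this
        rwa [eval_sub, eval_mul, eval_mul, eval_C] at this
      unfold Wr
      rw [eval_add, eval_sub, eval_mul, eval_mul, eval_mul, eval_C, eval_pow, eval_X, p1, p2, q1, q2]
      have hpow : t ^ d * t ^ d = t ^ (2 * d - 2) * t ^ 2 := by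
        rw [← pow_add, ← pow_add]; congr 1; omega
      have h5 : t ^ d * t ^ d * (t ^ 2)⁻¹ = t ^ (2 * d - 2) := by
        rw [hpow]; field_simp
      have h6 : (d * t ^ (d - 1) * P.eval t⁻¹ - t ^ d * ((derivative P).eval t⁻¹ * (t ^ 2)⁻¹)) *
          (t ^ d * Q.eval t⁻¹) - t ^ d * P.eval t⁻¹ *
          (d * t ^ (d - 1) * Q.eval t⁻¹ - t ^ d * ((derivative Q).eval t⁻¹ * (t ^ 2)⁻¹)) =
          -(t ^ d * t ^ d * (t ^ 2)⁻¹) * ((derivative P).eval t⁻¹ * Q.eval t⁻¹ -
            P.eval t⁻¹ * (derivative Q).eval t⁻¹) := by ring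
      rw [h6, h5, hw1]
      ring
    have h0 := congrArg (Polynomial.eval 0) hW
    rw [eval_add, eval_mul, eval_pow, eval_X, eval_zero, zero_pow (by omega), mul_zero,
      add_zero] at h0
    exact h0

theorem finite_crit {P Q : Polynomial ℂ} (hc : IsCoprime P Q) (he : 0 < dg P Q) :
    {c | Crit (rat P Q) c}.Finite := by
  have h1 : {c | Crit (rat P Q) c} ⊆ {∞} ∪ ((↑) : ℂ → OnePoint ℂ) '' {x | (Wr P Q).eval x = 0} := by
    intro w hw
    induction w using OnePoint.rec with
    | infty => left; rfl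
    | coe x => right; exact ⟨x, crit_coe hw, rfl⟩
  exact ((Set.finite_singleton _).union ((finite_roots (wr_ne_zero hc he)).image _)).subset h1

theorem captured_self {f : OnePoint ℂ → OnePoint ℂ} {z : OnePoint ℂ} {n : ℕ} (hn : 0 < n)
    (hz : f^[n] z = z) (ha : Attracting f n z) : Captured f z := by
  refine ⟨z, n, hn, hz, ha, 0, ?_⟩
  have h1 : ∀ k : ℕ, f^[n * k + 0] z = z := by
    intro k
    rw [add_zero, Function.iterate_mul]
    exact Function.iterate_fixed hz k
  simp only [h1]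
  exact tendsto_const_nhds

/-- the orbit of a captured point lies in a compact subset of the basin -/
theorem captured_compact {f : OnePoint ℂ → OnePoint ℂ} (hf : Continuous f) {c : OnePoint ℂ}
    (h : Captured f c) : ∃ K : Set (OnePoint ℂ), IsCompact K ∧ (∀ w ∈ K, Captured f w) ∧
      ∀ i, f^[i] c ∈ K := by
  have hcap := h
  obtain ⟨z, n, hn, hz, ha, m, hm⟩ := h
  refine ⟨((fun i => f^[i] c) '' ↑(Finset.range m)) ∪ ⋃ j ∈ Finset.range n,
    insert (f^[j] z) (Set.range (fun k : ℕ => f^[j] (f^[n * k + m] c))), ?_, ?_, ?_⟩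
  · apply IsCompact.union
    · exact ((Finset.finite_toSet _).image _).isCompact
    · apply (Finset.range n).isCompact_biUnion
      intro j _
      apply Filter.Tendsto.isCompact_insert_range
      exact ((hf.iterate j).tendsto z).comp hm
  · rintro w (⟨i, -, rfl⟩ | hw)
    · exact hcap.apply i
    · simp only [Set.mem_iUnion] at hw
      obtain ⟨j, -, rfl | ⟨k, rfl⟩⟩ := hw
      · exact (captured_self hn hz ha).apply j
      · exact (hcap.apply _).apply j
  · intro i
    by_cases hi : i < m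
    · left
      exact ⟨i, by simpa using hi, rfl⟩
    · right
      simp only [Set.mem_iUnion]
      refine ⟨(i - m) % n, by simpa using Nat.mod_lt _ hn, Or.inr ⟨(i - m) / n, ?_⟩⟩
      simp only
      rw [← Function.iterate_add_apply]
      congr 1
      have := Nat.mod_add_div (i - m) n
      omega

/-- data for the density theorem -/
structure Dat (P Q : Polynomial ℂ) (α β γ δ : ℂ) (r M : ℝ) : Prop where
  cop : IsCoprime P Q
  deg : 0 < dg P Q
  det : α * δ - β * γ ≠ 0
  rpos : 0 < r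
  Mpos : 0 < M
  range : ∀ w, ¬ Captured (rat P Q) w → w ∈ Set.range (ch α β γ δ)
  compact : IsCompact {y : ℂ | ¬ Captured (rat P Q) (ch α β γ δ y)}
  reg : ∀ y, ¬ Captured (rat P Q) (ch α β γ δ y) → ∀ t ∈ ball y r, ∀ n,
    ch α β γ δ t ∈ Reg (rat P Q) n
  bdd : ∀ y, ¬ Captured (rat P Q) (ch α β γ δ y) → ∀ t ∈ ball y r, ∀ n w,
    (rat P Q)^[n] w = ch α β γ δ t → ∃ s, w = ch α β γ δ s ∧ ‖s‖ ≤ M

theorem exists_dat {P Q : Polynomial ℂ} (hc : IsCoprime P Q) (he : 2 ≤ dg P Q)
    (hyp : ∀ c, Crit (rat P Q) c → Captured (rat P Q) c) :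
    ∃ (α β γ δ : ℂ) (r M : ℝ), Dat P Q α β γ δ r M := by
  set f := rat P Q with hf
  have hfc : Continuous f := rat_continuous hc
  have hWo : IsOpen {w | Captured f w} := isOpen_captured hfc
  obtain ⟨c0, hc0⟩ := exists_crit hc he
  obtain ⟨z0, n0, hn0, hz0, ha0, -, -⟩ := hyp c0 hc0
  obtain ⟨ε, q, hε, hq0, hq1, -, hb⟩ := ha0.trap (univ_mem)
  -- captured chordal ball
  have hball : ∀ w, chord w z0 < ε → Captured f w := by
    intro w hw
    refine ⟨z0, n0, hn0, hz0, ha0, 0, ?_⟩
    apply tendsto_of_chord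
    apply squeeze_zero (fun k => chord_nonneg _ _) (fun k => (hb w hw k).1)
    have := (tendsto_pow_atTop_nhds_zero_of_lt_one hq0 hq1).mul_const (chord w z0)
    rwa [zero_mul] at this
  -- compact sets
  set T : Set (OnePoint ℂ) := ⋃ j ∈ Finset.range n0, f^[j] '' {w | chord w z0 ≤ ε / 2} with hT
  have hTc : IsCompact T := by
    apply (Finset.range n0).isCompact_biUnion
    intro j _
    apply IsCompact.image _ (hfc.iterate j)
    exact (isClosed_le (chord_continuous z0) continuous_const).isCompact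
  have hTW : ∀ w ∈ T, Captured f w := by
    intro w hw
    simp only [hT, Set.mem_iUnion] at hw
    obtain ⟨j, -, v, hv, rfl⟩ := hw
    apply Captured.apply
    apply hball
    have : chord v z0 ≤ ε / 2 := hv
    linarith
  have hTn : ∀ w, chord w z0 < ε / 2 → ∀ n, f^[n] w ∈ T := by
    intro w hw n
    simp only [hT, Set.mem_iUnion]
    refine ⟨n % n0, by simpa using Nat.mod_lt _ hn0, f^[n0 * (n / n0)] w, ?_, ?_⟩
    · have h1 := (hb w (by linarith) (n / n0)).1
      have h2 : q ^ (n / n0) ≤ 1 := pow_le_one₀ hq0 hq1.le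
      have h3 := mul_le_mul_of_nonneg_right h2 (chord_nonneg w z0)
      show chord _ _ ≤ ε / 2
      linarith
    · rw [← Function.iterate_add_apply, Nat.mod_add_div]
  have hK : ∀ c : {c | Crit f c}, ∃ K : Set (OnePoint ℂ), IsCompact K ∧
      (∀ w ∈ K, Captured f w) ∧ ∀ i, f^[i] (c : OnePoint ℂ) ∈ K :=
    fun c => captured_compact hfc (hyp c c.2)
  choose K hK1 hK2 hK3 using hK
  have hfin : Finite {c | Crit f c} := finite_crit hc (by omega)
  set PC : Set (OnePoint ℂ) := ⋃ c, K c with hPC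
  have hPCc : IsCompact PC := isCompact_iUnion hK1
  -- chart
  obtain ⟨α, β, γ, δ, hd, hr⟩ := exists_chart_infty z0
  have ho := ch_open hd
  have hz0W : Captured f z0 := captured_self hn0 hz0 ha0
  have hrange : ∀ w, ¬ Captured f w → w ∈ Set.range (ch α β γ δ) := by
    intro w hw
    rw [hr]
    rintro rfl
    exact hw hz0W
  have hΛ : IsCompact {w | ¬ Captured f w} := by
    have : IsClosed {w | Captured f w}ᶜ := hWo.isClosed_compl
    exact this.isCompact
  have hΛ' : IsCompact {y : ℂ | ¬ Captured f (ch α β γ δ y)} := by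
    have := (ho.isInducing.isCompact_preimage_iff (K := {w | ¬ Captured f w})
      (fun w hw => hrange w hw)).2 hΛ
    exact this
  have hopen : IsOpen (ch α β γ δ ⁻¹' (PC ∪ T)ᶜ) :=
    (hPCc.union hTc).isClosed.isOpen_compl.preimage ho.continuous
  have hsub : {y : ℂ | ¬ Captured f (ch α β γ δ y)} ⊆ ch α β γ δ ⁻¹' (PC ∪ T)ᶜ := by
    rintro y hy (h1 | h1)
    · obtain ⟨c, hc1⟩ := Set.mem_iUnion.1 h1
      exact hy (hK2 c _ hc1)
    · exact hy (hTW _ h1)
  obtain ⟨r, hr0, hrs⟩ := hΛ'.exists_thickening_subset_open hopen hsub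
  have hcl : IsCompact {w | ε / 2 ≤ chord w z0} :=
    (isClosed_le continuous_const (chord_continuous z0)).isCompact
  have hcl' : IsCompact (ch α β γ δ ⁻¹' {w | ε / 2 ≤ chord w z0}) := by
    apply (ho.isInducing.isCompact_preimage_iff _).2 hcl
    intro w hw
    rw [hr]
    rintro rfl
    have h1 : ε / 2 ≤ chord w w := hw
    rw [chord_self] at h1
    linarith
  obtain ⟨M, hM⟩ := hcl'.isBounded.exists_norm_le
  refine ⟨α, β, γ, δ, r, max M 1, hc, by omega, hd, hr0, lt_max_of_lt_right one_pos, hrange, hΛ',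
    ?_, ?_⟩
  · intro y hy t ht n w hw i hi hcr
    have h1 := hrs (ball_subset_thickening (show y ∈ {y : ℂ | ¬ Captured f (ch α β γ δ y)} from hy) r
      ht)
    apply h1
    left
    refine Set.mem_iUnion.2 ⟨⟨f^[i] w, hcr⟩, ?_⟩
    have h2 := hK3 ⟨f^[i] w, hcr⟩ (n - i)
    simp only at h2
    rw [← Function.iterate_add_apply, Nat.sub_add_cancel hi.le, hw] at h2
    exact h2
  · intro y hy t ht n w hw
    have h1 := hrs (ball_subset_thickening (show y ∈ {y : ℂ | ¬ Captured f (ch α β γ δ y)} from hy) r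
      ht)
    have h2 : ε / 2 ≤ chord w z0 := by
      by_contra h3
      push Not at h3
      apply h1
      right
      have := hTn w h3 n
      rwa [hw] at this
    have h3 : w ∈ Set.range (ch α β γ δ) := by
      rw [hr]
      rintro rfl
      rw [chord_self] at h2
      linarith
    obtain ⟨s, rfl⟩ := h3
    exact ⟨s, rfl, (hM s h2).trans (le_max_left _ _)⟩

end Pool.Agent.H91.Fatou
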