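import Mathlib
import Pool.Agent.H91.Fatou.Dense1

/-!
# Density of the basins of a hyperbolic map
-/

set_option autoImplicit false

open Filter Topology Polynomial OnePoint Metric

namespace Pool.Agent.H91.Fatou

open Pool.Agent.H44.Fatou

section

variable {P Q : Polynomial ℂ} {α β γ δ : ℂ} {r M : ℝ}

/-- inverse branches with values in the chart -/
theorem Dat.branch (D : Dat P Q α β γ δ r M) {y : ℂ}
    (hy : ¬ Captured (rat P Q) (ch α β γ δ y)) {n : ℕ} {q s : ℂ} (hq : q ∈ ball y r)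
    (hs : (rat P Q)^[n] (ch α β γ δ s) = ch α β γ δ q) :
    ∃ g : ℂ → ℂ, g q = s ∧ DifferentiableOn ℂ g (ball y r) ∧
      ∀ t ∈ ball y r, (rat P Q)^[n] (ch α β γ δ (g t)) = ch α β γ δ t ∧ ‖g t‖ ≤ M := by
  have ho := ch_open D.det
  obtain ⟨g', hg1, hg2, hg3⟩ := exists_branch (rat_continuous D.cop)
    (rat_isOpenMap D.cop D.deg) ho.continuous (convex_ball y r) isOpen_ball
    (fun t ht => D.reg y hy t ht n) hq hs
  have hex : ∀ t, ∃ s' : ℂ, t ∈ ball y r → (g' t = ch α β γ δ s' ∧ ‖s'‖ ≤ M) := by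
    intro t
    by_cases ht : t ∈ ball y r
    · obtain ⟨s', h1, h2⟩ := D.bdd y hy t ht n _ (hg3 t ht)
      exact ⟨s', fun _ => ⟨h1, h2⟩⟩
    · exact ⟨0, fun h => absurd h ht⟩
  choose g hg using hex
  have hgc : ContinuousOn g (ball y r) := by
    rw [ho.isInducing.continuousOn_iff]
    apply hg1.congr
    intro t ht
    exact (hg t ht).1.symm
  have hgs : ∀ t ∈ ball y r, (rat P Q)^[n] (ch α β γ δ (g t)) = ch α β γ δ t := by
    intro t ht
    rw [← (hg t ht).1]
    exact hg3 t ht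
  refine ⟨g, ?_, branch_hol D.cop D.det isOpen_ball (fun t ht => D.reg y hy t ht n) hgc hgs,
    fun t ht => ⟨hgs t ht, (hg t ht).2⟩⟩
  apply ho.injective
  rw [← (hg q hq).1, hg2]

/-- nonconstant limits of inverse branches near `y` -/
def NN (P Q : Polynomial ℂ) (α β γ δ : ℂ) (r M : ℝ) (y : ℂ) : Prop :=
  ∃ (g : ℕ → ℂ → ℂ) (Γ : ℂ → ℂ),
    (∀ᶠ n in (hyperfilter ℕ : Filter ℕ), DifferentiableOn ℂ (g n) (ball y r) ∧
      ∀ t ∈ ball y r, (rat P Q)^[n] (ch α β γ δ (g n t)) = ch α β γ δ t ∧ ‖g n t‖ ≤ M) ∧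
    (∀ t ∈ ball y r, Tendsto (fun n => g n t) (hyperfilter ℕ) (𝓝 (Γ t))) ∧
    ¬ ∃ κ, ∀ t ∈ ball y r, Γ t = κ

theorem exists_limit {S : Set ℂ} {g : ℕ → ℂ → ℂ}
    (h : ∀ᶠ n in (hyperfilter ℕ : Filter ℕ), ∀ t ∈ S, ‖g n t‖ ≤ M) :
    ∃ Γ : ℂ → ℂ, ∀ t ∈ S, Tendsto (fun n => g n t) (hyperfilter ℕ) (𝓝 (Γ t)) := by
  have h1 : ∀ t, ∃ x, t ∈ S → Tendsto (fun n => g n t) (hyperfilter ℕ) (𝓝 x) := by
    intro t
    by_cases ht : t ∈ S
    · obtain ⟨x, -, hx⟩ := (isCompact_closedBall (0 : ℂ) M).ultrafilter_le_nhds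
        ((hyperfilter ℕ).map fun n => g n t) (by
          rw [le_principal_iff]
          apply Filter.mem_map.2
          filter_upwards [h] with n hn
          rw [Set.mem_preimage, mem_closedBall_zero_iff]
          exact hn t ht)
      exact ⟨x, fun _ => hx⟩
    · exact ⟨0, fun h => absurd h ht⟩
  choose Γ hΓ using h1
  exact ⟨Γ, hΓ⟩

theorem NN.trans (D : Dat P Q α β γ δ r M) {y y' : ℂ}
    (hy : ¬ Captured (rat P Q) (ch α β γ δ y)) (hy' : ¬ Captured (rat P Q) (ch α β γ δ y'))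
    (hd : ‖y' - y‖ < r) (h : NN P Q α β γ δ r M y) : NN P Q α β γ δ r M y' := by
  obtain ⟨g, Γ, hg, hΓ, hnc⟩ := h
  have ho := ch_open D.det
  have hr := D.rpos
  set q : ℂ := y + (y' - y) / 2 with hq
  have hq1 : q ∈ ball y r := by
    rw [mem_ball, dist_eq_norm, hq, add_sub_cancel_left, norm_div, Complex.norm_ofNat]
    have := norm_nonneg (y' - y)
    linarith
  have hq2 : q ∈ ball y' r := by
    rw [mem_ball, dist_eq_norm]
    have : q - y' = -((y' - y) / 2) := by rw [hq]; ring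
    rw [this, norm_neg, norm_div, Complex.norm_ofNat]
    have := norm_nonneg (y' - y)
    linarith
  have hex : ∀ n, ∃ g' : ℂ → ℂ, (DifferentiableOn ℂ (g n) (ball y r) ∧
      ∀ t ∈ ball y r, (rat P Q)^[n] (ch α β γ δ (g n t)) = ch α β γ δ t ∧ ‖g n t‖ ≤ M) →
      (g' q = g n q ∧ DifferentiableOn ℂ g' (ball y' r) ∧
        ∀ t ∈ ball y' r, (rat P Q)^[n] (ch α β γ δ (g' t)) = ch α β γ δ t ∧ ‖g' t‖ ≤ M) := by
    intro n
    by_cases h1 : (DifferentiableOn ℂ (g n) (ball y r) ∧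
      ∀ t ∈ ball y r, (rat P Q)^[n] (ch α β γ δ (g n t)) = ch α β γ δ t ∧ ‖g n t‖ ≤ M)
    · obtain ⟨g', h2⟩ := D.branch hy' hq2 (h1.2 q hq1).1
      exact ⟨g', fun _ => h2⟩
    · exact ⟨0, fun h2 => absurd h2 h1⟩
  choose g' hg' using hex
  have hev : ∀ᶠ n in (hyperfilter ℕ : Filter ℕ), DifferentiableOn ℂ (g' n) (ball y' r) ∧
      ∀ t ∈ ball y' r, (rat P Q)^[n] (ch α β γ δ (g' n t)) = ch α β γ δ t ∧ ‖g' n t‖ ≤ M := by
    filter_upwards [hg] with n hn
    exact (hg' n hn).2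
  obtain ⟨Γ', hΓ'⟩ := exists_limit (hev.mono fun n hn t ht => (hn.2 t ht).2)
  have hconv : Convex ℝ (ball y r ∩ ball y' r) := (convex_ball y r).inter (convex_ball y' r)
  have hopen : IsOpen (ball y r ∩ ball y' r) := isOpen_ball.inter isOpen_ball
  have heq : ∀ t ∈ ball y r ∩ ball y' r, Γ' t = Γ t := by
    intro t ht
    apply tendsto_nhds_unique (hΓ' t ht.2)
    apply (hΓ t ht.1).congr'
    filter_upwards [hg] with n hn
    obtain ⟨h1, h2, h3⟩ := hg' n hn
    have h4 := branch_unique (rat_continuous D.cop) (rat_isOpenMap D.cop D.deg) ho.continuous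
      hconv hopen (fun t ht => D.reg y hy t ht.1 n) ⟨hq1, hq2⟩
      (g := fun t => ch α β γ δ (g n t)) (g' := fun t => ch α β γ δ (g' n t))
      (ho.continuous.comp_continuousOn (hn.1.continuousOn.mono Set.inter_subset_left))
      (ho.continuous.comp_continuousOn (h2.continuousOn.mono Set.inter_subset_right))
      (fun t ht => (hn.2 t ht.1).1) (fun t ht => (h3 t ht.2).1)
      (by rw [h1]) t ht
    exact ho.injective h4
  refine ⟨g', Γ', hev, hΓ', ?_⟩
  rintro ⟨κ, hκ⟩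
  apply hnc
  have hhol : DifferentiableOn ℂ Γ (ball y r) := by
    apply limit_hol (hyperfilter ℕ) isOpen_ball _ hΓ
    exact M
    filter_upwards [hg] with n hn
    exact ⟨hn.1, fun t ht => (hn.2 t ht).2⟩
  have han : AnalyticOnNhd ℂ Γ (ball y r) := hhol.analyticOnNhd isOpen_ball
  have hcn : AnalyticOnNhd ℂ (fun _ => κ) (ball y r) := analyticOnNhd_const
  refine ⟨κ, ?_⟩
  have h5 : Γ =ᶠ[𝓝 q] fun _ => κ := by
    filter_upwards [hopen.mem_nhds ⟨hq1, hq2⟩] with t ht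
    rw [← heq t ht]
    exact hκ t ht.2
  exact fun t ht => han.eqOn_of_preconnected_of_eventuallyEq hcn
    (convex_ball y r).isPreconnected hq1 h5 ht

theorem NN.chain (D : Dat P Q α β γ δ r M) {y y' : ℂ}
    (hseg : ∀ τ : ℝ, 0 ≤ τ → τ ≤ 1 →
      ¬ Captured (rat P Q) (ch α β γ δ (y + (τ : ℂ) * (y' - y))))
    (h : NN P Q α β γ δ r M y) : NN P Q α β γ δ r M y' := by
  obtain ⟨m, hm⟩ := exists_nat_gt (‖y' - y‖ / r)
  have hr := D.rpos
  have hm' : ‖y' - y‖ < m * r := by rwa [div_lt_iff₀ hr] at hm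
  have hm0 : 0 < (m : ℝ) := by
    by_contra h0
    have h1 : (m : ℝ) = 0 := le_antisymm (not_lt.1 h0) (Nat.cast_nonneg m)
    rw [h1, zero_mul] at hm'
    exact absurd hm' (not_lt.2 (norm_nonneg _))
  have key : ∀ j : ℕ, j ≤ m → NN P Q α β γ δ r M (y + (((j : ℝ) / m : ℝ) : ℂ) * (y' - y)) := by
    intro j
    induction j with
    | zero =>
      intro _
      have : y + (((0 : ℕ) : ℝ) / m : ℝ) * (y' - y) = y := by simp
      rw [this]; exact h
    | succ j ih =>
      intro hj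
      have hj' : (j : ℝ) + 1 ≤ m := by exact_mod_cast hj
      have hj0 : (0 : ℝ) ≤ j := Nat.cast_nonneg j
      apply NN.trans D (hseg _ (by positivity) (by rw [div_le_one hm0]; linarith))
        (hseg _ (by positivity) (by rw [div_le_one hm0]; push_cast; linarith)) _ (ih (by omega))
      have h1 : y + ((((j + 1 : ℕ) : ℝ) / m : ℝ) : ℂ) * (y' - y) -
          (y + (((j : ℝ) / m : ℝ) : ℂ) * (y' - y)) = ((1 / m : ℝ) : ℂ) * (y' - y) := by
        push_cast; ring
      rw [h1, norm_mul, Complex.norm_real, Real.norm_eq_abs, abs_of_pos (by positivity),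
        one_div, inv_mul_lt_iff₀ hm0]
      exact hm'
  have h1 := key m le_rfl
  rw [div_self hm0.ne'] at h1
  have h2 : y + ((1 : ℝ) : ℂ) * (y' - y) = y' := by push_cast; ring
  rwa [h2] at h1

/-- the set of non-captured points is mapped to itself, also its interior -/
theorem not_captured_iterate {f : OnePoint ℂ → OnePoint ℂ} {w : OnePoint ℂ} (n : ℕ)
    (h : ¬ Captured f w) : ¬ Captured f (f^[n] w) := fun h' => h h'.of_apply

theorem Dat.norm_le (D : Dat P Q α β γ δ r M) {y : ℂ}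
    (hy : ¬ Captured (rat P Q) (ch α β γ δ y)) : ‖y‖ ≤ M := by
  obtain ⟨s, hs, hM⟩ := D.bdd y hy y (mem_ball_self D.rpos) 0 _ rfl
  rw [(ch_open D.det).injective hs]
  exact hM

/-- a point of the interior gives a nonconstant limit -/
theorem NN.base (D : Dat P Q α β γ δ r M) {x0 : ℂ} {ρ : ℝ} (hρ : 0 < ρ)
    (hx0 : ∀ s ∈ ball x0 (3 * ρ), ¬ Captured (rat P Q) (ch α β γ δ s)) :
    ∃ y, ¬ Captured (rat P Q) (ch α β γ δ y) ∧ NN P Q α β γ δ r M y := by
  have ho := ch_open D.det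
  have hr := D.rpos
  have hM := D.Mpos
  -- the iterates in the chart
  have h1 : ∀ n, ∀ s ∈ ball x0 (3 * ρ), (rat P Q)^[n] (ch α β γ δ s) =
      ch α β γ δ (gn P Q α β γ δ n s) ∧ DifferentiableAt ℂ (gn P Q α β γ δ n) s ∧
      ¬ Captured (rat P Q) (ch α β γ δ (gn P Q α β γ δ n s)) := by
    intro n s hs
    have h2 := not_captured_iterate n (hx0 s hs)
    obtain ⟨s', hs'⟩ := D.range _ h2
    obtain ⟨h3, h4, -⟩ := gn_spec D.cop D.det n hs'.symm
    rw [h3, ← hs']
    refine ⟨rfl, h4, ?_⟩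
    rwa [hs']
  set G := fun n => gn P Q α β γ δ n with hG
  have hlip : ∀ n, ∀ s ∈ closedBall x0 ρ, ∀ t ∈ closedBall x0 ρ,
      ‖G n s - G n t‖ ≤ M / ρ * ‖s - t‖ := by
    intro n
    apply lip_of_bound hρ
    · intro s hs
      exact (h1 n s hs).2.1.differentiableWithinAt
    · intro s hs
      exact D.norm_le (h1 n s hs).2.2
  have hx0' : x0 ∈ ball x0 (3 * ρ) := mem_ball_self (by positivity)
  -- limit of the orbit
  obtain ⟨y, hy, hlim⟩ := D.compact.ultrafilter_le_nhds ((hyperfilter ℕ).map fun n => G n x0) (by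
    rw [le_principal_iff]
    exact Filter.mem_map.2 (Filter.Eventually.of_forall fun n => (h1 n x0 hx0').2.2))
  have hlim' : Tendsto (fun n => G n x0) (hyperfilter ℕ) (𝓝 y) := hlim
  have hy' : ¬ Captured (rat P Q) (ch α β γ δ y) := hy
  refine ⟨y, hy', ?_⟩
  have hex : ∀ n, ∃ g : ℂ → ℂ, G n x0 ∈ ball y r → (g (G n x0) = x0 ∧
      DifferentiableOn ℂ g (ball y r) ∧
      ∀ t ∈ ball y r, (rat P Q)^[n] (ch α β γ δ (g t)) = ch α β γ δ t ∧ ‖g t‖ ≤ M) := by
    intro n
    by_cases h2 : G n x0 ∈ ball y r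
    · obtain ⟨g, hg⟩ := D.branch hy' h2 (h1 n x0 hx0').1
      exact ⟨g, fun _ => hg⟩
    · exact ⟨0, fun h => absurd h h2⟩
  choose g hg using hex
  have hnear : ∀ᶠ n in (hyperfilter ℕ : Filter ℕ), G n x0 ∈ ball y (r / 3) :=
    hlim' (ball_mem_nhds y (by positivity))
  have hgood : ∀ᶠ n in (hyperfilter ℕ : Filter ℕ), g n (G n x0) = x0 ∧
      DifferentiableOn ℂ (g n) (ball y r) ∧
      ∀ t ∈ ball y r, (rat P Q)^[n] (ch α β γ δ (g n t)) = ch α β γ δ t ∧ ‖g n t‖ ≤ M := by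
    filter_upwards [hnear] with n hn
    exact hg n (ball_subset_ball (by linarith) hn)
  obtain ⟨Γ, hΓ⟩ := exists_limit (hgood.mono fun n hn t ht => (hn.2.2 t ht).2)
  refine ⟨g, Γ, hgood.mono fun n hn => hn.2, hΓ, ?_⟩
  rintro ⟨κ, hκ⟩
  -- value at the centre
  have hyb : y ∈ ball y r := mem_ball_self hr
  have hcentre : Γ y = x0 := by
    apply tendsto_nhds_unique (hΓ y hyb)
    rw [tendsto_iff_norm_sub_tendsto_zero]
    have h2 : Tendsto (fun n => M / (r / 3) * ‖y - G n x0‖) (hyperfilter ℕ) (𝓝 0) := by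
      have h3 : Tendsto (fun n => ‖y - G n x0‖) (hyperfilter ℕ) (𝓝 0) := by
        have h4 := (tendsto_const_nhds (x := y)).sub hlim'
        rw [sub_self] at h4
        have h5 := h4.norm
        rwa [norm_zero] at h5
      have h4 := h3.const_mul (M / (r / 3))
      rwa [mul_zero] at h4
    apply squeeze_zero' (Filter.Eventually.of_forall fun n => norm_nonneg _) _ h2
    filter_upwards [hgood, hnear] with n hn hn2
    obtain ⟨e1, e2, e3⟩ := hn
    have h3 : 3 * (r / 3) = r := by ring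
    have h4 := lip_of_bound (h := g n) (y := y) (R := r / 3) (M := M) (by positivity)
      (by rw [h3]; exact e2) (by rw [h3]; exact fun t ht => (e3 t ht).2) y
      (mem_closedBall_self (by positivity)) (G n x0) (ball_subset_closedBall hn2)
    rwa [e1] at h4
  -- value at another point
  set t : ℂ := y + ((r / 2 : ℝ) : ℂ) with ht
  have htn : ‖t - y‖ = r / 2 := by
    rw [ht, add_sub_cancel_left, Complex.norm_real, Real.norm_eq_abs, abs_of_pos (by positivity)]
  have htb : t ∈ ball y r := by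
    rw [mem_ball, dist_eq_norm, htn]; linarith
  have h2 : min ρ (‖t - y‖ / (M / ρ)) ≤ ‖Γ t - x0‖ := by
    have h3 : Tendsto (fun n => min ρ (‖t - G n x0‖ / (M / ρ))) (hyperfilter ℕ)
        (𝓝 (min ρ (‖t - y‖ / (M / ρ)))) := by
      apply tendsto_const_nhds.min
      apply Tendsto.div_const
      exact ((tendsto_const_nhds (x := t)).sub hlim').norm
    have h4 : Tendsto (fun n => ‖g n t - x0‖) (hyperfilter ℕ) (𝓝 ‖Γ t - x0‖) :=
      ((hΓ t htb).sub tendsto_const_nhds).norm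
    apply le_of_tendsto_of_tendsto h3 h4
    filter_upwards [hgood] with n hn
    obtain ⟨e1, e2, e3⟩ := hn
    by_cases h5 : g n t ∈ closedBall x0 ρ
    · have h6 := hlip n _ h5 x0 (mem_closedBall_self hρ.le)
      have h7 : G n (g n t) = t := (gn_spec D.cop D.det n (e3 t htb).1).1
      rw [h7] at h6
      apply (min_le_right _ _).trans
      rw [div_le_iff₀ (by positivity)]
      linarith
    · rw [mem_closedBall, dist_eq_norm] at h5
      push Not at h5
      exact (min_le_left _ _).trans h5.le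
  have h3 : Γ t = x0 := by
    rw [hκ t htb, ← hκ y hyb, hcentre]
  rw [h3, sub_self, norm_zero, htn] at h2
  have h4 : 0 < min ρ (r / 2 / (M / ρ)) := lt_min hρ (by positivity)
  linarith

end

end Pool.Agent.H91.Fatou
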