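import Mathlib
import Pool.Agent.H91.Fatou.Dense2

/-!
# Density of the basins of a hyperbolic map: conclusion
-/

set_option autoImplicit false

open Filter Topology Polynomial OnePoint Metric

namespace Pool.Agent.H91.Fatou

open Pool.Agent.H44.Fatou

/-- limits of points whose `n`-th images are a fixed point off the attracting cycles are not
captured -/
theorem not_captured_limit {f : OnePoint ℂ → OnePoint ℂ} (hf : Continuous f)
    {w : ℕ → OnePoint ℂ} {w0 t : OnePoint ℂ} (hw : Tendsto w (hyperfilter ℕ) (𝓝 w0))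
    (ht : ∀ᶠ n in (hyperfilter ℕ : Filter ℕ), f^[n] (w n) = t)
    (hB : ∀ (z : OnePoint ℂ) (n : ℕ), 0 < n → f^[n] z = z → Attracting f n z →
      ∀ i, f^[i] z ≠ t) : ¬ Captured f w0 := by
  rintro ⟨z, p, hp, hz, ha, m, hm⟩
  obtain ⟨ε, q, hε, hq0, hq1, -, hb⟩ := ha.trap univ_mem
  have h1 : ∀ᶠ v in 𝓝 z, ∀ j < p, f^[j] v ≠ t := by
    have h2 : ∀ j : Fin p, ∀ᶠ v in 𝓝 z, f^[(j : ℕ)] v ≠ t := by
      intro j
      exact ((hf.iterate j).tendsto z).eventually_ne (hB z p hp hz ha j)
    filter_upwards [eventually_all.2 h2] with v hv j hj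
    exact hv ⟨j, hj⟩
  obtain ⟨ε2, hε2, hb2⟩ := exists_cball h1
  obtain ⟨k1, hk1⟩ := exists_pow_lt_of_lt_one (show 0 < ε2 / ε by positivity) hq1
  have hk1' : ∀ k, k1 ≤ k → q ^ k * ε < ε2 := by
    intro k hk
    have h4 : q ^ k ≤ q ^ k1 := pow_le_pow_of_le_one hq0 hq1.le hk
    have h5 : q ^ k < ε2 / ε := lt_of_le_of_lt h4 hk1
    rwa [lt_div_iff₀ hε] at h5
  have h3 : {v | chord v z < ε} ∈ 𝓝 z := (isOpen_cball z ε).mem_nhds (by
    show chord z z < ε
    rw [chord_self]; exact hε)
  obtain ⟨k0, hk0⟩ := (hm.eventually h3).exists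
  have h4 : ∀ᶠ n in (hyperfilter ℕ : Filter ℕ), chord (f^[p * k0 + m] (w n)) z < ε := by
    have h5 := ((hf.iterate (p * k0 + m)).tendsto w0).comp hw
    exact h5.eventually ((isOpen_cball z ε).mem_nhds hk0)
  have hat : ∀ᶠ n in (hyperfilter ℕ : Filter ℕ), p * k0 + m + p * (k1 + 1) ≤ n := by
    have : (hyperfilter ℕ : Filter ℕ) ≤ atTop := by
      rw [← Nat.cofinite_eq_atTop]
      exact hyperfilter_le_cofinite
    exact this (eventually_ge_atTop _)
  obtain ⟨n, hn1, hn2, hn3⟩ := (h4.and (ht.and hat)).exists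
  -- decompose n
  set a := n - (p * k0 + m) with ha'
  have hna : n = a % p + p * (a / p) + (p * k0 + m) := by
    rw [Nat.mod_add_div]; omega
  have hk : k1 ≤ a / p := by
    have h5 : p * (k1 + 1) ≤ a := by omega
    have h6 : k1 + 1 ≤ a / p := (Nat.le_div_iff_mul_le hp).2 (by rw [mul_comm]; exact h5)
    omega
  have h5 := (hb _ hn1 (a / p)).1
  have h6 : chord (f^[p * (a / p)] (f^[p * k0 + m] (w n))) z < ε2 := by
    have h7 := hk1' _ hk
    have h8 : q ^ (a / p) * chord (f^[p * k0 + m] (w n)) z ≤ q ^ (a / p) * ε :=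
      mul_le_mul_of_nonneg_left hn1.le (pow_nonneg hq0 _)
    linarith
  have h7 := hb2 _ h6 (a % p) (Nat.mod_lt _ hp)
  apply h7
  rw [← Function.iterate_add_apply, ← Function.iterate_add_apply, ← hna]
  exact hn2

/-- the basins of a hyperbolic map of degree at least two are dense -/
theorem dense_captured {P Q : Polynomial ℂ} (hc : IsCoprime P Q) (he : 2 ≤ dg P Q)
    (hyp : ∀ c, Crit (rat P Q) c → Captured (rat P Q) c) :
    Dense {w | Captured (rat P Q) w} := by
  obtain ⟨α, β, γ, δ, r, M, D⟩ := exists_dat hc he hyp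
  have ho := ch_open D.det
  have hr := D.rpos
  set f := rat P Q with hf
  have hfc : Continuous f := rat_continuous hc
  have hfo : IsOpenMap f := rat_isOpenMap hc D.deg
  set ψ := ch α β γ δ with hψ
  by_contra hcon
  have h2 : (interior {w | Captured f w}ᶜ).Nonempty := by
    by_contra h3
    rw [Set.not_nonempty_iff_eq_empty, interior_eq_empty_iff_dense_compl, compl_compl] at h3
    exact hcon h3
  set O : Set ℂ := ψ ⁻¹' interior {w | Captured f w}ᶜ with hO
  have hOo : IsOpen O := isOpen_interior.preimage ho.continuous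
  have hOs : ∀ y ∈ O, ¬ Captured f (ψ y) := fun y hy => interior_subset hy
  obtain ⟨w0, hw0⟩ := h2
  obtain ⟨x0, hx0⟩ := D.range w0 (interior_subset hw0)
  have hx0' : ψ x0 = w0 := hx0
  have hx0O : x0 ∈ O := by
    show ψ x0 ∈ interior {w | Captured f w}ᶜ
    rw [hx0']; exact hw0
  obtain ⟨ρ0, hρ0, hb⟩ := Metric.isOpen_iff.1 hOo x0 hx0O
  obtain ⟨y, hy, hN⟩ := NN.base D (x0 := x0) (ρ := ρ0 / 3) (by positivity) (by
    intro s hs
    have : 3 * (ρ0 / 3) = ρ0 := by ring
    rw [this] at hs
    exact hOs s (hb hs))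
  -- move to a boundary point
  obtain ⟨y', hy'1, hy'2, hN'⟩ : ∃ y', ¬ Captured f (ψ y') ∧ y' ∉ O ∧
      NN P Q α β γ δ r M y' := by
    by_cases hyO : y ∈ O
    · have hne : (Oᶜ).Nonempty := by
        by_contra h3
        rw [Set.not_nonempty_iff_eq_empty, Set.compl_empty_iff] at h3
        have h4 : ((M + 1 : ℝ) : ℂ) ∈ O := by rw [h3]; trivial
        have h5 := D.norm_le (hOs _ h4)
        rw [Complex.norm_real, Real.norm_eq_abs, abs_of_pos (by linarith [D.Mpos])] at h5
        linarith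
      obtain ⟨y', hy'O, hdist⟩ := hOo.isClosed_compl.exists_infDist_eq_dist hne y
      have hpos : 0 < dist y y' := by
        rw [dist_pos]
        rintro rfl
        exact hy'O hyO
      have hball : ball y (dist y y') ⊆ O := by
        intro s hs
        by_contra h3
        have h4 := Metric.infDist_le_dist_of_mem (x := y) (show s ∈ Oᶜ from h3)
        rw [hdist, dist_comm y s] at h4
        rw [mem_ball] at hs
        linarith
      have hseg : ∀ τ : ℝ, 0 ≤ τ → τ < 1 → y + (τ : ℂ) * (y' - y) ∈ O := by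
        intro τ h3 h4
        apply hball
        rw [mem_ball, dist_eq_norm, add_sub_cancel_left, norm_mul, Complex.norm_real,
          Real.norm_eq_abs, abs_of_nonneg h3, ← dist_eq_norm, dist_comm y' y]
        have := mul_lt_mul_of_pos_right h4 hpos
        linarith
      have hy'c : ¬ Captured f (ψ y') := by
        have hcl : IsClosed {y : ℂ | ¬ Captured f (ψ y)} := D.compact.isClosed
        have h3 : Tendsto (fun n : ℕ => y + (((1 : ℝ) - 1 / ((n : ℝ) + 1) : ℝ) : ℂ) * (y' - y)) atTop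
            (𝓝 (y + (((1 : ℝ) - 0 : ℝ) : ℂ) * (y' - y))) := by
          apply Tendsto.const_add
          apply Tendsto.mul_const
          exact (Complex.continuous_ofReal.tendsto _).comp
            (tendsto_const_nhds.sub tendsto_one_div_add_atTop_nhds_zero_nat)
        have h4 : y + (((1 : ℝ) - 0 : ℝ) : ℂ) * (y' - y) = y' := by push_cast; ring
        rw [h4] at h3
        apply hcl.mem_of_tendsto h3
        apply Filter.Eventually.of_forall
        intro n
        apply hOs
        apply hseg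
        · have : 1 / ((n : ℝ) + 1) ≤ 1 := by
            rw [div_le_one (by positivity)]
            have : (0 : ℝ) ≤ n := Nat.cast_nonneg n
            linarith
          linarith
        · have : 0 < 1 / ((n : ℝ) + 1) := by positivity
          linarith
      refine ⟨y', hy'c, hy'O, NN.chain D ?_ hN⟩
      intro τ h3 h4
      rcases lt_or_eq_of_le h4 with h5 | h5
      · exact hOs _ (hseg τ h3 h5)
      · rw [h5]
        have h6 : y + ((1 : ℝ) : ℂ) * (y' - y) = y' := by push_cast; ring
        rw [h6]; exact hy'c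
    · exact ⟨y, hy, hyO, hN⟩
  obtain ⟨g, Γ, hg, hΓ, hnc⟩ := hN'
  have hhol : DifferentiableOn ℂ Γ (ball y' r) := by
    apply limit_hol (hyperfilter ℕ) isOpen_ball _ hΓ
    exact M
    filter_upwards [hg] with n hn
    exact ⟨hn.1, fun t ht => (hn.2 t ht).2⟩
  have han : AnalyticOnNhd ℂ Γ (ball y' r) := hhol.analyticOnNhd isOpen_ball
  -- the limit has values in the complement of the basin
  have hval : ∀ t ∈ ball y' r, ¬ Captured f (ψ (Γ t)) := by
    intro t0 ht0 hcap
    have h3 : ∀ᶠ t in 𝓝 t0, t ∈ ball y' r ∧ Captured f (ψ (Γ t)) := by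
      have h4 : ContinuousAt (fun t => ψ (Γ t)) t0 :=
        ho.continuous.continuousAt.comp (hhol.continuousOn.continuousAt (isOpen_ball.mem_nhds ht0))
      have h5 := h4.eventually ((isOpen_captured hfc).mem_nhds hcap)
      have h6 : ∀ᶠ t in 𝓝 t0, t ∈ ball y' r := isOpen_ball.mem_nhds ht0
      exact h6.and h5
    have h4 : {t : ℂ | ψ t ∈ ⋃ i : ℕ, (f^[i]) '' {z | ∃ n, 0 < n ∧ f^[n] z = z ∧
        Attracting f n z}}.Countable :=
      (Set.countable_iUnion fun i => (countable_attr f).image _).preimage ho.injective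
    obtain ⟨t, ht3, ht1, ht2⟩ := (h4.dense_compl ℝ).inter_nhds_nonempty h3
    apply not_captured_limit hfc (w := fun n => ψ (g n t)) (w0 := ψ (Γ t)) (t := ψ t) _ _ _ ?_
    · exact (ho.continuous.tendsto _).comp (hΓ t ht1)
    · filter_upwards [hg] with n hn
      exact (hn.2 t ht1).1
    · intro z n hn hz ha i hi
      apply ht3
      exact Set.mem_iUnion.2 ⟨i, z, ⟨n, hn, hz, ha⟩, hi⟩
    · exact ht2
  rcases han.is_constant_or_isOpen (convex_ball y' r).isPreconnected with h3 | h3
  · exact hnc h3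
  · have h4 := h3 _ le_rfl isOpen_ball
    have h5 : IsOpen (ψ '' (Γ '' ball y' r)) := ho.isOpenMap _ h4
    have h6 : ψ '' (Γ '' ball y' r) ⊆ interior {w | Captured f w}ᶜ := by
      apply interior_maximal _ h5
      rintro _ ⟨_, ⟨t, ht, rfl⟩, rfl⟩
      exact hval t ht
    have hyb : y' ∈ ball y' r := mem_ball_self hr
    have h7 : Γ y' ∈ O := h6 ⟨_, ⟨y', hyb, rfl⟩, rfl⟩
    have h8 : ∀ᶠ n in (hyperfilter ℕ : Filter ℕ), g n y' ∈ O :=
      (hΓ y' hyb) (hOo.mem_nhds h7)
    obtain ⟨n, hn1, hn2⟩ := (h8.and hg).exists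
    apply hy'2
    have h9 : IsOpen (f^[n] '' interior {w | Captured f w}ᶜ) :=
      open_iterate hfo n _ isOpen_interior
    have h10 : f^[n] '' interior {w | Captured f w}ᶜ ⊆ interior {w | Captured f w}ᶜ := by
      apply interior_maximal _ h9
      rintro _ ⟨w, hw, rfl⟩
      exact not_captured_iterate n (interior_subset hw)
    show ψ y' ∈ interior {w | Captured f w}ᶜ
    have e : f^[n] (ψ (g n y')) = ψ y' := (hn2.2 y' hyb).1
    rw [← e]
    exact h10 ⟨_, hn1, rfl⟩

end Pool.Agent.H91.Fatou
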