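import Mathlib
import Pool.Agent.H91.Fatou.Dense3

/-!
# Main theorem on degenerate limits of hyperbolic maps
-/

set_option autoImplicit false

open Filter Topology Polynomial OnePoint Metric

namespace Pool.Agent.H91.Fatou

open Pool.Agent.H44.Fatou

theorem ext_eq_rat {P Q : Polynomial ℂ} (hc : IsCoprime P Q) (hQ : Q ≠ 0)
    {f : OnePoint ℂ → OnePoint ℂ} (hf : Continuous f)
    (h : ∀ z : ℂ, Q.eval z ≠ 0 → f (OnePoint.some z) = OnePoint.some (P.eval z / Q.eval z)) :
    f = rat P Q := by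
  have hd : Dense (((↑) : ℂ → OnePoint ℂ) '' {z | Q.eval z = 0}ᶜ) := by
    have h1 : Dense ({z : ℂ | Q.eval z = 0}ᶜ) := ((finite_roots hQ).countable).dense_compl ℝ
    exact denseRange_coe.dense_image continuous_coe h1
  apply Continuous.ext_on hd hf (rat_continuous hc)
  rintro _ ⟨z, hz, rfl⟩
  have hz' : Q.eval z ≠ 0 := hz
  have := h z hz'
  rw [rat_coe]
  unfold pt
  rw [if_neg hz']
  exact this

theorem q_ne_zero {P Q : Polynomial ℂ} (hc : IsCoprime P Q) (he : 0 < dg P Q) : Q ≠ 0 := by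
  rintro rfl
  have h1 : IsUnit P := isCoprime_zero_right.1 hc
  have h2 := natDegree_eq_zero_of_isUnit h1
  unfold dg at he
  rw [h2, natDegree_zero] at he
  simp at he

theorem isHyp_iff {P Q : Polynomial ℂ} (hc : IsCoprime P Q) (he : 0 < dg P Q) :
    IsHyperbolic P Q ↔ ∀ c, Crit (rat P Q) c → Captured (rat P Q) c := by
  constructor
  · rintro ⟨f, hf, h1, h2⟩
    rw [← ext_eq_rat hc (q_ne_zero hc he) hf h1]
    exact h2
  · intro h
    exact ⟨rat P Q, rat_continuous hc, fun z hz => rat_coe_of_ne hz, h⟩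

/-- loxodromic maps -/
theorem lox {a l1 l2 g : ℂ} (hg : g ≠ 0) (h1 : l1 ≠ 0) (h2 : l2 ≠ 0) (hlt : ‖l2‖ < ‖l1‖) :
    IsCoprime (C (l2 + g * a) * X + C (-g * a ^ 2 + (l1 - l2) * a) : Polynomial ℂ)
      (C g * X + C (l1 - g * a)) ∧
    dg (C (l2 + g * a) * X + C (-g * a ^ 2 + (l1 - l2) * a) : Polynomial ℂ)
      (C g * X + C (l1 - g * a)) = 1 ∧
    (∀ c, Crit (rat (C (l2 + g * a) * X + C (-g * a ^ 2 + (l1 - l2) * a))
      (C g * X + C (l1 - g * a))) c → Captured (rat (C (l2 + g * a) * X +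
        C (-g * a ^ 2 + (l1 - l2) * a)) (C g * X + C (l1 - g * a))) c) ∧
    Dense {w | Captured (rat (C (l2 + g * a) * X + C (-g * a ^ 2 + (l1 - l2) * a))
      (C g * X + C (l1 - g * a))) w} := by
  set α := l2 + g * a with hα
  set β := -g * a ^ 2 + (l1 - l2) * a with hβ
  set δ := l1 - g * a with hδ
  have hdet : α * δ - β * g ≠ 0 := by
    have : α * δ - β * g = l1 * l2 := by rw [hα, hβ, hδ]; ring
    rw [this]; exact mul_ne_zero h1 h2
  have hc := mob_cop hdet
  refine ⟨hc, mob_dg hdet, ?_, ?_⟩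
  · intro c hcr
    exfalso
    apply hcr
    exact ⟨Set.univ, univ_mem, fun x _ y _ hxy => (mobH hdet).injective hxy⟩
  · set κ := l2 / l1 with hκ
    have hκ1 : ‖κ‖ < 1 := by
      rw [hκ, norm_div, div_lt_one (norm_pos_iff.2 h1)]; exact hlt
    set r := a + (l2 - l1) / g with hr
    have hgr : g * (r - a) = l2 - l1 := by rw [hr]; field_simp; ring
    have hd : (-r) * 1 - a * (-1) ≠ 0 := by
      intro h0
      have h3 : r - a = 0 := by linear_combination -h0
      rw [h3, mul_zero] at hgr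
      have h4 : l2 = l1 := by linear_combination -hgr
      rw [h4] at hlt
      exact lt_irrefl _ hlt
    have hstep : ∀ t : ℂ, rat (C α * X + C β) (C g * X + C δ) (ch (-r) a (-1) 1 t) =
        ch (-r) a (-1) 1 (κ * t) := by
      intro t
      have h3 : rat (C α * X + C β) (C g * X + C δ) (ch (-r) a (-1) 1 t) =
          mob α β g δ (pt (-r * t + a) (-1 * t + 1)) := rfl
      rw [h3, mob_pt hdet (ch_ne hd t)]
      have e1 : α * (-r * t + a) + β * (-1 * t + 1) = (-r * (κ * t) + a) * l1 := by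
        have : l2 = κ * l1 := by rw [hκ]; field_simp
        rw [hα, hβ]
        linear_combination (-a * t) * hgr + (-r * t) * this
      have e2 : g * (-r * t + a) + δ * (-1 * t + 1) = (-1 * (κ * t) + 1) * l1 := by
        have : l2 = κ * l1 := by rw [hκ]; field_simp
        rw [hδ]
        linear_combination (-t) * hgr + (-t) * this
      rw [e1, e2, pt_smul h1]
      rfl
    have hiter : ∀ (n : ℕ) (t : ℂ), (rat (C α * X + C β) (C g * X + C δ))^[n]
        (ch (-r) a (-1) 1 t) = ch (-r) a (-1) 1 (κ ^ n * t) := by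
      intro n
      induction n with
      | zero => intro t; simp
      | succ n ih =>
        intro t
        rw [Function.iterate_succ_apply, hstep, ih]
        congr 1
        ring
    obtain ⟨N0, hN0⟩ := exists_pow_lt_of_lt_one (show (0 : ℝ) < 1 / 4 by norm_num) hκ1
    set N := N0 + 1 with hN
    have hNκ : ‖κ ^ N‖ < 1 / 4 := by
      rw [norm_pow]
      exact lt_of_le_of_lt (pow_le_pow_of_le_one (norm_nonneg _) hκ1.le (Nat.le_succ N0)) hN0
    have hcap : ∀ t : ℂ, Captured (rat (C α * X + C β) (C g * X + C δ)) (ch (-r) a (-1) 1 t) := by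
      intro t
      have hR : 0 < 2 * (‖t‖ + 1) := by positivity
      obtain ⟨z', hz1, hz2, hz3⟩ := trap_chart hd (ch_open hd) hc (N := N) hR (by
        intro s hs
        rw [hiter]
        refine ⟨_, ?_, rfl⟩
        rw [mem_closedBall_zero_iff] at hs
        rw [mem_ball_zero_iff, norm_mul]
        rcases eq_or_ne s 0 with h0 | h0
        · rw [h0, norm_zero, mul_zero]; positivity
        · have h3 := norm_pos_iff.2 h0
          calc ‖κ ^ N‖ * ‖s‖ < 1 / 4 * ‖s‖ := mul_lt_mul_of_pos_right hNκ h3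
            _ ≤ 2 * (‖t‖ + 1) / 4 := by linarith)
      refine ⟨z', N, Nat.succ_pos _, hz1, hz2, 0, ?_⟩
      have h3 := hz3 t (by
        rw [mem_closedBall_zero_iff]
        linarith)
      simpa using h3
    apply Dense.mono (s₁ := Set.range (ch (-r) a (-1) 1))
    · rintro _ ⟨t, rfl⟩
      exact hcap t
    · rw [ch_range hd]
      rw [dense_compl_singleton_iff_not_open]
      intro hopen
      obtain ⟨α', β', γ', δ', hd', ho', h0'⟩ := exists_chart (pt (-r) (-1))
      have h3 := hopen.preimage ho'.continuous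
      have h4 : ch α' β' γ' δ' ⁻¹' {pt (-r) (-1)} = {0} := by
        ext x
        constructor
        · intro hx
          have hx' : ch α' β' γ' δ' x = pt (-r) (-1) := hx
          rw [← h0'] at hx'
          exact ho'.injective hx'
        · intro hx
          have hx' : x = 0 := hx
          show ch α' β' γ' δ' x = pt (-r) (-1)
          rw [hx', h0']
      rw [h4] at h3
      exact not_isOpen_singleton (0 : ℂ) h3

/-- perturbation of `H` to full degree -/
theorem pert_full (H : Polynomial ℂ) {k : ℕ} (hH : H.natDegree ≤ k) {ε : ℝ} (hε : 0 < ε) :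
    ∃ H1 : Polynomial ℂ, H1 ≠ 0 ∧ H1.natDegree = k ∧ ∀ i, ‖H1.coeff i - H.coeff i‖ < ε := by
  by_cases hk : H.coeff k = 0
  · have ht0 : ((ε / 2 : ℝ) : ℂ) ≠ 0 := by
      have : (ε / 2 : ℝ) ≠ 0 := by positivity
      exact_mod_cast this
    have hn : ‖((ε / 2 : ℝ) : ℂ)‖ = ε / 2 := by
      rw [Complex.norm_real, Real.norm_eq_abs, abs_of_pos (by positivity)]
    have hco : (H + C ((ε / 2 : ℝ) : ℂ) * X ^ k).coeff k = ((ε / 2 : ℝ) : ℂ) := by
      rw [coeff_add, hk, zero_add, coeff_C_mul, coeff_X_pow_self, mul_one]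
    refine ⟨H + C ((ε / 2 : ℝ) : ℂ) * X ^ k, ?_, ?_, ?_⟩
    · intro h0
      rw [h0, coeff_zero] at hco
      exact ht0 hco.symm
    · apply le_antisymm
      · apply (natDegree_add_le _ _).trans
        apply max_le hH
        exact natDegree_C_mul_X_pow_le _ _
      · apply le_natDegree_of_ne_zero
        rw [hco]; exact ht0
    · intro i
      rw [coeff_add, add_sub_cancel_left, coeff_C_mul, coeff_X_pow, norm_mul, hn]
      split_ifs
      · rw [norm_one]; linarith
      · rw [norm_zero]; linarith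
  · refine ⟨H, ?_, ?_, ?_⟩
    · intro h0
      rw [h0, coeff_zero] at hk
      exact hk rfl
    · exact le_antisymm hH (le_natDegree_of_ne_zero hk)
    · intro i; rw [sub_self, norm_zero]; exact hε

/-- coprime pairs near a degenerate pair -/
theorem exists_coprime_near {P Q H : Polynomial ℂ} (hc : IsCoprime P Q) (he : 0 < dg P Q)
    (hH : H ≠ 0) {η : ℝ} (hη : 0 < η) :
    ∃ P' Q' : Polynomial ℂ, IsCoprime P' Q' ∧ dg P' Q' = dg P Q + H.natDegree ∧
      (∀ i, ‖P'.coeff i - (P * H).coeff i‖ < η) ∧ ∀ i, ‖Q'.coeff i - (Q * H).coeff i‖ < η := by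
  have hQ := q_ne_zero hc he
  have hQH : Q * H ≠ 0 := mul_ne_zero hQ hH
  have hfin : ((fun x : ℂ => -(P * H).eval x) '' {x : ℂ | (Q * H).eval x = 0}).Countable :=
    ((finite_roots hQH).image _).countable
  obtain ⟨t, ht1, ht2⟩ : ∃ t : ℂ, t ∈ ball (0 : ℂ) η ∧
      t ∉ ((fun x : ℂ => -(P * H).eval x) '' {x : ℂ | (Q * H).eval x = 0}) := by
    obtain ⟨t, ht2, ht1⟩ := (hfin.dense_compl ℝ).inter_nhds_nonempty (ball_mem_nhds (0 : ℂ) hη)
    exact ⟨t, ht1, ht2⟩
  rw [mem_ball_zero_iff] at ht1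
  refine ⟨P * H + C t, Q * H, ?_, ?_, ?_, ?_⟩
  · rw [Polynomial.isCoprime_iff_aeval_ne_zero_of_isAlgClosed (k := ℂ) ℂ]
    intro x
    by_contra hcon
    push Not at hcon
    apply ht2
    obtain ⟨h1, h2⟩ := hcon
    have h1' : (P * H + C t).eval x = 0 := by simpa using h1
    have h2' : (Q * H).eval x = 0 := by simpa using h2
    refine ⟨x, h2', ?_⟩
    rw [eval_add, eval_C] at h1'
    show -(P * H).eval x = t
    linear_combination -h1'
  · have hQn : (Q * H).natDegree = Q.natDegree + H.natDegree := natDegree_mul hQ hH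
    by_cases hP : P = 0
    · subst hP
      have h1 : dg (0 : Polynomial ℂ) Q = Q.natDegree := by unfold dg; simp
      rw [h1]
      unfold dg
      rw [zero_mul, zero_add, natDegree_C, hQn]
      omega
    · have hPn : (P * H).natDegree = P.natDegree + H.natDegree := natDegree_mul hP hH
      unfold dg at he ⊢
      rw [hQn]
      by_cases h0 : (P * H).natDegree = 0
      · have h1 : (P * H + C t).natDegree = 0 := by
          apply Nat.eq_zero_of_le_zero
          apply (natDegree_add_le _ _).trans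
          rw [h0, natDegree_C]
          rfl
        omega
      · have h1 : (P * H + C t).natDegree = (P * H).natDegree := natDegree_add_C
        omega
  · intro i
    rw [coeff_add, add_sub_cancel_left, coeff_C]
    split_ifs
    · exact ht1
    · rw [norm_zero]; exact hη
  · intro i
    rw [sub_self, norm_zero]; exact hη

/-- base maps with dense basins near given pairs -/
theorem exists_base {e : ℕ} (he : 1 ≤ e) (A B : Polynomial ℂ) (hA : A.natDegree ≤ e)
    (hB : B.natDegree ≤ e)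
    (hlim : 2 ≤ e → ∀ η : ℝ, 0 < η → ∃ P Q : Polynomial ℂ, IsCoprime P Q ∧
      max P.natDegree Q.natDegree = e ∧ IsHyperbolic P Q ∧
      ∀ i : ℕ, ‖P.coeff i - A.coeff i‖ < η ∧ ‖Q.coeff i - B.coeff i‖ < η)
    {ε : ℝ} (hε : 0 < ε) :
    ∃ P Q : Polynomial ℂ, IsCoprime P Q ∧ dg P Q = e ∧
      (∀ c, Crit (rat P Q) c → Captured (rat P Q) c) ∧ Dense {w | Captured (rat P Q) w} ∧
      ∀ i : ℕ, ‖P.coeff i - A.coeff i‖ < ε ∧ ‖Q.coeff i - B.coeff i‖ < ε := by
  rcases Nat.lt_or_ge e 2 with h1 | h1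
  · have he1 : e = 1 := by omega
    subst he1
    obtain ⟨α, β, rfl⟩ := exists_eq_X_add_C_of_natDegree_le_one hA
    obtain ⟨γ, δ, rfl⟩ := exists_eq_X_add_C_of_natDegree_le_one hB
    obtain ⟨a, l1, l2, g, hg, hl1, hl2, hlt, hα, hβ, hγ, hδ⟩ := pert_mob α β γ δ hε
    obtain ⟨h2, h3, h4, h5⟩ := lox (a := a) hg hl1 hl2 hlt
    refine ⟨_, _, h2, h3, h4, h5, ?_⟩
    have key : ∀ (x y x' y' : ℂ), ‖x' - x‖ < ε → ‖y' - y‖ < ε → ∀ i,
        ‖(C x' * X + C y' : Polynomial ℂ).coeff i - (C x * X + C y : Polynomial ℂ).coeff i‖ < ε := by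
      intro x y x' y' hx hy i
      rcases i with _ | _ | i
      · simpa using hy
      · simpa [coeff_C] using hx
      · simpa [coeff_C, coeff_X] using hε
    exact fun i => ⟨key _ _ _ _ hα hβ i, key _ _ _ _ hγ hδ i⟩
  · obtain ⟨P, Q, h2, h3, h4, h5⟩ := hlim h1 ε hε
    have h3' : dg P Q = e := h3
    have h6 := (isHyp_iff h2 (by omega)).1 h4
    exact ⟨P, Q, h2, h3', h6, dense_captured h2 (by omega) h6, h5⟩

/-- the main theorem -/
theorem main (d e : ℕ) (he : 1 ≤ e) (hed : e < d) (A B H : Polynomial ℂ)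
    (hA : A.natDegree ≤ e) (hB : B.natDegree ≤ e) (hH : H.natDegree ≤ d - e)
    (hlim : 2 ≤ e → ∀ η : ℝ, 0 < η → ∃ P Q : Polynomial ℂ, IsCoprime P Q ∧
      max P.natDegree Q.natDegree = e ∧ IsHyperbolic P Q ∧
      ∀ i : ℕ, ‖P.coeff i - A.coeff i‖ < η ∧ ‖Q.coeff i - B.coeff i‖ < η)
    (ε : ℝ) (hε : 0 < ε) :
    ∃ A' B' H' : Polynomial ℂ,
      IsCoprime A' B' ∧ max A'.natDegree B'.natDegree = e ∧ H'.natDegree = d - e ∧
      (∀ i : ℕ, ‖A'.coeff i - A.coeff i‖ < ε ∧ ‖B'.coeff i - B.coeff i‖ < ε ∧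
        ‖H'.coeff i - H.coeff i‖ < ε) ∧
      (∃ ρ : ℝ, 0 < ρ ∧ ∀ P Q : Polynomial ℂ, IsCoprime P Q →
        max P.natDegree Q.natDegree = d →
        (∀ i : ℕ, ‖P.coeff i - (A' * H').coeff i‖ < ρ ∧ ‖Q.coeff i - (B' * H').coeff i‖ < ρ) →
        IsHyperbolic P Q) ∧
      ∀ η : ℝ, 0 < η → ∃ P Q : Polynomial ℂ, IsCoprime P Q ∧ max P.natDegree Q.natDegree = d ∧
        ∀ i : ℕ, ‖P.coeff i - (A' * H').coeff i‖ < η ∧ ‖Q.coeff i - (B' * H').coeff i‖ < η := by
  obtain ⟨A', B', hc, hdg, hyp, hdense, hclose⟩ := exists_base he A B hA hB hlim hε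
  obtain ⟨H1, hH1, hH1k, hH1c⟩ := pert_full H hH (half_pos hε)
  obtain ⟨l, h, hl, hHe⟩ := exists_roots (d - e) H1 hH1 hH1k
  have hcont : ContC (fun p : Fin (d - e) → ℂ => C l * ∏ i, (X - C (p i))) := by
    apply (ContC.const _).mul
    apply ContC.prod
    intro i
    apply (ContC.const X).sub
    exact ContC.C (continuous_apply i)
  have e1 := hcont.near (d := d - e) (fun p => (natDegree_roots hl p).le) h (half_pos hε)
  obtain ⟨ε1, hε1, hb1⟩ := Metric.eventually_nhds_iff_ball.1 e1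
  obtain ⟨h', hh1, hh2, hh3, hh4⟩ := exists_generic hc hyp h (fun i => hdense _) hl hε1
  set H' := C l * ∏ i, (X - C (h' i)) with hH'
  have hH'k : H'.natDegree = d - e := natDegree_roots hl h'
  have hH'0 : H' ≠ 0 := by
    intro h0
    rw [h0, natDegree_zero] at hH'k
    omega
  have hde : dg A' B' + H'.natDegree = d := by omega
  refine ⟨A', B', H', hc, hdg, hH'k, ?_, ?_, ?_⟩
  · intro i
    refine ⟨(hclose i).1, (hclose i).2, ?_⟩
    have h2 : h' ∈ ball h ε1 := by
      rw [mem_ball, dist_pi_lt_iff hε1]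
      intro i
      rw [dist_eq_norm]
      exact hh1 i
    have h3 := hb1 _ h2 i
    rw [← hHe] at h3
    calc ‖H'.coeff i - H.coeff i‖ = ‖(H'.coeff i - H1.coeff i) + (H1.coeff i - H.coeff i)‖ := by
          congr 1; ring
      _ ≤ _ + _ := norm_add_le _ _
      _ < ε := by
        have := hH1c i
        linarith
  · obtain ⟨ρ, hρ, hρm⟩ := exists_nbhd hc hH'0 hh2 (fun c hcr _ => hh3 c hcr) hh4
    refine ⟨ρ, hρ, ?_⟩
    intro P Q hPQ hdPQ hcl
    have hdPQ' : dg P Q = d := hdPQ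
    rw [isHyp_iff hPQ (by omega)]
    exact hρm P Q hPQ (by rw [hde]; exact hdPQ') (fun i => (hcl i).1) (fun i => (hcl i).2)
  · intro η hη
    obtain ⟨P, Q, h2, h3, h4, h5⟩ := exists_coprime_near hc (by omega) hH'0 hη
    rw [hde] at h3
    exact ⟨P, Q, h2, h3, fun i => ⟨h4 i, h5 i⟩⟩

end Pool.Agent.H91.Fatou
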